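import Pool.Agent.H188Z.OpDefs

set_option autoImplicit false

open Topology Filter
open scoped LinearPMap InnerProductSpace

noncomputable section

namespace Pool.Agent.H188Z

section graphs

variable {𝕜 : Type*} [RCLike 𝕜] {E F G : Type*} [AddCommGroup E] [Module 𝕜 E]
  [AddCommGroup F] [Module 𝕜 F] [AddCommGroup G] [Module 𝕜 G]

theorem mem_graph_pcomp {g : F →ₗ.[𝕜] G} {f : E →ₗ.[𝕜] F} {x : E} {z : G} :
    (x, z) ∈ (pcomp g f).graph ↔ ∃ y, (x, y) ∈ f.graph ∧ (y, z) ∈ g.graph := by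
  constructor
  · intro h
    rw [LinearPMap.mem_graph_iff] at h
    obtain ⟨⟨w, hw⟩, h1, h2⟩ := h
    simp only at h1 h2
    subst h1
    refine ⟨f ⟨w, hw.2⟩, f.mem_graph ⟨w, hw.2⟩, ?_⟩
    rw [← h2]
    exact g.mem_graph ⟨_, compDomain_prop g f ⟨w, hw⟩⟩
  · rintro ⟨y, h1, h2⟩
    rw [LinearPMap.mem_graph_iff] at h1 h2 ⊢
    obtain ⟨a, ha1, ha2⟩ := h1
    obtain ⟨b, hb1, hb2⟩ := h2
    simp only at ha1 ha2 hb1 hb2
    have hmem : x ∈ (pcomp g f).domain := by
      refine ⟨⟨a, ?_, ha1⟩, ha1 ▸ a.2⟩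
      show f a ∈ g.domain
      rw [ha2, ← hb1]
      exact b.2
    refine ⟨⟨x, hmem⟩, rfl, ?_⟩
    rw [← hb2]
    show g ⟨_, compDomain_prop g f ⟨x, hmem⟩⟩ = g b
    congr 1
    ext
    show f.domRestrict _ ⟨x, hmem⟩ = b
    rw [hb1, ← ha2]
    exact LinearPMap.domRestrict_apply ha1.symm

theorem mem_graph_add {f g : E →ₗ.[𝕜] F} {x : E} {z : F} :
    (x, z) ∈ (f + g).graph ↔ ∃ a b, (x, a) ∈ f.graph ∧ (x, b) ∈ g.graph ∧ z = a + b := by
  constructor
  · intro h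
    rw [LinearPMap.mem_graph_iff] at h
    obtain ⟨⟨w, hw⟩, h1, h2⟩ := h
    simp only at h1 h2
    subst h1
    exact ⟨_, _, f.mem_graph ⟨w, hw.1⟩, g.mem_graph ⟨w, hw.2⟩, h2.symm⟩
  · rintro ⟨a, b, h1, h2, rfl⟩
    rw [LinearPMap.mem_graph_iff] at h1 h2 ⊢
    obtain ⟨a', ha1, ha2⟩ := h1
    obtain ⟨b', hb1, hb2⟩ := h2
    simp only at ha1 ha2 hb1 hb2
    refine ⟨⟨x, ⟨ha1 ▸ a'.2, hb1 ▸ b'.2⟩⟩, rfl, ?_⟩
    rw [← ha2, ← hb2]
    subst ha1
    show f _ + g _ = _
    congr 2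
    exact Subtype.ext hb1.symm

theorem graph_apply {f : E →ₗ.[𝕜] F} {x : E} {y : F} (h : (x, y) ∈ f.graph) :
    ∃ hx : x ∈ f.domain, f ⟨x, hx⟩ = y := by
  rw [LinearPMap.mem_graph_iff] at h
  obtain ⟨a, ha1, ha2⟩ := h
  simp only at ha1 ha2
  subst ha1
  exact ⟨a.2, ha2⟩

theorem graph_sub {f : E →ₗ.[𝕜] F} {x x' : E} {y y' : F} (h : (x, y) ∈ f.graph)
    (h' : (x', y') ∈ f.graph) : (x - x', y - y') ∈ f.graph := f.graph.sub_mem h h'

theorem graph_add {f : E →ₗ.[𝕜] F} {x x' : E} {y y' : F} (h : (x, y) ∈ f.graph)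
    (h' : (x', y') ∈ f.graph) : (x + x', y + y') ∈ f.graph := f.graph.add_mem h h'

theorem graph_smul {f : E →ₗ.[𝕜] F} {x : E} {y : F} (c : 𝕜) (h : (x, y) ∈ f.graph) :
    (c • x, c • y) ∈ f.graph := f.graph.smul_mem c h

theorem graph_uniq {f : E →ₗ.[𝕜] F} {x : E} {y y' : F} (h : (x, y) ∈ f.graph)
    (h' : (x, y') ∈ f.graph) : y = y' := f.mem_graph_snd_inj h h' rfl

end graphs

variable {𝕜 : Type*} [RCLike 𝕜]

section adj

variable {H₀ H₁ : Type*}
  [NormedAddCommGroup H₀] [InnerProductSpace 𝕜 H₀] [CompleteSpace H₀]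
  [NormedAddCommGroup H₁] [InnerProductSpace 𝕜 H₁]

theorem mem_graph_adjoint {S : H₀ →ₗ.[𝕜] H₁} (hS : Dense (S.domain : Set H₀)) {y : H₁} {w : H₀} :
    (y, w) ∈ S†.graph ↔ ∀ x a, (x, a) ∈ S.graph → ⟪w, x⟫_𝕜 = ⟪y, a⟫_𝕜 := by
  constructor
  · intro h x a hxa
    obtain ⟨hy, rfl⟩ := graph_apply h
    obtain ⟨hx, rfl⟩ := graph_apply hxa
    exact LinearPMap.adjoint_isFormalAdjoint hS ⟨y, hy⟩ ⟨x, hx⟩
  · intro h
    have h1 : ∀ x : S.domain, ⟪w, (x : H₀)⟫_𝕜 = ⟪y, S x⟫_𝕜 := fun x => h _ _ (S.mem_graph x)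
    have hy : y ∈ S†.domain := LinearPMap.mem_adjoint_domain_of_exists y ⟨w, h1⟩
    have := LinearPMap.adjoint_apply_eq hS ⟨y, hy⟩ h1
    rw [← this]
    exact S†.mem_graph ⟨y, hy⟩

theorem mem_graph_of_adj [CompleteSpace H₁] {S : H₀ →ₗ.[𝕜] H₁} (hS : Dense (S.domain : Set H₀))
    (hc : S.IsClosed) {x : H₀} {y : H₁}
    (h : ∀ b w, (b, w) ∈ S†.graph → ⟪y, b⟫_𝕜 = ⟪x, w⟫_𝕜) : (x, y) ∈ S.graph := by
  let e := WithLp.prodContinuousLinearEquiv 2 𝕜 H₀ H₁
  let Γ : Submodule 𝕜 (WithLp 2 (H₀ × H₁)) := S.graph.comap (e : WithLp 2 (H₀ × H₁) →ₗ[𝕜] H₀ × H₁)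
  have hΓ : IsClosed (Γ : Set (WithLp 2 (H₀ × H₁))) := hc.preimage e.continuous
  haveI : CompleteSpace Γ := hΓ.completeSpace_coe
  have h1 : WithLp.toLp 2 (x, y) ∈ Γᗮᗮ := by
    rw [Submodule.mem_orthogonal]
    intro p hp
    have hp' : (p.snd, -p.fst) ∈ S†.graph := by
      rw [mem_graph_adjoint hS]
      intro x' a hxa
      have := (Submodule.mem_orthogonal' _ _).1 hp (WithLp.toLp 2 (x', a)) hxa
      rw [WithLp.prod_inner_apply] at this
      simp only [WithLp.ofLp_fst, WithLp.ofLp_snd, WithLp.toLp_fst, WithLp.toLp_snd] at this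
      rw [inner_neg_left]
      linear_combination -this
    have h2 := h _ _ hp'
    rw [WithLp.prod_inner_apply]
    simp only [WithLp.ofLp_fst, WithLp.ofLp_snd, WithLp.toLp_fst, WithLp.toLp_snd]
    rw [← inner_conj_symm p.fst, ← inner_conj_symm p.snd, h2, inner_neg_right, map_neg]
    ring
  rw [Submodule.orthogonal_orthogonal] at h1
  exact h1

end adj

section res

variable {H : Type*} [NormedAddCommGroup H] [InnerProductSpace 𝕜 H] [CompleteSpace H]

/-- `G` is a right inverse of `1 + L` for the nonnegative symmetric operator `L`. -/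
structure HasRes (L : H →ₗ.[𝕜] H) (G : H →L[𝕜] H) : Prop where
  res : ∀ f, (G f, f - G f) ∈ L.graph
  symm : ∀ u z v w, (u, z) ∈ L.graph → (v, w) ∈ L.graph → ⟪z, v⟫_𝕜 = ⟪u, w⟫_𝕜
  nonneg : ∀ u z, (u, z) ∈ L.graph → 0 ≤ RCLike.re ⟪z, u⟫_𝕜

variable {L : H →ₗ.[𝕜] H} {G : H →L[𝕜] H}

theorem HasRes.left (h : HasRes L G) {u z : H} (hu : (u, z) ∈ L.graph) : G (u + z) = u := by
  have h1 := graph_sub (h.res (u + z)) hu
  have h2 := h.nonneg _ _ h1
  have h3 : u + z - G (u + z) - z = -(G (u + z) - u) := by abel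
  rw [h3, inner_neg_left, map_neg, inner_self_eq_norm_sq] at h2
  have h4 : ‖G (u + z) - u‖ ^ 2 = 0 := le_antisymm (by linarith) (by positivity)
  rw [← sub_eq_zero, ← norm_eq_zero]
  exact pow_eq_zero_iff (two_ne_zero) |>.1 h4

theorem HasRes.isSymm (h : HasRes L G) : (G : H →ₗ[𝕜] H).IsSymmetric := by
  intro f g
  have h1 := h.symm _ _ _ _ (h.res f) (h.res g)
  simp only [ContinuousLinearMap.coe_coe]
  rw [inner_sub_left, inner_sub_right] at h1
  linear_combination -h1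

theorem HasRes.dense (h : HasRes L G) : Dense (L.domain : Set H) := by
  rw [Submodule.dense_iff_topologicalClosure_eq_top, Submodule.topologicalClosure_eq_top_iff,
    Submodule.eq_bot_iff]
  intro y hy
  have h1 : ∀ f, ⟪G f, y⟫_𝕜 = 0 := fun f =>
    (Submodule.mem_orthogonal _ _).1 hy _ (LinearPMap.mem_domain_of_mem_graph (h.res f))
  have h2 : G y = 0 := by
    have := h1 (G y)
    have h3 := h.isSymm (G y) y
    simp only [ContinuousLinearMap.coe_coe] at h3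
    rw [h3, inner_self_eq_zero] at this
    exact this
  have h3 := h.res y
  rw [h2, sub_zero] at h3
  exact graph_uniq h3 L.graph.zero_mem

theorem HasRes.selfAdjoint (h : HasRes L G) : IsSelfAdjoint L := by
  rw [LinearPMap.isSelfAdjoint_def]
  apply LinearPMap.eq_of_eq_graph
  ext ⟨y, w⟩
  rw [mem_graph_adjoint h.dense]
  constructor
  · intro h1
    have h2 : G (y + w) = y := by
      apply ext_inner_right 𝕜
      intro f
      have h3 := h1 _ _ (h.res f)
      have h4 := h.isSymm (y + w) f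
      simp only [ContinuousLinearMap.coe_coe] at h4
      rw [h4, inner_add_left, h3, inner_sub_right]
      ring
    have h5 := h.res (y + w)
    rw [h2, add_sub_cancel_left] at h5
    exact h5
  · intro h1 x a hxa
    exact h.symm _ _ _ _ h1 hxa

theorem mem_eigenspaceP {z : 𝕜} {u : H} : u ∈ eigenspaceP L z ↔ (u, z • u) ∈ L.graph := by
  constructor
  · rintro ⟨x, hx, rfl⟩
    have h1 : L x - z • (x : H) = 0 := hx
    rw [sub_eq_zero] at h1
    have := L.mem_graph x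
    rw [h1] at this
    exact this
  · intro h1
    obtain ⟨hu, h2⟩ := graph_apply h1
    refine ⟨⟨u, hu⟩, ?_, rfl⟩
    show L ⟨u, hu⟩ - z • u = 0
    rw [h2, sub_self]

theorem HasRes.eigen_eq (h : HasRes L G) {z : 𝕜} (hz : 1 + z ≠ 0) :
    eigenspaceP L z = Module.End.eigenspace (G : H →ₗ[𝕜] H) (1 + z)⁻¹ := by
  ext u
  rw [mem_eigenspaceP, Module.End.mem_eigenspace_iff]
  simp only [ContinuousLinearMap.coe_coe]
  constructor
  · intro h1
    have h2 := h.left h1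
    have h3 : u + z • u = (1 + z) • u := by rw [add_smul, one_smul]
    rw [h3, map_smul] at h2
    calc G u = (1 + z)⁻¹ • (1 + z) • G u := by rw [smul_smul, inv_mul_cancel₀ hz, one_smul]
      _ = _ := by rw [h2]
  · intro h1
    have h2 := h.res ((1 + z) • u)
    rw [map_smul, h1, smul_smul, mul_inv_cancel₀ hz, one_smul, add_smul, one_smul,
      add_sub_cancel_left] at h2
    exact h2

theorem HasRes.mem_resolvent (h : HasRes L G) {z : 𝕜}
    (hz : 1 + z = 0 ∨ (1 + z ≠ 0 ∧ (1 + z)⁻¹ ∈ resolventSet 𝕜 G)) : z ∈ resolventSetP L := by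
  rcases hz with hz | ⟨hz, hr⟩
  · have hz' : z = -1 := by linear_combination hz
    subst hz'
    refine ⟨G, fun f => ?_, fun u => ?_⟩
    · obtain ⟨hf, h1⟩ := graph_apply (h.res f)
      exact ⟨hf, by rw [h1]; simp⟩
    · have := h.left (L.mem_graph u)
      rw [neg_smul, one_smul, sub_neg_eq_add, add_comm]
      exact this
  · rw [spectrum.mem_resolventSet_iff] at hr
    obtain ⟨U, hU⟩ := hr
    set μ := (1 + z)⁻¹ with hμ
    have hU' : ∀ x, (U : H →L[𝕜] H) x = μ • x - G x := by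
      intro x
      rw [hU]
      simp [Algebra.algebraMap_eq_smul_one]
    have h1 : ∀ x, (U : H →L[𝕜] H) ((↑U⁻¹ : H →L[𝕜] H) x) = x := by
      intro x
      rw [← ContinuousLinearMap.mul_apply, U.mul_inv]
      rfl
    have h2 : ∀ x, (↑U⁻¹ : H →L[𝕜] H) ((U : H →L[𝕜] H) x) = x := by
      intro x
      rw [← ContinuousLinearMap.mul_apply, U.inv_mul]
      rfl
    refine ⟨μ • (G ∘L (↑U⁻¹ : H →L[𝕜] H)), fun f => ?_, fun u => ?_⟩
    · have h3 := graph_smul μ (h.res ((↑U⁻¹ : H →L[𝕜] H) f))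
      obtain ⟨hf, h4⟩ := graph_apply h3
      refine ⟨hf, ?_⟩
      erw [h4]
      have h5 := h1 f
      rw [hU'] at h5
      simp only [ContinuousLinearMap.smul_apply, ContinuousLinearMap.comp_apply]
      set y := (↑U⁻¹ : H →L[𝕜] H) f
      rw [← h5, smul_sub, smul_smul, sub_sub, ← add_smul]
      have : μ + z * μ = 1 := by rw [hμ]; field_simp
      rw [this, one_smul]
    · have h3 := h.left (L.mem_graph u)
      have h4 : L u - z • (u : H) = (1 + z) • (U : H →L[𝕜] H) ((u : H) + L u) := by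
        rw [hU', h3, smul_sub, smul_smul, hμ, mul_inv_cancel₀ hz, one_smul, add_smul, one_smul]
        abel
      simp only [ContinuousLinearMap.smul_apply, ContinuousLinearMap.comp_apply]
      rw [h4, map_smul, h2, map_smul, h3, smul_smul, hμ, inv_mul_cancel₀ hz, one_smul]

theorem finite_eigenvalues (hG : IsCompactOperator G) (hs : (G : H →ₗ[𝕜] H).IsSymmetric)
    {c : ℝ} (hc : 0 < c) :
    {μ : 𝕜 | Module.End.HasEigenvalue (G : H →ₗ[𝕜] H) μ ∧ c ≤ ‖μ‖}.Finite := by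
  by_contra hinf
  have hinf' : {μ : 𝕜 | Module.End.HasEigenvalue (G : H →ₗ[𝕜] H) μ ∧ c ≤ ‖μ‖}.Infinite := hinf
  let m := hinf'.natEmbedding
  have hx : ∀ n, ∃ x : H, ‖x‖ = 1 ∧ x ∈ Module.End.eigenspace (G : H →ₗ[𝕜] H) (m n : 𝕜) := by
    intro n
    obtain ⟨x, hx1, hx2⟩ := (m n).2.1.exists_hasEigenvector
    refine ⟨((‖x‖⁻¹ : ℝ) : 𝕜) • x, ?_, Submodule.smul_mem _ _ hx1⟩
    rw [norm_smul, RCLike.norm_ofReal, abs_inv, abs_norm, inv_mul_cancel₀ (norm_ne_zero_iff.2 hx2)]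
  choose x hx1 hx2 using hx
  have horth : ∀ n k, n ≠ k → ⟪x n, x k⟫_𝕜 = 0 := by
    intro n k hnk
    have hne : (m n : 𝕜) ≠ m k := fun h => hnk (m.injective (Subtype.ext h))
    exact hs.orthogonalFamily_eigenspaces hne ⟨x n, hx2 n⟩ ⟨x k, hx2 k⟩
  have hGx : ∀ n, G (x n) = (m n : 𝕜) • x n := fun n =>
    Module.End.mem_eigenspace_iff.1 (hx2 n)
  have hsep : ∀ n k, n ≠ k → c ≤ dist (G (x n)) (G (x k)) := by
    intro n k hnk
    rw [dist_eq_norm, hGx, hGx]
    have h1 : ⟪x n, (m n : 𝕜) • x n - (m k : 𝕜) • x k⟫_𝕜 = m n := by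
      rw [inner_sub_right, inner_smul_right, inner_smul_right, horth n k hnk,
        inner_self_eq_norm_sq_to_K, hx1]
      simp
    have h2 := norm_inner_le_norm (𝕜 := 𝕜) (x n) ((m n : 𝕜) • x n - (m k : 𝕜) • x k)
    rw [h1, hx1, one_mul] at h2
    exact (m n).2.2.trans h2
  have hK := (isCompactOperator_iff_isCompact_closure_image_ball (G : H →ₗ[𝕜] H)
    (r := 2) two_pos).1 hG
  obtain ⟨a, -, φ, hφ, hlim⟩ := hK.tendsto_subseq (x := fun n => G (x n))
    (fun n => subset_closure ⟨x n, by simp [hx1], rfl⟩)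
  have hcau := hlim.cauchySeq
  rw [Metric.cauchySeq_iff'] at hcau
  obtain ⟨N, hN⟩ := hcau c hc
  have h1 := hN (N + 1) (by omega)
  have h2 := hsep (φ (N + 1)) (φ N) (hφ.injective.ne (by omega))
  simp only [Function.comp] at h1
  linarith

theorem HasRes.discrete (h : HasRes L G) (hG : IsCompactOperator G) : HasDiscreteSpectrum L := by
  have key : ∀ z ∈ spectrumP L, 1 + z ≠ 0 ∧
      Module.End.HasEigenvalue (G : H →ₗ[𝕜] H) (1 + z)⁻¹ := by
    intro z hz
    have hz1 : 1 + z ≠ 0 := fun h0 => hz (h.mem_resolvent (Or.inl h0))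
    refine ⟨hz1, ?_⟩
    rcases hG.hasEigenvalue_or_mem_resolventSet (inv_ne_zero hz1) with h1 | h1
    · exact h1
    · exact absurd (h.mem_resolvent (Or.inr ⟨hz1, h1⟩)) hz
  refine ⟨h.selfAdjoint, fun z hz => ?_⟩
  obtain ⟨hz1, hz2⟩ := key z hz
  refine ⟨?_, ?_, ?_⟩
  · rw [h.eigen_eq hz1]
    exact hz2
  · rw [h.eigen_eq hz1]
    exact ContinuousLinearMap.finite_dimensional_eigenspace hG _ (inv_ne_zero hz1)
  · have hpos : 0 < (‖z‖ + 2)⁻¹ := by positivity
    have hfin := finite_eigenvalues hG h.isSymm hpos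
    have hfin2 : (spectrumP L ∩ Metric.ball z 1).Finite := by
      refine Set.Finite.of_finite_image (f := fun w : 𝕜 => (1 + w)⁻¹) (hfin.subset ?_) ?_
      · rintro _ ⟨w, ⟨hw1, hw2⟩, rfl⟩
        obtain ⟨hw3, hw4⟩ := key w hw1
        refine ⟨hw4, ?_⟩
        rw [norm_inv]
        apply inv_anti₀ (norm_pos_iff.2 hw3)
        rw [Metric.mem_ball, dist_eq_norm] at hw2
        calc ‖1 + w‖ = ‖1 + z + (w - z)‖ := by congr 1; ring
          _ ≤ ‖(1 : 𝕜)‖ + ‖z‖ + ‖w - z‖ := norm_add₃_le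
          _ ≤ ‖z‖ + 2 := by rw [norm_one]; linarith
      · intro a _ b _ hab
        simpa using hab
    have hcl : IsClosed ((spectrumP L ∩ Metric.ball z 1) \ {z}) := (hfin2.diff).isClosed
    have h1 : ((spectrumP L ∩ Metric.ball z 1) \ {z})ᶜ ∈ 𝓝 z :=
      hcl.isOpen_compl.mem_nhds (by simp)
    filter_upwards [nhdsWithin_le_nhds h1, nhdsWithin_le_nhds (Metric.ball_mem_nhds z one_pos),
      self_mem_nhdsWithin] with w hw1 hw2 hw3 hw4
    exact hw1 ⟨⟨hw4, hw2⟩, hw3⟩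

theorem HasRes.closedRange (h : HasRes L G) (hG : IsCompactOperator G) :
    IsClosed (Set.range L) := by
  set N := Module.End.eigenspace (G : H →ₗ[𝕜] H) (1 : 𝕜) with hN
  have hinv : ∀ x ∈ Nᗮ, G x ∈ Nᗮ := fun x hx =>
    h.isSymm.invariant_orthogonalComplement_eigenspace 1 x hx
  have heq : Set.range L = (Nᗮ : Submodule 𝕜 H) := by
    ext f
    constructor
    · rintro ⟨u, rfl⟩
      refine (Submodule.mem_orthogonal _ _).2 fun x hx => ?_
      have hx' : G x = x := by simpa using Module.End.mem_eigenspace_iff.1 hx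
      have h1 := h.res x
      rw [hx', sub_self] at h1
      have := h.symm _ _ _ _ h1 (L.mem_graph u)
      rw [← this, inner_zero_left]
    · intro hf
      let G' : Nᗮ →L[𝕜] Nᗮ := G.restrict hinv
      have hG' : IsCompactOperator G' := hG.restrict' hinv
      rcases hG'.hasEigenvalue_or_mem_resolventSet (μ := 1) one_ne_zero with h1 | h1
      · exfalso
        obtain ⟨x, hx1, hx2⟩ := h1.exists_hasEigenvector
        have h2 : G (x : H) = x := by
          have := Module.End.mem_eigenspace_iff.1 hx1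
          rw [one_smul] at this
          exact congrArg Subtype.val this
        have h3 : (x : H) ∈ N := Module.End.mem_eigenspace_iff.2 (by simpa using h2)
        have h4 := (Submodule.mem_orthogonal _ _).1 x.2 _ h3
        rw [inner_self_eq_zero] at h4
        exact hx2 (Subtype.ext h4)
      · rw [spectrum.mem_resolventSet_iff] at h1
        obtain ⟨U, hU⟩ := h1
        have h2 : (U : Nᗮ →L[𝕜] Nᗮ) ((↑U⁻¹ : Nᗮ →L[𝕜] Nᗮ) ⟨f, hf⟩) = ⟨f, hf⟩ := by
          rw [← ContinuousLinearMap.mul_apply, U.mul_inv]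
          rfl
        set y := (↑U⁻¹ : Nᗮ →L[𝕜] Nᗮ) ⟨f, hf⟩
        rw [hU] at h2
        have h3 : (y : H) - G y = f := by
          have := congrArg Subtype.val h2
          have h6 : ((G' y : Nᗮ) : H) = G y := rfl
          simpa [Algebra.algebraMap_eq_smul_one, h6] using this
        obtain ⟨h4, h5⟩ := graph_apply (h.res y)
        exact ⟨⟨_, h4⟩, by rw [h5, h3]⟩
  rw [heq]
  exact Submodule.isClosed_orthogonal N

end res

end Pool.Agent.H188Z
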