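import Pool.Agent.H188Z.Abs1

set_option autoImplicit false

open Topology Filter
open scoped LinearPMap InnerProductSpace

noncomputable section

namespace Pool.Agent.H188Z

variable {𝕜 : Type*} [RCLike 𝕜]

/-- A compactness criterion. -/
theorem isCompactOperator_of_approx {V H : Type*} [NormedAddCommGroup V] [NormedSpace 𝕜 V]
    [NormedAddCommGroup H] [NormedSpace 𝕜 H] [CompleteSpace H] (j : V →L[𝕜] H)
    (h : ∀ η : ℝ, 0 < η → ∃ (s : V → ℝ), (∀ x, ‖x‖ ≤ 2 → ‖j x‖ ^ 2 ≤ η + s x) ∧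
      ∀ δ : ℝ, 0 < δ → ∃ (β : Type) (_ : Fintype β) (F : V → β),
        ∀ x y, ‖x‖ < 1 → ‖y‖ < 1 → F x = F y → s (x - y) ≤ δ) :
    IsCompactOperator j := by
  rw [show (j : V → H) = (j : V →ₗ[𝕜] H) from rfl,
    isCompactOperator_iff_isCompact_closure_image_ball (j : V →ₗ[𝕜] H) (r := 1) one_pos]
  refine TotallyBounded.isCompact_of_isClosed (TotallyBounded.closure ?_) isClosed_closure
  rw [Metric.totallyBounded_iff]
  intro ε hε
  obtain ⟨s, hs1, hs2⟩ := h (ε ^ 2 / 4) (by positivity)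
  obtain ⟨β, _, F, hF⟩ := hs2 (ε ^ 2 / 4) (by positivity)
  classical
  let pick : β → V := fun b => if hb : ∃ x, ‖x‖ < 1 ∧ F x = b then hb.choose else 0
  refine ⟨Set.range fun b => j (pick b), Set.finite_range _, ?_⟩
  rintro _ ⟨x, hx, rfl⟩
  rw [mem_ball_zero_iff] at hx
  have hb : ∃ y, ‖y‖ < 1 ∧ F y = F x := ⟨x, hx, rfl⟩
  have h1 : pick (F x) = hb.choose := dif_pos hb
  obtain ⟨h2, h3⟩ := hb.choose_spec
  rw [← h1] at h2 h3
  simp only [Set.mem_iUnion]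
  refine ⟨j (pick (F x)), ⟨F x, rfl⟩, ?_⟩
  rw [Metric.mem_ball, dist_eq_norm]
  have h4 := hF x _ hx h2 h3.symm
  have h5 := hs1 (x - pick (F x)) ((norm_sub_le _ _).trans (by linarith))
  rw [map_sub] at h5
  have h6 : ‖j x - j (pick (F x))‖ ^ 2 < ε ^ 2 := by nlinarith [sq_pos_of_pos hε]
  exact lt_of_pow_lt_pow_left₀ 2 hε.le h6

theorem discretize {V H : Type*} [NormedAddCommGroup V] [NormedSpace 𝕜 V]
    [NormedAddCommGroup H] [NormedSpace 𝕜 H] (K : V →L[𝕜] H) (hK : IsCompactOperator K)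
    {δ : ℝ} (hδ : 0 < δ) : ∃ (β : Type) (_ : Fintype β) (F : V → β),
        ∀ x y, ‖x‖ < 1 → ‖y‖ < 1 → F x = F y → ‖K (x - y)‖ ≤ δ := by
  have h1 := (isCompactOperator_iff_isCompact_closure_image_ball (K : V →ₗ[𝕜] H)
    (r := 1) one_pos).1 hK
  have h2 := h1.totallyBounded.subset subset_closure
  rw [Metric.totallyBounded_iff] at h2
  obtain ⟨t, ht, hcov⟩ := h2 (δ / 2) (by positivity)
  obtain ⟨n, c, hc⟩ := ht.fin_param
  classical
  have h3 : ∀ x : V, ‖x‖ < 1 → ∃ i : Fin n, dist (K x) (c i) < δ / 2 := by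
    intro x hx
    have := hcov ⟨x, mem_ball_zero_iff.2 hx, rfl⟩
    simp only [Set.mem_iUnion] at this
    obtain ⟨y, hy, hy'⟩ := this
    rw [← hc.2] at hy
    obtain ⟨i, rfl⟩ := hy
    exact ⟨i, hy'⟩
  refine ⟨Option (Fin n), inferInstance,
    fun x => if hx : ‖x‖ < 1 then some (h3 x hx).choose else none, fun x y hx hy hxy => ?_⟩
  simp only [dif_pos hx, dif_pos hy, Option.some.injEq] at hxy
  have h4 := (h3 x hx).choose_spec
  have h5 := (h3 y hy).choose_spec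
  rw [← hxy] at h5
  rw [map_sub, ← dist_eq_norm]
  have := dist_triangle_right (K x) (K y) (c (h3 x hx).choose)
  linarith

theorem exists_adj {V H : Type*} [NormedAddCommGroup V] [InnerProductSpace 𝕜 V] [CompleteSpace V]
    [NormedAddCommGroup H] [InnerProductSpace 𝕜 H] [CompleteSpace H] (j : V →L[𝕜] H) :
    ∃ J : H →L[𝕜] V, ∀ f q, ⟪J f, q⟫_𝕜 = ⟪f, j q⟫_𝕜 :=
  ⟨ContinuousLinearMap.adjoint j, fun f q => ContinuousLinearMap.adjoint_inner_left j q f⟩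

variable {H₀ H₁ H₂ : Type*}
  [NormedAddCommGroup H₀] [InnerProductSpace 𝕜 H₀] [CompleteSpace H₀]
  [NormedAddCommGroup H₁] [InnerProductSpace 𝕜 H₁] [CompleteSpace H₁]
  [NormedAddCommGroup H₂] [InnerProductSpace 𝕜 H₂] [CompleteSpace H₂]

/-- A three-term complex of closed densely defined operators. -/
structure IsCx (S : H₀ →ₗ.[𝕜] H₁) (T : H₁ →ₗ.[𝕜] H₂) : Prop where
  dS : Dense (S.domain : Set H₀)
  cS : S.IsClosed
  dT : Dense (T.domain : Set H₁)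
  cT : T.IsClosed
  sq : ∀ x y, (x, y) ∈ S.graph → (y, 0) ∈ T.graph

variable {S : H₀ →ₗ.[𝕜] H₁} {T : H₁ →ₗ.[𝕜] H₂}

theorem mem_graph_lap {u z : H₁} : (u, z) ∈ (lap S T).graph ↔
    ∃ a b z₁ z₂, (u, b) ∈ S†.graph ∧ (b, z₁) ∈ S.graph ∧ (u, a) ∈ T.graph ∧
      (a, z₂) ∈ T†.graph ∧ z = z₁ + z₂ := by
  rw [lap, mem_graph_add]
  simp only [mem_graph_pcomp]
  constructor
  · rintro ⟨z₁, z₂, ⟨b, h1, h2⟩, ⟨a, h3, h4⟩, h5⟩
    exact ⟨a, b, z₁, z₂, h1, h2, h3, h4, h5⟩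
  · rintro ⟨a, b, z₁, z₂, h1, h2, h3, h4, h5⟩
    exact ⟨z₁, z₂, ⟨b, h1, h2⟩, ⟨a, h3, h4⟩, h5⟩

theorem IsCx.form (h : IsCx S T) {u z : H₁} (hu : (u, z) ∈ (lap S T).graph) :
    ∃ a b, (u, a) ∈ T.graph ∧ (u, b) ∈ S†.graph ∧ ∀ v a' b', (v, a') ∈ T.graph →
      (v, b') ∈ S†.graph → ⟪z, v⟫_𝕜 = ⟪a, a'⟫_𝕜 + ⟪b, b'⟫_𝕜 := by
  obtain ⟨a, b, z₁, z₂, h1, h2, h3, h4, rfl⟩ := mem_graph_lap.1 hu
  refine ⟨a, b, h3, h1, fun v a' b' hv1 hv2 => ?_⟩
  have h5 := (mem_graph_adjoint h.dT).1 h4 _ _ hv1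
  have h6 := (mem_graph_adjoint h.dS).1 hv2 _ _ h2
  rw [inner_add_left, h5, ← inner_conj_symm z₁, ← h6, inner_conj_symm, add_comm]

theorem IsCx.ker_iff (h : IsCx S T) {u : H₁} :
    (u, 0) ∈ (lap S T).graph ↔ (u, 0) ∈ T.graph ∧ (u, 0) ∈ S†.graph := by
  constructor
  · intro hu
    obtain ⟨a, b, h1, h2, h3⟩ := h.form hu
    have h4 := h3 u a b h1 h2
    rw [inner_zero_left, inner_self_eq_norm_sq_to_K, inner_self_eq_norm_sq_to_K] at h4
    have h5 : (0 : ℝ) = ‖a‖ ^ 2 + ‖b‖ ^ 2 := by exact_mod_cast h4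
    have ha : a = 0 := by
      rw [← norm_eq_zero]
      exact pow_eq_zero_iff two_ne_zero |>.1 (by nlinarith [sq_nonneg ‖a‖, sq_nonneg ‖b‖])
    have hb : b = 0 := by
      rw [← norm_eq_zero]
      exact pow_eq_zero_iff two_ne_zero |>.1 (by nlinarith [sq_nonneg ‖a‖, sq_nonneg ‖b‖])
    rw [ha] at h1
    rw [hb] at h2
    exact ⟨h1, h2⟩
  · rintro ⟨h1, h2⟩
    exact mem_graph_lap.2 ⟨0, 0, 0, 0, h2, S.graph.zero_mem, h1, T†.graph.zero_mem, by simp⟩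

variable (S T) in
/-- The form domain, as a closed subspace of a product Hilbert space. -/
def formSpace : Submodule 𝕜 (WithLp 2 (H₁ × WithLp 2 (H₂ × H₀))) where
  carrier := {p | (p.fst, p.snd.fst) ∈ T.graph ∧ (p.fst, p.snd.snd) ∈ S†.graph}
  add_mem' := fun hp hq => ⟨graph_add hp.1 hq.1, graph_add hp.2 hq.2⟩
  zero_mem' := ⟨T.graph.zero_mem, S†.graph.zero_mem⟩
  smul_mem' := fun c _ hp => ⟨graph_smul c hp.1, graph_smul c hp.2⟩

theorem IsCx.complete (h : IsCx S T) : CompleteSpace (formSpace S T) := by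
  refine IsClosed.completeSpace_coe (hs := ?_)
  have h1 : IsClosed (T.graph : Set (H₁ × H₂)) := h.cT
  have h2 : IsClosed (S†.graph : Set (H₁ × H₀)) := LinearPMap.adjoint_isClosed h.dS
  refine IsClosed.inter (h1.preimage (f := fun p : WithLp 2 (H₁ × WithLp 2 (H₂ × H₀)) =>
    (p.fst, p.snd.fst)) (by fun_prop)) (h2.preimage (f := fun p :
      WithLp 2 (H₁ × WithLp 2 (H₂ × H₀)) => (p.fst, p.snd.snd)) (by fun_prop))

variable (S T) in
def jmap : formSpace S T →L[𝕜] H₁ :=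
  WithLp.fstL 2 𝕜 H₁ (WithLp 2 (H₂ × H₀)) ∘L (formSpace S T).subtypeL

variable (S T) in
def amap : formSpace S T →L[𝕜] H₂ :=
  WithLp.fstL 2 𝕜 H₂ H₀ ∘L WithLp.sndL 2 𝕜 H₁ (WithLp 2 (H₂ × H₀)) ∘L (formSpace S T).subtypeL

theorem jmap_apply (p : formSpace S T) : jmap S T p = p.1.fst := rfl

theorem amap_apply (p : formSpace S T) : amap S T p = p.1.snd.fst := rfl

theorem IsCx.exists_res (h : IsCx S T) : ∃ G : H₁ →L[𝕜] H₁, HasRes (lap S T) G ∧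
    (IsCompactOperator (jmap S T) → IsCompactOperator G) := by
  have := h.complete
  obtain ⟨J, hJ⟩ := exists_adj (𝕜 := 𝕜) (V := formSpace S T) (H := H₁) (jmap S T)
  refine ⟨jmap S T ∘L J, ⟨fun f => ?_, ?_, ?_⟩,
    fun hj => hj.comp_clm _⟩
  · obtain ⟨p, hp⟩ : ∃ p, p = J f := ⟨_, rfl⟩
    obtain ⟨u, hu⟩ : ∃ u, u = p.1.fst := ⟨_, rfl⟩
    obtain ⟨a, ha⟩ : ∃ a, a = p.1.snd.fst := ⟨_, rfl⟩
    obtain ⟨b, hb⟩ : ∃ b, b = p.1.snd.snd := ⟨_, rfl⟩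
    have hua : (u, a) ∈ T.graph := by rw [hu, ha]; exact p.2.1
    have hub : (u, b) ∈ S†.graph := by rw [hu, hb]; exact p.2.2
    have key : ∀ v a' b', (v, a') ∈ T.graph → (v, b') ∈ S†.graph →
        ⟪a, a'⟫_𝕜 + ⟪b, b'⟫_𝕜 = ⟪f - u, v⟫_𝕜 := by
      intro v a' b' h1 h2
      let q : formSpace S T := ⟨WithLp.toLp 2 (v, WithLp.toLp 2 (a', b')), h1, h2⟩
      have h3 := hJ f q
      rw [← hp, Submodule.coe_inner, WithLp.prod_inner_apply, WithLp.prod_inner_apply] at h3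
      have h4 : ⟪u, v⟫_𝕜 + (⟪a, a'⟫_𝕜 + ⟪b, b'⟫_𝕜) = ⟪f, v⟫_𝕜 := by
        rw [hu, ha, hb]; exact h3
      rw [inner_sub_left]
      linear_combination h4
    let R : Submodule 𝕜 H₁ := S.graph.map (LinearMap.snd 𝕜 H₀ H₁)
    have hN : ∀ y ∈ Rᗮ, (y, 0) ∈ S†.graph := by
      intro y hy
      rw [mem_graph_adjoint h.dS]
      intro x c hxc
      rw [inner_zero_left]
      exact ((Submodule.mem_orthogonal' _ _).1 hy c ⟨(x, c), hxc, rfl⟩).symm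
    have hN' : ∀ y ∈ Rᗮᗮ, (y, 0) ∈ T.graph := by
      intro y hy
      rw [Submodule.orthogonal_orthogonal_eq_closure] at hy
      have h1 : IsClosed {y : H₁ | (y, (0 : H₂)) ∈ T.graph} :=
        IsClosed.preimage (f := fun y : H₁ => (y, (0 : H₂))) (by fun_prop) h.cT
      refine closure_minimal (s := (R : Set H₁)) ?_ h1 hy
      rintro _ ⟨⟨x, c⟩, hxc, rfl⟩
      exact h.sq _ _ hxc
    let P := Rᗮ.starProjection
    have hP1 : ∀ v, P v ∈ Rᗮ := fun v => Submodule.starProjection_apply_mem _ v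
    have hP2 : ∀ v, v - P v ∈ Rᗮᗮ := fun v => Submodule.sub_starProjection_mem_orthogonal v
    have hP3 : ∀ v w, ⟪P v, w⟫_𝕜 = ⟪v, P w⟫_𝕜 := fun v w =>
      Submodule.inner_starProjection_left_eq_right _ v w
    rw [ContinuousLinearMap.comp_apply, ← hp, jmap_apply, ← hu]
    refine mem_graph_lap.2 ⟨a, b, (f - u) - P (f - u), P (f - u), hub, ?_, hua, ?_, by abel⟩
    · refine mem_graph_of_adj h.dS h.cS fun w c hwc => ?_
      have h1 := graph_sub hwc (hN _ (hP1 w))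
      rw [sub_zero] at h1
      have h2 := key _ _ _ (hN' _ (hP2 w)) h1
      rw [inner_zero_right, zero_add] at h2
      rw [h2, inner_sub_left (f - u), inner_sub_right, hP3]
    · rw [mem_graph_adjoint h.dT]
      intro v c hvc
      have h1 := graph_sub hvc (hN' _ (hP2 v))
      rw [sub_zero, sub_sub_cancel] at h1
      have h2 := key _ _ _ h1 (hN _ (hP1 v))
      rw [inner_zero_right, add_zero] at h2
      rw [h2, hP3]
  · intro u z v w hu hv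
    obtain ⟨a, b, h1, h2, h3⟩ := h.form hu
    obtain ⟨a', b', h1', h2', h3'⟩ := h.form hv
    rw [h3 v a' b' h1' h2', ← inner_conj_symm u w, h3' u a b h1 h2, map_add, inner_conj_symm,
      inner_conj_symm]
  · intro u z hu
    obtain ⟨a, b, h1, h2, h3⟩ := h.form hu
    rw [h3 u a b h1 h2, map_add, inner_self_eq_norm_sq, inner_self_eq_norm_sq]
    positivity

variable (S T) in
/-- Approximate homotopy formulas with a compact remainder. -/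
def HasHomotopy : Prop :=
  ∀ η : ℝ, 0 < η → ∃ (A₀ K₀ : H₁ →L[𝕜] H₀) (A₁ K₁ : H₂ →L[𝕜] H₁) (P : H₁ →L[𝕜] H₁),
    ‖A₀‖ ≤ η ∧ ‖A₁‖ ≤ η ∧ IsCompactOperator K₀ ∧ IsCompactOperator K₁ ∧ IsCompactOperator P ∧
    ∀ u f, (u, f) ∈ T.graph → (A₀ u + K₀ u, u - P u - (A₁ f + K₁ f)) ∈ S.graph

theorem IsCx.compact_jmap (h : IsCx S T) (hh : HasHomotopy S T) :
    IsCompactOperator (jmap S T) := by
  refine isCompactOperator_of_approx _ fun η hη => ?_
  obtain ⟨A₀, K₀, A₁, K₁, P, hA₀, hA₁, hK₀, hK₁, hP, hid⟩ := hh (η / 8) (by positivity)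
  refine ⟨fun p => 2 * (‖K₀ (jmap S T p)‖ + ‖K₁ (amap S T p)‖ + ‖P (jmap S T p)‖), ?_, ?_⟩
  · intro p hp
    simp only [jmap_apply, amap_apply]
    set u := p.1.fst
    set a := p.1.snd.fst
    set b := p.1.snd.snd
    have hua : (u, a) ∈ T.graph := p.2.1
    have hub : (u, b) ∈ S†.graph := p.2.2
    have hu : ‖u‖ ≤ 2 := (WithLp.norm_fst_le (p := 2) _ p.1).trans hp
    have hs : ‖p.1.snd‖ ≤ 2 := (WithLp.norm_snd_le (p := 2) _ p.1).trans hp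
    have ha : ‖a‖ ≤ 2 := (WithLp.norm_fst_le (p := 2) _ p.1.snd).trans hs
    have hb : ‖b‖ ≤ 2 := (WithLp.norm_snd_le (p := 2) _ p.1.snd).trans hs
    have h1 := (mem_graph_adjoint h.dS).1 hub _ _ (hid u a hua)
    have h2 : ⟪u, u⟫_𝕜 = ⟪b, A₀ u + K₀ u⟫_𝕜 + ⟪u, P u⟫_𝕜 + ⟪u, A₁ a + K₁ a⟫_𝕜 := by
      rw [h1, inner_sub_right, inner_sub_right]
      ring
    have h3 : ‖u‖ ^ 2 = ‖⟪u, u⟫_𝕜‖ := by
      rw [inner_self_eq_norm_sq_to_K]
      simp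
    have h4 : ‖A₀ u‖ ≤ η / 8 * 2 :=
      (A₀.le_opNorm u).trans (mul_le_mul hA₀ hu (norm_nonneg _) (by positivity))
    have h5 : ‖A₁ a‖ ≤ η / 8 * 2 :=
      (A₁.le_opNorm a).trans (mul_le_mul hA₁ ha (norm_nonneg _) (by positivity))
    have h6 : ‖⟪b, A₀ u + K₀ u⟫_𝕜‖ ≤ 2 * (η / 8 * 2 + ‖K₀ u‖) :=
      (norm_inner_le_norm _ _).trans (mul_le_mul hb ((norm_add_le _ _).trans (by linarith))
        (norm_nonneg _) (by positivity))
    have h7 : ‖⟪u, A₁ a + K₁ a⟫_𝕜‖ ≤ 2 * (η / 8 * 2 + ‖K₁ a‖) :=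
      (norm_inner_le_norm _ _).trans (mul_le_mul hu ((norm_add_le _ _).trans (by linarith))
        (norm_nonneg _) (by positivity))
    have h8 : ‖⟪u, P u⟫_𝕜‖ ≤ 2 * ‖P u‖ :=
      (norm_inner_le_norm _ _).trans (mul_le_mul_of_nonneg_right hu (norm_nonneg _))
    rw [h3, h2]
    refine norm_add₃_le.trans ?_
    linarith
  · intro δ hδ
    obtain ⟨β₁, _, F₁, hF₁⟩ := discretize (K₀ ∘L jmap S T) (hK₀.comp_clm _) (δ := δ / 6)
      (by positivity)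
    obtain ⟨β₂, _, F₂, hF₂⟩ := discretize (K₁ ∘L amap S T) (hK₁.comp_clm _) (δ := δ / 6)
      (by positivity)
    obtain ⟨β₃, _, F₃, hF₃⟩ := discretize (P ∘L jmap S T) (hP.comp_clm _) (δ := δ / 6)
      (by positivity)
    refine ⟨β₁ × β₂ × β₃, inferInstance, fun x => (F₁ x, F₂ x, F₃ x), fun x y hx hy hxy => ?_⟩
    simp only [Prod.mk.injEq] at hxy
    have h1 := hF₁ x y hx hy hxy.1
    have h2 := hF₂ x y hx hy hxy.2.1
    have h3 := hF₃ x y hx hy hxy.2.2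
    simp only [ContinuousLinearMap.comp_apply] at h1 h2 h3
    linarith

theorem IsCx.main (h : IsCx S T) (hh : HasHomotopy S T) :
    HasDiscreteSpectrum (lap S T) ∧ IsClosed (Set.range (lap S T)) := by
  obtain ⟨G, h1, h2⟩ := h.exists_res
  exact ⟨h1.discrete (h2 (h.compact_jmap hh)), h1.closedRange (h2 (h.compact_jmap hh))⟩

theorem lap_zero : lap (0 : H₀ →ₗ.[𝕜] H₁) T = pcomp T† T := by
  apply LinearPMap.eq_of_eq_graph
  ext ⟨u, z⟩
  have hd : Dense (((0 : H₀ →ₗ.[𝕜] H₁).domain : Submodule 𝕜 H₀) : Set H₀) := by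
    rw [LinearPMap.zero_domain]
    exact dense_univ
  have h0 : ∀ x y, (x, y) ∈ (0 : H₀ →ₗ.[𝕜] H₁).graph → y = 0 := by
    intro x y hxy
    obtain ⟨hx, h1⟩ := graph_apply hxy
    exact h1.symm
  rw [mem_graph_lap, mem_graph_pcomp]
  constructor
  · rintro ⟨a, b, z₁, z₂, h1, h2, h3, h4, rfl⟩
    rw [h0 _ _ h2, zero_add]
    exact ⟨a, h3, h4⟩
  · rintro ⟨a, h3, h4⟩
    refine ⟨a, 0, 0, z, ?_, Submodule.zero_mem _, h3, h4, by simp⟩
    rw [mem_graph_adjoint hd]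
    intro x c hxc
    rw [h0 _ _ hxc, inner_zero_left, inner_zero_right]

end Pool.Agent.H188Z
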