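import Pool.Agent.H188Z.OpDefs

/-!
The `L²` de Rham complex of a domain `Ω` in `ℂ² = ℝ⁴`: forms, the weak and the strong maximal
extensions of the exterior derivative, the two Laplacians, and the Hodge theorem.
-/

set_option autoImplicit false

open MeasureTheory Filter Topology
open scoped LinearPMap ContDiff

noncomputable section

namespace Pool.Agent.H188Z.St

/-- The Hartogs triangle `{(z₁, z₂) : |z₁| < |z₂| < 1}`. -/
def hartogs : Set (ℂ × ℂ) := {z | ‖z.1‖ < ‖z.2‖ ∧ ‖z.2‖ < 1}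

/-- The standard orthonormal basis of `ℂ² = ℝ⁴`; real coordinates `Re z₁, Im z₁, Re z₂, Im z₂`. -/
def ebasis : Fin 4 → ℂ × ℂ := ![(1, 0), (Complex.I, 0), (0, 1), (0, Complex.I)]

/-- The multi-index `J` with its `i`-th entry deleted. -/
def face {q : ℕ} (J : Fin (q + 1) ↪o Fin 4) (i : Fin (q + 1)) : Fin q ↪o Fin 4 :=
  (Fin.succAboveOrderEmb i).trans J

variable {𝕜 : Type} [RCLike 𝕜]

/-- A `q`-form `∑ u_I dx_I` is given by its coefficients `u x I` over strictly increasing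
multi-indices `I`. The classical exterior derivative is
`(du)_J = ∑ᵢ (-1)^i ∂_{J i} u_{J without i}`. -/
def dcl {q : ℕ} (u : ℂ × ℂ → (Fin q ↪o Fin 4) → 𝕜) (x : ℂ × ℂ) (J : Fin (q + 1) ↪o Fin 4) : 𝕜 :=
  ∑ i : Fin (q + 1), (-1 : 𝕜) ^ (i : ℕ) * fderiv ℝ (fun y => u y (face J i)) x (ebasis (J i))

variable (𝕜) (Ω : Set (ℂ × ℂ))

/-- The Hilbert space `L²_q(Ω)` of square integrable `q`-forms on `Ω` (Lebesgue measure,
Euclidean inner product of the coefficients). -/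
def L2 (q : ℕ) : Type := Lp (EuclideanSpace 𝕜 (Fin q ↪o Fin 4)) 2 (volume.restrict Ω)

instance normedL2 (q : ℕ) : NormedAddCommGroup (L2 𝕜 Ω q) := Lp.instNormedAddCommGroup

instance innerL2 (q : ℕ) : InnerProductSpace 𝕜 (L2 𝕜 Ω q) := L2.innerProductSpace

instance completeL2 (q : ℕ) : CompleteSpace (L2 𝕜 Ω q) := Lp.instCompleteSpace

variable {𝕜 Ω}

/-- The coefficients of an `L²` form (of its chosen representative). -/
def L2.fn {q : ℕ} (u : L2 𝕜 Ω q) (x : ℂ × ℂ) (I : Fin q ↪o Fin 4) : 𝕜 :=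
  (show Lp (EuclideanSpace 𝕜 (Fin q ↪o Fin 4)) 2 (volume.restrict Ω) from u) x I

/-- `du = f` in the sense of distributions on `Ω`. -/
def IsWeakD {q : ℕ} (u : L2 𝕜 Ω q) (f : L2 𝕜 Ω (q + 1)) : Prop :=
  ∀ φ : ℂ × ℂ → ℝ, ContDiff ℝ ∞ φ → HasCompactSupport φ → tsupport φ ⊆ Ω →
    ∀ J : Fin (q + 1) ↪o Fin 4,
      ∫ x in Ω, (φ x : 𝕜) * f.fn x J =
        -∑ i : Fin (q + 1), (-1 : 𝕜) ^ (i : ℕ) *
          ∫ x in Ω, (fderiv ℝ φ x (ebasis (J i)) : 𝕜) * u.fn x (face J i)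

/-- `u` is a form smooth up to the boundary (the restriction of a smooth form on `ℝ⁴`) and
`f` is its classical exterior derivative. -/
def IsSmoothD {q : ℕ} (u : L2 𝕜 Ω q) (f : L2 𝕜 Ω (q + 1)) : Prop :=
  ∃ v : ℂ × ℂ → (Fin q ↪o Fin 4) → 𝕜, ContDiff ℝ ∞ v ∧
    u.fn =ᵐ[volume.restrict Ω] v ∧ f.fn =ᵐ[volume.restrict Ω] dcl v

/-- `u` and `f` are `L²` limits of `uₙ` and `d uₙ` with `uₙ` smooth up to the boundary. -/
def IsStrongD {q : ℕ} (u : L2 𝕜 Ω q) (f : L2 𝕜 Ω (q + 1)) : Prop :=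
  ∃ (a : ℕ → L2 𝕜 Ω q) (b : ℕ → L2 𝕜 Ω (q + 1)), (∀ n, IsSmoothD (a n) (b n)) ∧
    Tendsto a atTop (𝓝 u) ∧ Tendsto b atTop (𝓝 f)

/-- The operator attached to a relation `R`; when `{(u, f) : R u f}` is the graph of a linear
operator, it is that operator. -/
def opOf {E F : Type} [AddCommGroup E] [Module 𝕜 E] [AddCommGroup F] [Module 𝕜 F]
    (R : E → F → Prop) : E →ₗ.[𝕜] F :=
  (Submodule.span 𝕜 {p : E × F | R p.1 p.2}).toLinearPMap

/-- `R` is exactly the graph of the operator `D`. -/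
def HasGraph {E F : Type} [AddCommGroup E] [Module 𝕜 E] [AddCommGroup F] [Module 𝕜 F]
    (D : E →ₗ.[𝕜] F) (R : E → F → Prop) : Prop :=
  ∀ u f, (u, f) ∈ D.graph ↔ R u f

variable (𝕜 Ω)

/-- The weak maximal extension `d`. -/
def dWeak (q : ℕ) : L2 𝕜 Ω q →ₗ.[𝕜] L2 𝕜 Ω (q + 1) := opOf IsWeakD

/-- The strong maximal extension `d_s`. -/
def dStrong (q : ℕ) : L2 𝕜 Ω q →ₗ.[𝕜] L2 𝕜 Ω (q + 1) := opOf IsStrongD

variable {𝕜 Ω}

/-- The Laplacian `D D* + D* D` in degree `q` of a sequence `D` of operators between Hilbert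
spaces (in degree zero it is `D* D`). -/
def laplacian {H : ℕ → Type} [∀ q, NormedAddCommGroup (H q)] [∀ q, InnerProductSpace 𝕜 (H q)]
    [∀ q, CompleteSpace (H q)] (D : (q : ℕ) → H q →ₗ.[𝕜] H (q + 1)) : (q : ℕ) → H q →ₗ.[𝕜] H q
  | 0 => pcomp (D 0)† (D 0)
  | q + 1 => lap (D q) (D (q + 1))

variable (Ω)

/-- A smooth closed form on `Ω`. -/
def IsClosedForm {q : ℕ} (v : ℂ × ℂ → (Fin q ↪o Fin 4) → 𝕜) : Prop :=
  ContDiffOn ℝ ∞ v Ω ∧ ∀ x ∈ Ω, dcl v x = 0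

/-- An exact form on `Ω`: the derivative of a smooth form on `Ω` (zero in degree zero). -/
def IsExactForm : (q : ℕ) → (ℂ × ℂ → (Fin q ↪o Fin 4) → 𝕜) → Prop
  | 0, v => ∀ x ∈ Ω, v x = 0
  | q + 1, v => ∃ w : ℂ × ℂ → (Fin q ↪o Fin 4) → 𝕜, ContDiffOn ℝ ∞ w Ω ∧ ∀ x ∈ Ω, v x = dcl w x

variable {Ω}

/-- The Hodge theorem in degree `q` for an operator `L` on `L²_q(Ω)`: the range of `L` is closed;
every element of `ker L` is a smooth closed form; and the map sending it to its de Rham class is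
injective and surjective onto smooth closed forms modulo exact forms. -/
def HodgeAt {q : ℕ} (L : L2 𝕜 Ω q →ₗ.[𝕜] L2 𝕜 Ω q) : Prop :=
  IsClosed (Set.range L) ∧
  (∀ h ∈ eigenspaceP L 0, ∃ v, IsClosedForm Ω v ∧ L2.fn h =ᵐ[volume.restrict Ω] v) ∧
  (∀ h ∈ eigenspaceP L 0, ∀ v, IsClosedForm Ω v → L2.fn h =ᵐ[volume.restrict Ω] v →
    IsExactForm Ω q v → h = 0) ∧
  ∀ w, IsClosedForm Ω w → ∃ h ∈ eigenspaceP L 0, ∃ v, IsClosedForm Ω v ∧
    L2.fn h =ᵐ[volume.restrict Ω] v ∧ IsExactForm Ω q (w - v)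

end Pool.Agent.H188Z.St
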