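import Pool.Agent.H188Z.Homot
import Pool.Agent.H188Z.SDefs

/-! Comparison of the two descriptions of the complex. -/

set_option autoImplicit false

open scoped Topology ENNReal ContDiff NNReal
open Set Metric MeasureTheory Filter Complex

noncomputable section

namespace Pool.Agent.H188Z

variable {𝕜 : Type} [RCLike 𝕜] {q : ℕ}

theorem st_weak_iff (u : L2 𝕜 q) (f : L2 𝕜 (q + 1)) :
    St.IsWeakD (Ω := hartogs) u f ↔ IsWeakD u f := Iff.rfl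

theorem st_fn_ae {u : L2 𝕜 q} {v : ℂ × ℂ → (Fin q ↪o Fin 4) → 𝕜} :
    St.L2.fn (Ω := hartogs) u =ᵐ[volume.restrict hartogs] v ↔
      u =ᵐ[volume.restrict hartogs] fun x => WithLp.toLp 2 (v x) := by
  constructor
  · intro h
    filter_upwards [h] with x hx
    rw [← hx]
    rfl
  · intro h
    filter_upwards [h] with x hx
    funext I
    show u x I = _
    rw [hx]

/-- The alternating form with given coefficients. -/
def altOf (v : ℂ × ℂ → (Fin q ↪o Fin 4) → 𝕜) (x : ℂ × ℂ) : Alt 𝕜 q :=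
  (coef 𝕜 q).symm (WithLp.toLp 2 (v x))

theorem coef_altOf (v : ℂ × ℂ → (Fin q ↪o Fin 4) → 𝕜) (x : ℂ × ℂ) :
    coef 𝕜 q (altOf v x) = WithLp.toLp 2 (v x) := (coef 𝕜 q).apply_symm_apply _

theorem contDiff_toLp : ContDiff ℝ ∞ (fun a : (Fin q ↪o Fin 4) → 𝕜 => (WithLp.toLp 2 a : Cov 𝕜 q)) :=
  ((EuclideanSpace.equiv (Fin q ↪o Fin 4) 𝕜).symm.toContinuousLinearMap.restrictScalars ℝ).contDiff

theorem contDiff_ofLp : ContDiff ℝ ∞ (fun a : Cov 𝕜 q => WithLp.ofLp a) :=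
  ((EuclideanSpace.equiv (Fin q ↪o Fin 4) 𝕜).toContinuousLinearMap.restrictScalars ℝ).contDiff

theorem contDiffOn_altOf {v : ℂ × ℂ → (Fin q ↪o Fin 4) → 𝕜} {s : Set (ℂ × ℂ)}
    (hv : ContDiffOn ℝ ∞ v s) : ContDiffOn ℝ ∞ (altOf v) s :=
  (contDiff_coef_symm.comp contDiff_toLp).comp_contDiffOn hv

theorem st_dcl {v : ℂ × ℂ → (Fin q ↪o Fin 4) → 𝕜} {x : ℂ × ℂ}
    (hv : DifferentiableAt ℝ (altOf v) x) :
    WithLp.toLp 2 (St.dcl v x) = coef 𝕜 (q + 1) (extDeriv (altOf v) x) := by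
  rw [← dcl_coef hv]
  simp only [coef_altOf]
  rfl

/-- The coefficients of an alternating form. -/
def cf (w : ℂ × ℂ → Alt 𝕜 q) (x : ℂ × ℂ) : (Fin q ↪o Fin 4) → 𝕜 := WithLp.ofLp (coef 𝕜 q (w x))

theorem altOf_cf (w : ℂ × ℂ → Alt 𝕜 q) : altOf (cf w) = w :=
  funext fun _ => (coef 𝕜 q).symm_apply_apply _

theorem contDiffOn_cf {w : ℂ × ℂ → Alt 𝕜 q} {s : Set (ℂ × ℂ)}
    (hw : ContDiffOn ℝ ∞ w s) : ContDiffOn ℝ ∞ (cf w) s :=
  (contDiff_ofLp.comp contDiff_coef).comp_contDiffOn hw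

theorem st_smooth_iff (u : L2 𝕜 q) (f : L2 𝕜 (q + 1)) :
    St.IsSmoothD (Ω := hartogs) u f ↔
      ∃ w : Sm 𝕜 q, emb 𝕜 q w = u ∧ emb 𝕜 (q + 1) (dSm 𝕜 q w) = f := by
  constructor
  · rintro ⟨v, h1, h2, h3⟩
    have h4 : ContDiff ℝ ∞ (altOf v) := contDiffOn_univ.1 (contDiffOn_altOf h1.contDiffOn)
    refine ⟨⟨altOf v, h4⟩, Lp.ext ?_, Lp.ext ?_⟩
    · filter_upwards [emb_ae (⟨altOf v, h4⟩ : Sm 𝕜 q), st_fn_ae.1 h2] with x h5 h6
      rw [h5, h6, coef_altOf]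
    · filter_upwards [emb_ae (dSm 𝕜 q ⟨altOf v, h4⟩), st_fn_ae.1 h3] with x h5 h6
      rw [h5, h6, st_dcl (h4.differentiable (by simp) x)]
      rfl
  · rintro ⟨w, rfl, rfl⟩
    refine ⟨cf w.1, contDiffOn_univ.1 (contDiffOn_cf (Sm.smooth w).contDiffOn), st_fn_ae.2 (emb_ae w),
      st_fn_ae.2 ?_⟩
    filter_upwards [emb_ae (dSm 𝕜 q w)] with x hx
    rw [hx, st_dcl (by rw [altOf_cf]; exact Sm.diff w x), altOf_cf]
    rfl

theorem st_strong_iff (u : L2 𝕜 q) (f : L2 𝕜 (q + 1)) :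
    St.IsStrongD (Ω := hartogs) u f ↔ IsStrongD u f := by
  rw [isStrongD_iff]
  constructor
  · rintro ⟨a, b, h1, h2, h3⟩
    choose w hw1 hw2 using fun n => (st_smooth_iff (a n) (b n)).1 (h1 n)
    refine ⟨w, ?_, ?_⟩
    · simp only [hw1]
      exact h2
    · simp only [hw2]
      exact h3
  · rintro ⟨w, h1, h2⟩
    exact ⟨_, _, fun n => (st_smooth_iff _ _).2 ⟨w n, rfl, rfl⟩, h1, h2⟩

theorem st_dWeak : St.dWeak 𝕜 hartogs q = dWeak 𝕜 q := rfl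

theorem st_dStrong : St.dStrong 𝕜 hartogs q = dStrong 𝕜 q := by
  have h : (St.IsStrongD (Ω := hartogs) : L2 𝕜 q → L2 𝕜 (q + 1) → Prop) = IsStrongD :=
    funext fun u => funext fun f => propext (st_strong_iff u f)
  exact congrArg (St.opOf (𝕜 := 𝕜)) h

theorem st_graphs (𝕜 : Type) [RCLike 𝕜] (q : ℕ) :
    St.HasGraph (St.dWeak 𝕜 St.hartogs q) St.IsWeakD ∧
      St.HasGraph (St.dStrong 𝕜 St.hartogs q) St.IsStrongD := by
  refine ⟨fun u f => mem_graph_dWeak, fun u f => ?_⟩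
  have h1 := mem_graph_dStrong (u := u) (f := f)
  rw [← st_dStrong] at h1
  exact h1.trans (st_strong_iff u f).symm

theorem st_discrete (𝕜 : Type) [RCLike 𝕜] (q : ℕ) (hq : q = 1 ∨ q = 2 ∨ q = 3) :
    HasDiscreteSpectrum (St.laplacian (St.dWeak 𝕜 St.hartogs) q) ∧
      HasDiscreteSpectrum (St.laplacian (St.dStrong 𝕜 St.hartogs) q) := by
  have h : St.dStrong 𝕜 St.hartogs = dStrong 𝕜 := funext fun _ => st_dStrong
  rw [h]
  rcases hq with rfl | rfl | rfl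
  · exact discrete_succ 𝕜 0
  · exact discrete_succ 𝕜 1
  · exact discrete_succ 𝕜 2

end Pool.Agent.H188Z
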