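import Mathlib

/-! Integrals depending on a parameter; calculus of alternating maps; the homotopy formula. -/

set_option autoImplicit false

open scoped Topology ContDiff
open Set Metric MeasureTheory Filter

noncomputable section

namespace Pool.Agent.H188Z

theorem two_le_infty : (2 : WithTop ℕ∞) ≤ ∞ := by
  rw [show (2 : WithTop ℕ∞) = ((2 : ℕ∞) : WithTop ℕ∞) from rfl]
  exact_mod_cast le_top

theorem add_add_neg_cancel'_right {A : Type*} [AddCommGroup A] (a b : A) : a + (b + -a) = b := by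
  abel

section param

variable {Q E F : Type*} [NormedAddCommGroup Q] [NormedSpace ℝ Q] [MeasurableSpace Q]
  [BorelSpace Q] [SecondCountableTopology Q]
  [NormedAddCommGroup E] [NormedSpace ℝ E] [FiniteDimensional ℝ E]
  [NormedAddCommGroup F] [NormedSpace ℝ F]
  {ν : Measure Q} [IsFiniteMeasureOnCompacts ν] {C : Set Q} {U : Set E}

theorem cont_slice {G : Type*} [TopologicalSpace G] {k : Q × E → G} {W : Set (Q × E)}
    (hk : ContinuousOn k W) (hCW : C ×ˢ U ⊆ W) {y : E} (hy : y ∈ U) :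
    ContinuousOn (fun p => k (p, y)) C :=
  hk.comp (by fun_prop) (fun s hs => hCW ⟨hs, hy⟩)

theorem hasFDerivAt_paramInt (hC : IsCompact C) (hU : IsOpen U) {k : Q × E → F}
    {W : Set (Q × E)} (hW : IsOpen W) (hCW : C ×ˢ U ⊆ W)
    (hk : ContDiffOn ℝ ∞ k W) {y₀ : E} (hy₀ : y₀ ∈ U) :
    HasFDerivAt (fun y => ∫ p in C, k (p, y) ∂ν)
      (∫ p in C, (fderiv ℝ k (p, y₀)).comp (ContinuousLinearMap.inr ℝ Q E) ∂ν) y₀ := by
  obtain ⟨δ, hδ, hδU⟩ := Metric.nhds_basis_closedBall.mem_iff.1 (hU.mem_nhds hy₀)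
  have hcf : ContinuousOn (fderiv ℝ k) W := hk.continuousOn_fderiv_of_isOpen hW (by simp)
  have hcF' : ContinuousOn (fun q : Q × E => (fderiv ℝ k q).comp
      (ContinuousLinearMap.inr ℝ Q E)) W :=
    hcf.clm_comp continuousOn_const
  have hcomp : IsCompact (C ×ˢ closedBall y₀ δ) := hC.prod (isCompact_closedBall _ _)
  obtain ⟨M, hM⟩ := hcomp.exists_bound_of_continuousOn
    (hcF'.mono ((prod_mono subset_rfl hδU).trans hCW))
  have : IsFiniteMeasure (ν.restrict C) := ⟨by simpa using hC.measure_lt_top⟩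
  refine hasFDerivAt_integral_of_dominated_of_fderiv_le
    (F := fun y p => k (p, y))
    (F' := fun y p => (fderiv ℝ k (p, y)).comp (ContinuousLinearMap.inr ℝ Q E))
    (bound := fun _ => M) (closedBall_mem_nhds y₀ hδ) ?_ ?_ ?_ ?_ ?_ ?_
  · filter_upwards [hU.mem_nhds hy₀] with y hy
    exact (cont_slice hk.continuousOn hCW hy).aestronglyMeasurable hC.measurableSet
  · exact (cont_slice hk.continuousOn hCW hy₀).integrableOn_compact hC
  · exact (cont_slice hcF' hCW hy₀).aestronglyMeasurable hC.measurableSet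
  · filter_upwards [ae_restrict_mem hC.measurableSet] with t ht y hy
    exact hM (t, y) ⟨ht, hy⟩
  · exact integrable_const _
  · filter_upwards [ae_restrict_mem hC.measurableSet] with t ht y hy
    have hd : DifferentiableAt ℝ k (t, y) :=
      (hk.contDiffAt (hW.mem_nhds (hCW ⟨ht, hδU hy⟩))).differentiableAt (by simp)
    exact hd.hasFDerivAt.comp y (hasFDerivAt_prodMk_right t y)

theorem clm_fderiv_paramInt [CompleteSpace F] {F' : Type*} [NormedAddCommGroup F']
    [NormedSpace ℝ F'] [CompleteSpace F'] (L : (E →L[ℝ] F) →L[ℝ] F')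
    (hC : IsCompact C) (hU : IsOpen U) {k : Q × E → F}
    {W : Set (Q × E)} (hW : IsOpen W) (hCW : C ×ˢ U ⊆ W)
    (hk : ContDiffOn ℝ ∞ k W) {y₀ : E} (hy₀ : y₀ ∈ U) :
    L (fderiv ℝ (fun y => ∫ p in C, k (p, y) ∂ν) y₀) =
      ∫ p in C, L ((fderiv ℝ k (p, y₀)).comp (ContinuousLinearMap.inr ℝ Q E)) ∂ν ∧
    IntegrableOn (fun p => L ((fderiv ℝ k (p, y₀)).comp (ContinuousLinearMap.inr ℝ Q E))) C ν := by
  have hcf : ContinuousOn (fderiv ℝ k) W := hk.continuousOn_fderiv_of_isOpen hW (by simp)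
  have hint : Integrable (fun p => (fderiv ℝ k (p, y₀)).comp
      (ContinuousLinearMap.inr ℝ Q E)) (ν.restrict C) :=
    (cont_slice (hcf.clm_comp continuousOn_const) hCW hy₀).integrableOn_compact hC
  rw [(hasFDerivAt_paramInt hC hU hW hCW hk hy₀).fderiv, L.integral_comp_comm hint]
  exact ⟨rfl, L.integrable_comp hint⟩

theorem contDiffOn_paramInt_nat [CompleteSpace F] (hC : IsCompact C) (hU : IsOpen U)
    {W : Set (Q × E)} (hW : IsOpen W) (hCW : C ×ˢ U ⊆ W) (n : ℕ) :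
    ∀ k : Q × E → F, ContDiffOn ℝ ∞ k W →
      ContDiffOn ℝ n (fun y => ∫ p in C, k (p, y) ∂ν) U := by
  induction n with
  | zero =>
    intro k hk
    rw [Nat.cast_zero, contDiffOn_zero]
    intro y hy
    exact (hasFDerivAt_paramInt hC hU hW hCW hk hy).continuousAt.continuousWithinAt
  | succ n ih =>
    intro k hk
    have h1 : ContDiffOn ℝ ((n : WithTop ℕ∞) + 1) (fun y => ∫ p in C, k (p, y) ∂ν) U := by
      apply contDiffOn_succ_of_fderiv_apply
      · intro y hy
        exact (hasFDerivAt_paramInt hC hU hW hCW hk hy).differentiableAt.differentiableWithinAt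
      · simp
      · intro v
        have h2 : ContDiffOn ℝ ∞ (fun q : Q × E => fderiv ℝ k q ((0 : Q), v)) W := by
          have := hk.fderiv_of_isOpen hW (m := ∞) (by simp)
          exact this.clm_apply contDiffOn_const
        refine (ih _ h2).congr ?_
        intro y hy
        rw [fderivWithin_of_isOpen hU hy, (hasFDerivAt_paramInt hC hU hW hCW hk hy).fderiv]
        have hcf : ContinuousOn (fderiv ℝ k) W := hk.continuousOn_fderiv_of_isOpen hW (by simp)
        have hint : Integrable (fun p => (fderiv ℝ k (p, y)).comp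
            (ContinuousLinearMap.inr ℝ Q E)) (ν.restrict C) :=
          (cont_slice (hcf.clm_comp continuousOn_const) hCW hy).integrableOn_compact hC
        rw [ContinuousLinearMap.integral_apply hint]
        rfl
    simpa using h1

theorem contDiffOn_paramInt [CompleteSpace F] (hC : IsCompact C) (hU : IsOpen U)
    {W : Set (Q × E)} (hW : IsOpen W) (hCW : C ×ˢ U ⊆ W) {k : Q × E → F}
    (hk : ContDiffOn ℝ ∞ k W) :
    ContDiffOn ℝ ∞ (fun y => ∫ p in C, k (p, y) ∂ν) U :=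
  contDiffOn_infty.2 fun n => contDiffOn_paramInt_nat hC hU hW hCW n k hk

end param

section alt

variable {X E E' F : Type*} [NormedAddCommGroup X] [NormedSpace ℝ X]
  [NormedAddCommGroup E] [NormedSpace ℝ E]
  [NormedAddCommGroup E'] [NormedSpace ℝ E'] [NormedAddCommGroup F] [NormedSpace ℝ F] {n : ℕ}

variable (E F n) in
theorem exists_altCLM : ∃ A : ContinuousMultilinearMap ℝ (fun _ : Fin n => E) F →L[ℝ]
    (E [⋀^Fin n]→L[ℝ] F), ∀ f : E [⋀^Fin n]→L[ℝ] F, A f.toContinuousMultilinearMap = f := by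
  let A₀ : ContinuousMultilinearMap ℝ (fun _ : Fin n => E) F →ₗ[ℝ] (E [⋀^Fin n]→L[ℝ] F) :=
    { toFun := fun f => ContinuousMultilinearMap.alternatization f
      map_add' := fun f g => map_add _ f g
      map_smul' := fun c f => by
        ext v
        simp only [ContinuousMultilinearMap.alternatization_apply_apply,
          ContinuousAlternatingMap.smul_apply, RingHom.id_apply, Finset.smul_sum]
        refine Finset.sum_congr rfl fun σ _ => ?_
        rw [smul_comm]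
        rfl }
  have hb : ∀ f, ‖A₀ f‖ ≤ (n.factorial : ℝ) * ‖f‖ := by
    intro f
    refine ContinuousAlternatingMap.opNorm_le_bound _ (by positivity) fun v => ?_
    show ‖ContinuousMultilinearMap.alternatization f v‖ ≤ _
    rw [ContinuousMultilinearMap.alternatization_apply_apply]
    refine (norm_sum_le _ _).trans ?_
    have h1 : ∀ σ : Equiv.Perm (Fin n), ‖Equiv.Perm.sign σ • f (v ∘ σ)‖ ≤ ‖f‖ * ∏ i, ‖v i‖ := by
      intro σ
      have h2 : ‖Equiv.Perm.sign σ • f (v ∘ σ)‖ = ‖f (v ∘ σ)‖ := by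
        rcases Int.units_eq_one_or (Equiv.Perm.sign σ) with h | h <;> simp [h]
      rw [h2]
      refine (f.le_opNorm _).trans (le_of_eq ?_)
      congr 1
      exact Equiv.prod_comp σ (fun i => ‖v i‖)
    refine (Finset.sum_le_sum fun σ _ => h1 σ).trans (le_of_eq ?_)
    rw [Finset.sum_const, Finset.card_univ, Fintype.card_perm, Fintype.card_fin, nsmul_eq_mul,
      mul_assoc]
  refine ⟨((n.factorial : ℝ)⁻¹) • A₀.mkContinuous _ hb, fun f => ?_⟩
  ext v
  show ((n.factorial : ℝ)⁻¹) • ContinuousMultilinearMap.alternatization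
    f.toContinuousMultilinearMap v = f v
  rw [ContinuousMultilinearMap.alternatization_apply_apply]
  have h1 : ∀ σ : Equiv.Perm (Fin n),
      Equiv.Perm.sign σ • f.toContinuousMultilinearMap (v ∘ σ) = f v := by
    intro σ
    have := f.toAlternatingMap.map_perm v σ
    show Equiv.Perm.sign σ • f.toAlternatingMap (v ∘ σ) = f.toAlternatingMap v
    rw [this, smul_smul]
    simp
  simp only [h1, Finset.sum_const, Finset.card_univ, Fintype.card_perm, Fintype.card_fin]
  rw [← Nat.cast_smul_eq_nsmul ℝ, smul_smul, inv_mul_cancel₀ (by positivity), one_smul]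

theorem contDiffOn_altComp {f : X → E' [⋀^Fin n]→L[ℝ] F} {g : X → E →L[ℝ] E'} {s : Set X}
    (hf : ContDiffOn ℝ ∞ f s) (hg : ContDiffOn ℝ ∞ g s) :
    ContDiffOn ℝ ∞ (fun x => (f x).compContinuousLinearMap (g x)) s := by
  obtain ⟨A, hA⟩ := exists_altCLM E F n
  have h1 : ContDiffOn ℝ ∞ (fun x => (f x).toContinuousMultilinearMap) s :=
    (ContinuousAlternatingMap.toContinuousMultilinearMapCLM ℝ :
      (E' [⋀^Fin n]→L[ℝ] F) →L[ℝ] _).contDiff.comp_contDiffOn hf
  have h2 : ContDiffOn ℝ ∞ (fun x => fun _ : Fin n => g x) s := contDiffOn_pi.2 fun _ => hg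
  have h3 := ((ContinuousMultilinearMap.compContinuousLinearMapContinuousMultilinear ℝ
    (fun _ : Fin n => E) (fun _ : Fin n => E') F).contDiff.comp_contDiffOn h2).clm_apply h1
  refine (A.contDiff.comp_contDiffOn h3).congr fun x _ => ?_
  exact (hA _).symm

theorem contDiffOn_curry {f : X → E [⋀^Fin (n + 1)]→L[ℝ] F} {g : X → E} {s : Set X}
    (hf : ContDiffOn ℝ ∞ f s) (hg : ContDiffOn ℝ ∞ g s) :
    ContDiffOn ℝ ∞ (fun x => (f x).curryLeft (g x)) s := by
  let A : (E [⋀^Fin (n + 1)]→L[ℝ] F) →L[ℝ] (E →L[ℝ] E [⋀^Fin n]→L[ℝ] F) :=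
    (ContinuousAlternatingMap.curryLeftLI (𝕜 := ℝ) (E := E) (F := F)
      (n := n)).toContinuousLinearMap
  have h1 := (ContinuousLinearMap.contDiff (𝕜 := ℝ) (E := E [⋀^Fin (n + 1)]→L[ℝ] F)
    (F := E →L[ℝ] E [⋀^Fin n]→L[ℝ] F) (n := ∞) A).comp_contDiffOn hf
  exact h1.clm_apply hg

theorem contDiffOn_extDeriv {f : E → E [⋀^Fin n]→L[ℝ] F} {s : Set E} (hs : IsOpen s)
    (hf : ContDiffOn ℝ ∞ f s) : ContDiffOn ℝ ∞ (extDeriv f) s := by
  have h1 := hf.fderiv_of_isOpen hs (m := ∞) (by simp)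
  exact (ContinuousAlternatingMap.alternatizeUncurryFinCLM ℝ E F).contDiff.comp_contDiffOn h1

theorem contDiff_extDeriv {f : E → E [⋀^Fin n]→L[ℝ] F}
    (hf : ContDiff ℝ ∞ f) : ContDiff ℝ ∞ (extDeriv f) :=
  contDiffOn_univ.1 (contDiffOn_extDeriv isOpen_univ hf.contDiffOn)

end alt

section homotopy

variable {Q E E' F : Type*} [NormedAddCommGroup Q] [NormedSpace ℝ Q]
  [NormedAddCommGroup E] [NormedSpace ℝ E]
  [NormedAddCommGroup E'] [NormedSpace ℝ E'] [NormedAddCommGroup F] [NormedSpace ℝ F] {n : ℕ}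

/-- Pull-back of `w` under the map `G (p, ·)`. -/
def pull (G : Q × E → E') (w : E' → E' [⋀^Fin n]→L[ℝ] F) (x : Q × E) : E [⋀^Fin n]→L[ℝ] F :=
  (w (G x)).compContinuousLinearMap ((fderiv ℝ G x).comp (ContinuousLinearMap.inr ℝ Q E))

/-- The integrand of the homotopy operator in the parameter direction `e`. -/
def hom (G : Q × E → E') (e : Q) (w : E' → E' [⋀^Fin (n + 1)]→L[ℝ] F) (x : Q × E) :
    E [⋀^Fin n]→L[ℝ] F :=
  ((w (G x)).curryLeft (fderiv ℝ G x (e, 0))).compContinuousLinearMap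
    ((fderiv ℝ G x).comp (ContinuousLinearMap.inr ℝ Q E))

variable {G : Q × E → E'} {W : Set (Q × E)}

theorem contDiffOn_pull (hW : IsOpen W) (hG : ContDiffOn ℝ ∞ G W)
    {w : E' → E' [⋀^Fin n]→L[ℝ] F} {V : Set E'} (hw : ContDiffOn ℝ ∞ w V) (hV : MapsTo G W V) :
    ContDiffOn ℝ ∞ (pull G w) W :=
  contDiffOn_altComp (hw.comp hG hV)
    ((hG.fderiv_of_isOpen hW (m := ∞) (by simp)).clm_comp contDiffOn_const)

theorem contDiffOn_hom (hW : IsOpen W) (hG : ContDiffOn ℝ ∞ G W) (e : Q)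
    {w : E' → E' [⋀^Fin (n + 1)]→L[ℝ] F} {V : Set E'} (hw : ContDiffOn ℝ ∞ w V)
    (hV : MapsTo G W V) : ContDiffOn ℝ ∞ (hom G e w) W :=
  contDiffOn_altComp (contDiffOn_curry (hw.comp hG hV)
    ((hG.fderiv_of_isOpen hW (m := ∞) (by simp)).clm_apply contDiffOn_const))
    ((hG.fderiv_of_isOpen hW (m := ∞) (by simp)).clm_comp contDiffOn_const)

theorem removeNth_cons_succ {α : Type*} (a : α) (v : Fin (n + 1) → α) (j : Fin (n + 1)) :
    Fin.removeNth (α := fun _ => α) j.succ (Matrix.vecCons a v) =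
      Matrix.vecCons a (Fin.removeNth (α := fun _ => α) j v) := by
  funext i
  refine Fin.cases ?_ (fun i => ?_) i
  · simp [Fin.removeNth]
  · simp [Fin.removeNth]

/-- The infinitesimal homotopy formula in positive degree. -/
theorem fderiv_pull_succ {x : Q × E} (hG : ContDiffAt ℝ ∞ G x) (e : Q)
    {w : E' → E' [⋀^Fin (n + 1)]→L[ℝ] F} (hw : ContDiffAt ℝ ∞ w (G x)) :
    fderiv ℝ (pull G w) x (e, 0) =
      ContinuousAlternatingMap.alternatizeUncurryFin
        ((fderiv ℝ (hom G e w) x).comp (ContinuousLinearMap.inr ℝ Q E)) +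
      hom G e (extDeriv w) x := by
  set Ω : Q × E → (Q × E) [⋀^Fin (n + 1)]→L[ℝ] F :=
    fun y => (w (G y)).compContinuousLinearMap (fderiv ℝ G y) with hΩ
  have hwd : DifferentiableAt ℝ w (G x) := hw.differentiableAt (by simp)
  have hΩd : DifferentiableAt ℝ Ω x :=
    (hwd.comp x (hG.differentiableAt (by simp))).continuousAlternatingMapCompContinuousLinearMap
      ((hG.fderiv_right (m := 1) (by rw [one_add_one_eq_two]; exact two_le_infty)).differentiableAt one_ne_zero)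
  have hd : extDeriv Ω x = (extDeriv w (G x)).compContinuousLinearMap (fderiv ℝ G x) :=
    extDeriv_pullback hwd hG (by simpa using two_le_infty)
  let A : ((Q × E) [⋀^Fin (n + 1)]→L[ℝ] F) →L[ℝ] (E [⋀^Fin (n + 1)]→L[ℝ] F) :=
    ContinuousAlternatingMap.compContinuousLinearMapCLM (ContinuousLinearMap.inr ℝ Q E)
  let B : ((Q × E) [⋀^Fin (n + 1)]→L[ℝ] F) →L[ℝ] (E [⋀^Fin n]→L[ℝ] F) :=
    ContinuousAlternatingMap.compContinuousLinearMapCLM (ContinuousLinearMap.inr ℝ Q E) ∘L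
      (ContinuousLinearMap.apply ℝ _ ((e, 0) : Q × E)) ∘L
      (ContinuousAlternatingMap.curryLeftLI (𝕜 := ℝ) (E := Q × E) (F := F)
        (n := n)).toContinuousLinearMap
  have hB : ∀ (η : (Q × E) [⋀^Fin (n + 1)]→L[ℝ] F) (v : Fin n → E),
      B η v = η (Matrix.vecCons (e, 0) fun i => (0, v i)) := fun _ _ => rfl
  have h1 : pull G w = A ∘ Ω := by
    funext y
    ext v
    rfl
  have h2 : hom G e w = B ∘ Ω := by
    funext y
    ext v
    rw [Function.comp_apply, hB]
    simp only [hom, hΩ, ContinuousAlternatingMap.compContinuousLinearMap_apply,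
      ContinuousAlternatingMap.curryLeft_apply_apply]
    congr 1
    funext i
    refine Fin.cases ?_ (fun i => ?_) i <;> simp
  rw [h1, h2, (A.hasFDerivAt.comp x hΩd.hasFDerivAt).fderiv,
    (B.hasFDerivAt.comp x hΩd.hasFDerivAt).fderiv]
  ext v
  have h3 : hom G e (extDeriv w) x v =
      extDeriv Ω x (Matrix.vecCons (e, 0) fun i => (0, v i)) := by
    rw [hd]
    simp only [hom, ContinuousAlternatingMap.compContinuousLinearMap_apply,
      ContinuousAlternatingMap.curryLeft_apply_apply]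
    congr 1
    funext i
    refine Fin.cases ?_ (fun i => ?_) i <;> simp
  rw [ContinuousAlternatingMap.add_apply, h3, extDeriv,
    ContinuousAlternatingMap.alternatizeUncurryFin_apply,
    ContinuousAlternatingMap.alternatizeUncurryFin_apply, Fin.sum_univ_succ (n := n + 1)]
  simp only [ContinuousLinearMap.comp_apply, hB, removeNth_cons_succ, Fin.val_zero, pow_zero,
    one_smul, Fin.val_succ, pow_succ, mul_neg, mul_one, neg_smul, Finset.sum_neg_distrib,
    Matrix.cons_val_zero, Matrix.cons_val_succ, ContinuousLinearMap.inr_apply]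
  have h4 : Fin.removeNth (α := fun _ => Q × E) 0
      (Matrix.vecCons ((e, 0) : Q × E) fun i => (0, v i)) = fun i => (0, v i) := by
    funext i
    simp [Fin.removeNth]
  rw [h4]
  have h5 : ∀ j : Fin (n + 1), (Fin.removeNth (α := fun _ => Q × E) j fun i => ((0 : Q), v i)) =
      fun i => ((0 : Q), Fin.removeNth (α := fun _ => E) j v i) := fun j => rfl
  simp only [h5]
  rw [add_add_neg_cancel'_right]
  rfl

/-- The infinitesimal homotopy formula in degree zero. -/
theorem fderiv_pull_zero {x : Q × E} (hG : ContDiffAt ℝ ∞ G x) (e : Q)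
    {w : E' → E' [⋀^Fin 0]→L[ℝ] F} (hw : ContDiffAt ℝ ∞ w (G x)) :
    fderiv ℝ (pull G w) x (e, 0) = hom G e (extDeriv w) x := by
  have hwd : DifferentiableAt ℝ w (G x) := hw.differentiableAt (by simp)
  have hGd : DifferentiableAt ℝ G x := hG.differentiableAt (by simp)
  let A : (E' [⋀^Fin 0]→L[ℝ] F) →L[ℝ] (E [⋀^Fin 0]→L[ℝ] F) :=
    ContinuousAlternatingMap.compContinuousLinearMapCLM 0
  have h1 : pull G w = A ∘ (w ∘ G) := by
    funext y
    ext v
    show w (G y) _ = w (G y) _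
    congr 1
    exact Subsingleton.elim _ _
  rw [h1, (A.hasFDerivAt.comp x (hwd.hasFDerivAt.comp x hGd.hasFDerivAt)).fderiv]
  ext v
  simp only [hom, ContinuousAlternatingMap.compContinuousLinearMap_apply,
    ContinuousAlternatingMap.curryLeft_apply_apply, extDeriv,
    ContinuousAlternatingMap.alternatizeUncurryFin_apply, ContinuousLinearMap.comp_apply]
  rw [Fin.sum_univ_one]
  simp only [Fin.val_zero, pow_zero, one_smul, Matrix.cons_val_zero]
  show fderiv ℝ w (G x) _ _ = fderiv ℝ w (G x) _ _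
  congr 1
  exact Subsingleton.elim _ _

end homotopy

section integrated

variable {P E E' F : Type*} [NormedAddCommGroup P] [NormedSpace ℝ P] [MeasurableSpace P]
  [BorelSpace P] [SecondCountableTopology P]
  [NormedAddCommGroup E] [NormedSpace ℝ E] [FiniteDimensional ℝ E]
  [NormedAddCommGroup E'] [NormedSpace ℝ E'] [NormedAddCommGroup F] [NormedSpace ℝ F]
  [CompleteSpace F] {n : ℕ}
  (π : Measure P) [IsLocallyFiniteMeasure π] (B : Set P)

/-- Average of the pull-backs at time `s`. -/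
def avgPull (G : (ℝ × P) × E → E') (s : ℝ) (w : E' → E' [⋀^Fin n]→L[ℝ] F) (z : E) :
    E [⋀^Fin n]→L[ℝ] F :=
  ∫ p in B, pull G w ((s, p), z) ∂π

/-- The averaged homotopy operator. -/
def avgHom (G : (ℝ × P) × E → E') (w : E' → E' [⋀^Fin (n + 1)]→L[ℝ] F) (z : E) :
    E [⋀^Fin n]→L[ℝ] F :=
  ∫ p in Icc (0 : ℝ) 1 ×ˢ B, hom G (1, 0) w (p, z) ∂(volume.prod π)

variable {π B} {G : (ℝ × P) × E → E'} {W : Set ((ℝ × P) × E)} {U : Set E} {V : Set E'}

theorem integral_fderiv_time {F' : Type*} [NormedAddCommGroup F'] [NormedSpace ℝ F']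
    [CompleteSpace F'] (hB : IsCompact B) (hW : IsOpen W)
    (hCW : (Icc (0 : ℝ) 1 ×ˢ B) ×ˢ U ⊆ W) {k : (ℝ × P) × E → F'} (hk : ContDiffOn ℝ ∞ k W)
    {z : E} (hz : z ∈ U) :
    ∫ p in Icc (0 : ℝ) 1 ×ˢ B, fderiv ℝ k (p, z) ((1, 0), 0) ∂(volume.prod π) =
      (∫ p in B, k ((1, p), z) ∂π) - ∫ p in B, k ((0, p), z) ∂π := by
  have hcf : ContinuousOn (fun x => fderiv ℝ k x ((1, 0), 0)) W :=
    (hk.continuousOn_fderiv_of_isOpen hW (by simp)).clm_apply continuousOn_const
  have hint : IntegrableOn (fun p => fderiv ℝ k (p, z) ((1, 0), 0)) (Icc (0 : ℝ) 1 ×ˢ B)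
      (volume.prod π) := (cont_slice hcf hCW hz).integrableOn_compact (isCompact_Icc.prod hB)
  have hs : ∀ s ∈ Icc (0 : ℝ) 1, IntegrableOn (fun p => k ((s, p), z)) B π := by
    intro s hs
    refine ContinuousOn.integrableOn_compact hB ?_
    exact hk.continuousOn.comp (by fun_prop) (fun p hp => hCW ⟨⟨hs, hp⟩, hz⟩)
  rw [← integral_sub (hs 1 (by simp)) (hs 0 (by simp))]
  rw [IntegrableOn, ← Measure.prod_restrict] at hint
  rw [← Measure.prod_restrict, integral_prod_symm _ hint]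
  refine setIntegral_congr_fun hB.measurableSet fun p hp => ?_
  rw [integral_Icc_eq_integral_Ioc, ← intervalIntegral.integral_of_le zero_le_one]
  refine intervalIntegral.integral_eq_sub_of_hasDerivAt (f := fun s => k ((s, p), z)) ?_ ?_
  · intro s hs
    rw [uIcc_of_le zero_le_one] at hs
    have hd : DifferentiableAt ℝ k ((s, p), z) :=
      (hk.contDiffAt (hW.mem_nhds (hCW ⟨⟨hs, hp⟩, hz⟩))).differentiableAt (by simp)
    have h1 : HasDerivAt (fun s : ℝ => ((s, p), z)) (((1 : ℝ), (0 : P)), (0 : E)) s :=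
      ((hasDerivAt_id s).prodMk (hasDerivAt_const s p)).prodMk (hasDerivAt_const s z)
    exact hd.hasFDerivAt.comp_hasDerivAt s h1
  · refine ContinuousOn.intervalIntegrable ?_
    rw [uIcc_of_le zero_le_one]
    exact hcf.comp (by fun_prop) (fun s hs => hCW ⟨⟨hs, hp⟩, hz⟩)

theorem contDiffOn_avgHom (hB : IsCompact B) (hU : IsOpen U) (hW : IsOpen W)
    (hCW : (Icc (0 : ℝ) 1 ×ˢ B) ×ˢ U ⊆ W) (hG : ContDiffOn ℝ ∞ G W) (hV : MapsTo G W V)
    {w : E' → E' [⋀^Fin (n + 1)]→L[ℝ] F} (hw : ContDiffOn ℝ ∞ w V) :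
    ContDiffOn ℝ ∞ (avgHom π B G w) U :=
  contDiffOn_paramInt (isCompact_Icc.prod hB) hU hW hCW (contDiffOn_hom hW hG _ hw hV)

theorem contDiffOn_avgPull (hB : IsCompact B) (hU : IsOpen U) (hW : IsOpen W)
    (hCW : (Icc (0 : ℝ) 1 ×ˢ B) ×ˢ U ⊆ W) (hG : ContDiffOn ℝ ∞ G W) (hV : MapsTo G W V)
    {w : E' → E' [⋀^Fin n]→L[ℝ] F} (hw : ContDiffOn ℝ ∞ w V) {s : ℝ} (hs : s ∈ Icc (0 : ℝ) 1) :
    ContDiffOn ℝ ∞ (avgPull π B G s w) U := by
  have h1 : ContDiff ℝ ∞ (fun x : P × E => ((s, x.1), x.2)) := by fun_prop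
  refine contDiffOn_paramInt (k := fun x : P × E => pull G w ((s, x.1), x.2)) hB hU
    (hW.preimage h1.continuous) (fun x hx => hCW ⟨⟨hs, hx.1⟩, hx.2⟩) ?_
  exact (contDiffOn_pull hW hG hw hV).comp h1.contDiffOn (fun x hx => hx)

theorem homotopy_succ (hB : IsCompact B) (hU : IsOpen U) (hW : IsOpen W) (hVo : IsOpen V)
    (hCW : (Icc (0 : ℝ) 1 ×ˢ B) ×ˢ U ⊆ W) (hG : ContDiffOn ℝ ∞ G W) (hV : MapsTo G W V)
    {w : E' → E' [⋀^Fin (n + 1)]→L[ℝ] F} (hw : ContDiffOn ℝ ∞ w V) {z : E} (hz : z ∈ U) :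
    avgPull π B G 1 w z - avgPull π B G 0 w z =
      extDeriv (avgHom π B G w) z + avgHom π B G (extDeriv w) z := by
  have hC : IsCompact (Icc (0 : ℝ) 1 ×ˢ B) := isCompact_Icc.prod hB
  have h1 := contDiffOn_hom hW hG ((1 : ℝ), (0 : P)) hw hV
  have h2 := contDiffOn_hom hW hG ((1 : ℝ), (0 : P)) (contDiffOn_extDeriv hVo hw) hV
  rw [avgPull, avgPull, ← integral_fderiv_time hB hW hCW (contDiffOn_pull hW hG hw hV) hz,
    extDeriv]
  unfold avgHom
  obtain ⟨h3, h4⟩ := clm_fderiv_paramInt (F := E [⋀^Fin n]→L[ℝ] F)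
    (F' := E [⋀^Fin (n + 1)]→L[ℝ] F) (ν := volume.prod π)
    (ContinuousAlternatingMap.alternatizeUncurryFinCLM ℝ E F) hC hU hW hCW h1 hz
  rw [← ContinuousAlternatingMap.alternatizeUncurryFinCLM_apply]
  erw [h3]
  rw [← integral_add h4 ((cont_slice h2.continuousOn hCW hz).integrableOn_compact hC)]
  refine setIntegral_congr_fun hC.measurableSet fun p hp => ?_
  have hx : (p, z) ∈ W := hCW ⟨hp, hz⟩
  exact fderiv_pull_succ (hG.contDiffAt (hW.mem_nhds hx)) _ (hw.contDiffAt (hVo.mem_nhds (hV hx)))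

theorem homotopy_zero (hB : IsCompact B) (hW : IsOpen W) (hVo : IsOpen V)
    (hCW : (Icc (0 : ℝ) 1 ×ˢ B) ×ˢ U ⊆ W) (hG : ContDiffOn ℝ ∞ G W) (hV : MapsTo G W V)
    {w : E' → E' [⋀^Fin 0]→L[ℝ] F} (hw : ContDiffOn ℝ ∞ w V) {z : E} (hz : z ∈ U) :
    avgPull π B G 1 w z - avgPull π B G 0 w z = avgHom π B G (extDeriv w) z := by
  have hC : IsCompact (Icc (0 : ℝ) 1 ×ˢ B) := isCompact_Icc.prod hB
  rw [avgPull, avgPull, ← integral_fderiv_time hB hW hCW (contDiffOn_pull hW hG hw hV) hz]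
  unfold avgHom
  refine setIntegral_congr_fun hC.measurableSet fun p hp => ?_
  have hx : (p, z) ∈ W := hCW ⟨hp, hz⟩
  exact fderiv_pull_zero (hG.contDiffAt (hW.mem_nhds hx)) _ (hw.contDiffAt (hVo.mem_nhds (hV hx)))

end integrated

end Pool.Agent.H188Z
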