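import Pool.Agent.H188Z.HDefs
import Pool.Agent.H188Z.Param

/-! Coefficients of alternating forms on `ℂ × ℂ`. -/

set_option autoImplicit false

open scoped Topology ContDiff
open Set Metric MeasureTheory Filter

noncomputable section

namespace Pool.Agent.H188Z

/-- Alternating forms on `ℂ × ℂ`. -/
abbrev Alt (𝕜 : Type) [RCLike 𝕜] (q : ℕ) : Type := (ℂ × ℂ) [⋀^Fin q]→L[ℝ] 𝕜

def coordEquiv : (ℂ × ℂ) ≃ₗ[ℝ] (Fin 4 → ℝ) where
  toFun v := ![v.1.re, v.1.im, v.2.re, v.2.im]
  invFun x := (⟨x 0, x 1⟩, ⟨x 2, x 3⟩)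
  map_add' v w := by
    funext i
    fin_cases i <;> simp
  map_smul' c v := by
    funext i
    fin_cases i <;> simp
  left_inv v := by simp
  right_inv x := by
    funext i
    fin_cases i <;> simp

def ebas : Module.Basis (Fin 4) ℝ (ℂ × ℂ) := Module.Basis.ofEquivFun coordEquiv

theorem ebas_apply (i : Fin 4) : ebas i = ebasis i := by
  apply coordEquiv.injective
  rw [ebas, Module.Basis.coe_ofEquivFun]
  simp only [LinearEquiv.apply_symm_apply]
  funext j
  fin_cases i <;> fin_cases j <;> simp [coordEquiv, ebasis]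

theorem coord_ebasis (i j : Fin 4) : coordEquiv (ebasis i) j = if j = i then 1 else 0 := by
  fin_cases i <;> fin_cases j <;> simp [coordEquiv, ebasis]

theorem sum_coord (v : ℂ × ℂ) : ∑ i, coordEquiv v i • ebasis i = v := by
  have := ebas.sum_repr v
  simp only [ebas_apply] at this
  exact this

variable (𝕜 : Type) [RCLike 𝕜] (q : ℕ)

def coefL : Alt 𝕜 q →ₗ[𝕜] Cov 𝕜 q where
  toFun w := WithLp.toLp 2 fun I => w fun i => ebasis (I i)
  map_add' _ _ := rfl
  map_smul' _ _ := rfl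

theorem coefL_injective : Function.Injective (coefL 𝕜 q) := by
  rw [injective_iff_map_eq_zero]
  intro w hw
  apply ContinuousAlternatingMap.toAlternatingMap_injective
  apply Module.Basis.ext_alternating ebas
  intro v hv
  simp only [ebas_apply]
  let σ := Tuple.sort v
  have h1 : StrictMono (v ∘ σ) :=
    (Tuple.monotone_sort v).strictMono_of_injective (hv.comp σ.injective)
  have h2 : w (fun i => ebasis ((v ∘ σ) i)) = 0 :=
    congrArg (fun x : Cov 𝕜 q => x (OrderEmbedding.ofStrictMono _ h1)) hw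
  have h3 := w.toAlternatingMap.map_perm (fun i => ebasis (v i)) σ
  have h4 : w.toAlternatingMap ((fun i => ebasis (v i)) ∘ σ) = 0 := h2
  rw [h4] at h3
  show w.toAlternatingMap _ = 0
  rcases Int.units_eq_one_or (Equiv.Perm.sign σ) with h | h
  · rw [h, one_smul] at h3
    exact h3.symm
  · rw [h, Units.neg_smul, one_smul] at h3
    exact neg_eq_zero.1 h3.symm

/-- The basic form `dx_I`. -/
def dxForm (I : Fin q ↪o Fin 4) : Alt 𝕜 q :=
  (RCLike.ofRealCLM : ℝ →L[ℝ] 𝕜).compContinuousAlternatingMap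
    { toMultilinearMap := (Matrix.detRowAlternating.compLinearMap
        ((LinearMap.funLeft ℝ ℝ I).comp coordEquiv.toLinearMap)).toMultilinearMap
      cont := by
        have h1 : Continuous (coordEquiv : ℂ × ℂ → Fin 4 → ℝ) :=
          coordEquiv.toLinearMap.continuous_of_finiteDimensional
        have h2 : Continuous fun v : Fin q → ℂ × ℂ =>
            Matrix.det (Matrix.of fun i j => coordEquiv (v i) (I j)) := by
          apply Continuous.matrix_det
          refine continuous_pi fun i => continuous_pi fun j => ?_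
          exact (continuous_apply (I j)).comp (h1.comp (continuous_apply i))
        exact h2
      map_eq_zero_of_eq' := (Matrix.detRowAlternating.compLinearMap
        ((LinearMap.funLeft ℝ ℝ I).comp coordEquiv.toLinearMap)).map_eq_zero_of_eq' }

theorem dxForm_apply (I : Fin q ↪o Fin 4) (v : Fin q → ℂ × ℂ) :
    dxForm 𝕜 q I v = ((Matrix.det (Matrix.of fun i j => coordEquiv (v i) (I j)) : ℝ) : 𝕜) := rfl

theorem coefL_dxForm (I : Fin q ↪o Fin 4) :
    coefL 𝕜 q (dxForm 𝕜 q I) = EuclideanSpace.single I 1 := by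
  ext J
  show dxForm 𝕜 q I (fun i => ebasis (J i)) = _
  rw [dxForm_apply, PiLp.single_apply]
  split_ifs with h
  · subst h
    have : (Matrix.of fun i j => coordEquiv (ebasis (J i)) (J j)) = 1 := by
      ext i j
      simp [coord_ebasis, Matrix.one_apply, eq_comm]
    rw [this, Matrix.det_one, RCLike.ofReal_one]
  · have h1 : ∃ i, J i ∉ Set.range I := by
      by_contra! h2
      apply h
      have h3 : Set.range J ⊆ Set.range I := by
        rintro _ ⟨i, rfl⟩
        exact h2 i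
      have h4 : Set.range J = Set.range I := by
        apply Set.eq_of_subset_of_ncard_le h3 _ (Set.toFinite _)
        rw [Set.ncard_range_of_injective I.injective, Set.ncard_range_of_injective J.injective]
      exact DFunLike.coe_injective ((J.strictMono.range_inj I.strictMono).1 h4)
    obtain ⟨i, hi⟩ := h1
    rw [Matrix.det_eq_zero_of_row_eq_zero i, RCLike.ofReal_zero]
    intro j
    rw [Matrix.of_apply, coord_ebasis, if_neg]
    intro h2
    exact hi ⟨j, h2⟩

theorem coefL_surjective : Function.Surjective (coefL 𝕜 q) := by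
  intro x
  refine ⟨∑ I, x I • dxForm 𝕜 q I, ?_⟩
  rw [map_sum]
  simp only [map_smul, coefL_dxForm]
  ext J
  simp [Pi.single_apply]

instance altFiniteDim : FiniteDimensional 𝕜 (Alt 𝕜 q) :=
  FiniteDimensional.of_injective _ (coefL_injective 𝕜 q)

/-- The coefficient isomorphism. -/
def coef : Alt 𝕜 q ≃L[𝕜] Cov 𝕜 q :=
  (LinearEquiv.ofBijective (coefL 𝕜 q)
    ⟨coefL_injective 𝕜 q, coefL_surjective 𝕜 q⟩).toContinuousLinearEquiv

variable {𝕜 q}

theorem coef_apply (w : Alt 𝕜 q) (I : Fin q ↪o Fin 4) :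
    coef 𝕜 q w I = w fun i => ebasis (I i) := rfl

theorem contDiff_coef : ContDiff ℝ ∞ (coef 𝕜 q) :=
  ((coef 𝕜 q : Alt 𝕜 q →L[𝕜] Cov 𝕜 q).restrictScalars ℝ).contDiff

theorem contDiff_coef_symm : ContDiff ℝ ∞ (coef 𝕜 q).symm :=
  (((coef 𝕜 q).symm : Cov 𝕜 q →L[𝕜] Alt 𝕜 q).restrictScalars ℝ).contDiff

theorem dcl_coef {w : ℂ × ℂ → Alt 𝕜 q} {x : ℂ × ℂ} (hw : DifferentiableAt ℝ w x) :
    dcl (fun y => coef 𝕜 q (w y)) x = coef 𝕜 (q + 1) (extDeriv w x) := by
  ext J
  rw [coef_apply, extDeriv_apply hw]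
  show ∑ i : Fin (q + 1), _ = _
  refine Finset.sum_congr rfl fun i _ => ?_
  rw [zsmul_eq_mul]
  push_cast
  rfl

theorem dcl_eq {u : ℂ × ℂ → Cov 𝕜 q} {x : ℂ × ℂ} (hu : DifferentiableAt ℝ u x) :
    dcl u x = coef 𝕜 (q + 1) (extDeriv (fun y => (coef 𝕜 q).symm (u y)) x) := by
  rw [← dcl_coef]
  · simp
  · exact (contDiff_coef_symm.differentiable (by simp) _).comp x hu

theorem exists_coef_bound (𝕜 : Type) [RCLike 𝕜] (q : ℕ) : ∃ c : ℝ, 0 < c ∧
    (∀ w : Alt 𝕜 q, ‖coef 𝕜 q w‖ ≤ c * ‖w‖) ∧ ∀ w : Alt 𝕜 q, ‖w‖ ≤ c * ‖coef 𝕜 q w‖ := by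
  obtain ⟨c₁, h1, h1'⟩ := (coef 𝕜 q : Alt 𝕜 q →L[𝕜] Cov 𝕜 q).bound
  obtain ⟨c₂, h2, h2'⟩ := ((coef 𝕜 q).symm : Cov 𝕜 q →L[𝕜] Alt 𝕜 q).bound
  refine ⟨max c₁ c₂, lt_max_of_lt_left h1, fun w => (h1' w).trans ?_, fun w => ?_⟩
  · gcongr
    exact le_max_left _ _
  · have := h2' (coef 𝕜 q w)
    simp only [ContinuousLinearEquiv.coe_coe, ContinuousLinearEquiv.symm_apply_apply] at this
    refine this.trans ?_
    gcongr
    exact le_max_right _ _

end Pool.Agent.H188Z
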