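import Pool.Agent.H188Z.Ops2

/-! The logarithmic cut-off at the set `z₂ = 0`. -/

set_option autoImplicit false

open scoped Topology ENNReal ContDiff NNReal
open Set Metric MeasureTheory Filter Complex

noncomputable section

namespace Pool.Agent.H188Z

theorem exists_deriv_bound : ∃ M : ℝ, 0 ≤ M ∧ (∀ x, |deriv Real.smoothTransition x| ≤ M) ∧
    (∀ x, x < 0 → deriv Real.smoothTransition x = 0) ∧
    ∀ x, 1 < x → deriv Real.smoothTransition x = 0 := by
  have hc : Continuous (deriv Real.smoothTransition) :=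
    (Real.smoothTransition.contDiff (n := 1)).continuous_deriv le_rfl
  obtain ⟨M, hM⟩ := (isCompact_Icc (a := (0 : ℝ)) (b := 1)).exists_bound_of_continuousOn
    hc.continuousOn
  have hM0 : 0 ≤ M := (norm_nonneg _).trans (hM 0 (by simp))
  have h1 : ∀ x, x < 0 → deriv Real.smoothTransition x = 0 := by
    intro x hx
    have : Real.smoothTransition =ᶠ[𝓝 x] fun _ => 0 := by
      filter_upwards [gt_mem_nhds hx] with y hy using Real.smoothTransition.zero_of_nonpos hy.le
    rw [this.deriv_eq, deriv_const]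
  have h2 : ∀ x, 1 < x → deriv Real.smoothTransition x = 0 := by
    intro x hx
    have : Real.smoothTransition =ᶠ[𝓝 x] fun _ => 1 := by
      filter_upwards [lt_mem_nhds hx] with y hy using Real.smoothTransition.one_of_one_le hy.le
    rw [this.deriv_eq, deriv_const]
  refine ⟨M, hM0, fun x => ?_, h1, h2⟩
  rcases lt_or_ge x 0 with h | h
  · rw [h1 x h, abs_zero]
    exact hM0
  · rcases lt_or_ge 1 x with h' | h'
    · rw [h2 x h', abs_zero]
      exact hM0
    · exact hM x ⟨h, h'⟩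

theorem integrableOn_log : IntegrableOn (fun t : ℝ => t⁻¹ / Real.log (t / 2) ^ 2) (Ioo 0 1) := by
  have hneg : ∀ t : ℝ, 0 < t → t ≤ 1 → Real.log (t / 2) ≠ 0 := fun t h0 h1 =>
    (Real.log_neg (by positivity) (by linarith)).ne
  refine (intervalIntegral.integrableOn_deriv_of_nonneg (a := 0) (b := 1)
    (g := fun t => -(Real.log (t / 2))⁻¹) ?_ ?_ ?_).mono_set Ioo_subset_Ioc_self
  · intro t ht
    rcases ht.1.eq_or_lt with h | h
    · subst h
      refine ContinuousWithinAt.mono ?_ Icc_subset_Ici_self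
      rw [← continuousWithinAt_Ioi_iff_Ici]
      have h1 : Tendsto (fun t : ℝ => t / 2) (𝓝[>] 0) (𝓝[>] 0) := by
        refine tendsto_nhdsWithin_iff.2 ⟨?_, ?_⟩
        · have : Tendsto (fun t : ℝ => t / 2) (𝓝 0) (𝓝 (0 / 2)) :=
            (continuous_id.div_const 2).tendsto 0
          rw [zero_div] at this
          exact this.mono_left nhdsWithin_le_nhds
        · filter_upwards [self_mem_nhdsWithin] with t ht using half_pos (show 0 < t from ht)
      have h2 := (tendsto_inv_atBot_zero.comp (Real.tendsto_log_nhdsGT_zero.comp h1)).neg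
      simpa [ContinuousWithinAt] using h2
    · refine ContinuousAt.continuousWithinAt ?_
      exact (((continuousAt_id.div_const 2).log (by positivity)).inv₀ (hneg t h ht.2)).neg
  · intro t ht
    have h0 := ht.1
    have h1 := ((((hasDerivAt_id t).div_const 2).log (by positivity)).inv
      (hneg t h0 ht.2.le)).neg
    refine h1.congr_deriv ?_
    have := hneg t h0 ht.2.le
    simp only [id]
    field_simp
  · intro t ht
    have h0 := ht.1
    positivity

theorem memLp_log (C : ℝ) : MemLp (fun z : ℂ × ℂ => C * ((‖z‖ ^ 2)⁻¹ * |Real.log (‖z‖ / 2)|⁻¹)) 2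
    (volume.restrict hartogs) := by
  refine MemLp.const_mul ?_ C
  have hm : AEStronglyMeasurable (fun z : ℂ × ℂ => (‖z‖ ^ 2)⁻¹ * |Real.log (‖z‖ / 2)|⁻¹) volume :=
    Measurable.aestronglyMeasurable (by fun_prop)
  rw [memLp_two_iff_integrable_sq hm.restrict]
  have h1 : IntegrableOn (fun z : ℂ × ℂ => ((‖z‖ ^ 2)⁻¹ * |Real.log (‖z‖ / 2)|⁻¹) ^ 2)
      (ball 0 1) volume := by
    refine (integrableOn_fun_norm_addHaar volume
      (f := fun t : ℝ => ((t ^ 2)⁻¹ * |Real.log (t / 2)|⁻¹) ^ 2)).2 ?_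
    refine integrableOn_log.congr_fun (fun t ht => ?_) measurableSet_Ioo
    have h0 := ht.1
    have h2 : Module.finrank ℝ (ℂ × ℂ) - 1 = 3 := by simp [Module.finrank_prod]
    simp only [h2, smul_eq_mul, mul_pow, inv_pow, sq_abs]
    field_simp
  exact h1.mono_set hartogs_subset

theorem memLp_inv (C : ℝ) : MemLp (fun z : ℂ × ℂ => C * ‖z‖⁻¹) 2 (volume.restrict hartogs) := by
  refine (memLp_F |C|).of_le (Measurable.aestronglyMeasurable (by fun_prop)) ?_
  filter_upwards [ae_restrict_mem measurableSet_hartogs] with z hz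
  have h0 : 0 < ‖z‖ := by rw [norm_of_mem hz]; exact snd_pos hz
  have h1 : ‖z‖ ≤ 1 := by rw [norm_of_mem hz]; exact hz.2.le
  rw [norm_mul, norm_mul, Real.norm_eq_abs, Real.norm_eq_abs |C|, abs_abs]
  gcongr
  rw [Real.norm_of_nonneg (by positivity), Real.norm_of_nonneg (by positivity),
    ← Real.rpow_neg_one]
  exact Real.rpow_le_rpow_of_exponent_ge h0 h1 (by norm_num)

/-- The logarithmic cut-off. -/
def kap (k : ℕ) (z : ℂ × ℂ) : ℝ :=
  if z.2 = 0 then 0 else Real.smoothTransition (Real.log ‖z.2‖ / (k + 1) + 2)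

theorem kap_eventually {z : ℂ × ℂ} (hz : z.2 ≠ 0) (k : ℕ) :
    kap k =ᶠ[𝓝 z] fun y => Real.smoothTransition (Real.log ‖y.2‖ / (k + 1) + 2) := by
  filter_upwards [isOpen_U0.mem_nhds hz] with y hy using if_neg hy

theorem kap_zero {z : ℂ × ℂ} (hz : z.2 = 0) (k : ℕ) : kap k =ᶠ[𝓝 z] fun _ => 0 := by
  have h1 : ∀ᶠ y : ℂ × ℂ in 𝓝 z, ‖y.2‖ < Real.exp (-2 * (k + 1)) :=
    (continuous_snd.norm.tendsto z).eventually (gt_mem_nhds (by
      rw [hz, norm_zero]
      exact Real.exp_pos _))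
  filter_upwards [h1] with y hy
  unfold kap
  split_ifs with h
  · rfl
  · apply Real.smoothTransition.zero_of_nonpos
    have h2 := (Real.log_lt_iff_lt_exp (norm_pos_iff.2 h)).2 hy
    have h3 : (0 : ℝ) < k + 1 := by positivity
    rw [div_add' _ _ _ h3.ne']
    exact div_nonpos_of_nonpos_of_nonneg (by linarith) h3.le

theorem contDiffAt_normsnd {z : ℂ × ℂ} (hz : z.2 ≠ 0) :
    ContDiffAt ℝ ∞ (fun y : ℂ × ℂ => ‖y.2‖) z :=
  (contDiffAt_norm ℝ hz).comp z contDiffAt_snd

theorem contDiffAt_kap {z : ℂ × ℂ} (hz : z.2 ≠ 0) (k : ℕ) : ContDiffAt ℝ ∞ (kap k) z := by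
  refine ContDiffAt.congr_of_eventuallyEq ?_ (kap_eventually hz k)
  exact Real.smoothTransition.contDiffAt.comp z
    ((((contDiffAt_normsnd hz).log (norm_ne_zero_iff.2 hz)).div_const _).add contDiffAt_const)

theorem kap_mem (k : ℕ) (z : ℂ × ℂ) : 0 ≤ kap k z ∧ kap k z ≤ 1 := by
  unfold kap
  split_ifs
  · simp
  · exact ⟨Real.smoothTransition.nonneg _, Real.smoothTransition.le_one _⟩

theorem eventually_gt {z : ℂ × ℂ} :
    ∀ᶠ k : ℕ in atTop, 1 < Real.log ‖z.2‖ / (k + 1) + 2 := by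
  have h1 := (tendsto_one_div_add_atTop_nhds_zero_nat (𝕜 := ℝ)).const_mul (Real.log ‖z.2‖)
  rw [mul_zero] at h1
  filter_upwards [h1.eventually (lt_mem_nhds (show (-1 : ℝ) < 0 by norm_num))] with k hk
  rw [mul_one_div] at hk
  linarith

theorem exists_kap_bound : ∃ M : ℝ, 0 ≤ M ∧ ∀ z ∈ hartogs,
    (∀ k, ‖fderiv ℝ (kap k) z‖ ≤ M * (‖z.2‖⁻¹ * |Real.log (‖z.2‖ / 2)|⁻¹)) ∧
    ∀ᶠ k in atTop, kap k z = 1 ∧ fderiv ℝ (kap k) z = 0 := by
  obtain ⟨M, hM0, hM, hM1, hM2⟩ := exists_deriv_bound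
  refine ⟨3 * M, by positivity, fun z hz => ?_⟩
  have h0 := snd_pos hz
  have hN := ((contDiffAt_normsnd (snd_ne hz)).differentiableAt (by simp)).hasFDerivAt
  have hN1 : ‖fderiv ℝ (fun y : ℂ × ℂ => ‖y.2‖) z‖ ≤ 1 := by
    have := norm_fderiv_le_of_lipschitz ℝ (x₀ := z)
      ((lipschitzWith_one_norm (E := ℂ)).comp (LipschitzWith.prod_snd (α := ℂ)))
    simpa [Function.comp_def] using this
  set N := fderiv ℝ (fun y : ℂ × ℂ => ‖y.2‖) z
  have hd : ∀ k : ℕ, fderiv ℝ (kap k) z =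
      deriv Real.smoothTransition (Real.log ‖z.2‖ / (k + 1) + 2) •
        (((k : ℝ) + 1)⁻¹ • ‖z.2‖⁻¹ • N) := by
    intro k
    rw [(kap_eventually (snd_ne hz) k).fderiv_eq]
    have h1 : HasFDerivAt (fun y : ℂ × ℂ => Real.log ‖y.2‖ / (k + 1) + 2)
        (((k : ℝ) + 1)⁻¹ • ‖z.2‖⁻¹ • N) z := by
      have := ((hN.log h0.ne').const_smul ((k : ℝ) + 1)⁻¹).add_const 2
      refine this.congr_of_eventuallyEq (Eventually.of_forall fun y => ?_)
      simp [div_eq_inv_mul]
    exact (((Real.smoothTransition.contDiff (n := 1)).differentiable (by simp)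
      _).hasDerivAt.comp_hasFDerivAt z h1).fderiv
  refine ⟨fun k => ?_, ?_⟩
  · rw [hd k]
    have hk : (0 : ℝ) < k + 1 := by positivity
    rcases lt_or_ge (Real.log ‖z.2‖ / (k + 1) + 2) 0 with h | h
    · rw [hM1 _ h, zero_smul, norm_zero]
      positivity
    · have h1 : Real.log (‖z.2‖ / 2) < 0 := Real.log_neg (by positivity) (by linarith [hz.2])
      have h2 : |Real.log (‖z.2‖ / 2)| ≤ 3 * (k + 1) := by
        rw [abs_of_neg h1, Real.log_div h0.ne' two_ne_zero]
        have h3 : Real.log 2 ≤ 1 := by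
          have := Real.log_le_sub_one_of_pos (show (0 : ℝ) < 2 by norm_num)
          linarith
        rw [div_add' _ _ _ hk.ne', le_div_iff₀ hk] at h
        have : (0 : ℝ) ≤ k := Nat.cast_nonneg k
        linarith
      have h3 : ((k : ℝ) + 1)⁻¹ ≤ 3 * |Real.log (‖z.2‖ / 2)|⁻¹ := by
        have h4 : 0 < |Real.log (‖z.2‖ / 2)| := abs_pos.2 h1.ne
        rw [inv_eq_one_div, ← div_eq_mul_inv, div_le_div_iff₀ hk h4]
        linarith
      rw [norm_smul, norm_smul, norm_smul, Real.norm_eq_abs, Real.norm_of_nonneg (by positivity),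
        Real.norm_of_nonneg (by positivity)]
      calc _ ≤ M * (3 * |Real.log (‖z.2‖ / 2)|⁻¹ * (‖z.2‖⁻¹ * 1)) := by
            gcongr
            exact hM _
        _ = _ := by ring
  · filter_upwards [eventually_gt (z := z)] with k hk
    refine ⟨?_, by rw [hd k, hM2 _ hk, zero_smul]⟩
    rw [kap, if_neg (snd_ne hz)]
    exact Real.smoothTransition.one_of_one_le hk.le

variable {𝕜 : Type} [RCLike 𝕜] {q : ℕ}

theorem extDeriv_smul_fun {κ : ℂ × ℂ → ℝ} {β : ℂ × ℂ → Alt 𝕜 q} {z : ℂ × ℂ}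
    (hκ : DifferentiableAt ℝ κ z) (hβ : DifferentiableAt ℝ β z) :
    extDeriv (fun y => κ y • β y) z = κ z • extDeriv β z +
      ContinuousAlternatingMap.alternatizeUncurryFin ((fderiv ℝ κ z).smulRight (β z)) := by
  rw [extDeriv, fderiv_fun_smul hκ hβ, ContinuousAlternatingMap.alternatizeUncurryFin_add,
    ContinuousAlternatingMap.alternatizeUncurryFin_smul, extDeriv]

theorem strong_of_bound {β : ℂ × ℂ → Alt 𝕜 q} (hβ : ContDiffOn ℝ ∞ β U0) {C : ℝ}
    (hC : ∀ z ∈ hartogs, ‖β z‖ ≤ C * ‖z.2‖⁻¹) {u : L2 𝕜 q} {f : L2 𝕜 (q + 1)}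
    (hu : u =ᵐ[volume.restrict hartogs] fun x => coef 𝕜 q (β x))
    (hf : f =ᵐ[volume.restrict hartogs] fun x => coef 𝕜 (q + 1) (extDeriv β x)) :
    IsStrongD u f := by
  obtain ⟨M, hM0, hM⟩ := exists_kap_bound
  obtain ⟨c, hc0, hc, -⟩ := exists_coef_bound 𝕜 (q + 1)
  have hs : ∀ k, ContDiff ℝ ∞ fun y => kap k y • β y := by
    intro k
    rw [contDiff_iff_contDiffAt]
    intro z
    by_cases hz : z.2 = 0
    · refine (contDiffAt_const (c := (0 : Alt 𝕜 q))).congr_of_eventuallyEq ?_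
      filter_upwards [kap_zero hz k] with y hy
      rw [hy]
      ext ξ
      simp
    · exact (contDiffAt_kap hz k).smul (hβ.contDiffAt (isOpen_U0.mem_nhds hz))
  have hcs : ∀ (n : ℕ) (r : ℝ) (w : Alt 𝕜 n), coef 𝕜 n (r • w) = r • coef 𝕜 n w := fun n r w =>
    ((coef 𝕜 n : Alt 𝕜 n →L[𝕜] Cov 𝕜 n).restrictScalars ℝ).map_smul r w
  rw [isStrongD_iff]
  refine ⟨fun k => ⟨_, hs k⟩, ?_, ?_⟩
  · rw [tendsto_emb_iff]
    refine tendsto_eLpNorm_of_dom (F := fun z => ‖u z‖) (fun k => ?_) (Lp.memLp u).norm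
      (fun k => ?_) ?_
    · exact ((coef 𝕜 q).continuous.comp (hs k).continuous).aestronglyMeasurable.sub
        (Lp.aestronglyMeasurable u)
    · filter_upwards [hu] with z hz
      show ‖coef 𝕜 q (kap k z • β z) - u z‖ ≤ _
      rw [hcs, ← hz]
      nth_rewrite 2 [← one_smul ℝ (u z)]
      rw [← sub_smul, norm_smul, Real.norm_eq_abs]
      refine mul_le_of_le_one_left (norm_nonneg _) (abs_le.2 ⟨?_, ?_⟩) <;>
        linarith [(kap_mem k z).1, (kap_mem k z).2]
    · filter_upwards [hu, ae_restrict_mem measurableSet_hartogs] with z hz hzT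
      refine tendsto_const_nhds.congr' ?_
      filter_upwards [(hM z hzT).2] with k hk
      show 0 = coef 𝕜 q (kap k z • β z) - u z
      rw [hk.1, one_smul, hz, sub_self]
  · rw [tendsto_emb_iff]
    have hd : ∀ k, ∀ z ∈ hartogs, extDeriv (fun y => kap k y • β y) z = kap k z • extDeriv β z +
        ContinuousAlternatingMap.alternatizeUncurryFin ((fderiv ℝ (kap k) z).smulRight (β z)) :=
      fun k z hz => extDeriv_smul_fun ((contDiffAt_kap (snd_ne hz) k).differentiableAt (by simp))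
        ((hβ.contDiffAt (isOpen_U0.mem_nhds (snd_ne hz))).differentiableAt (by simp))
    refine tendsto_eLpNorm_of_dom (F := fun z => ‖f z‖ +
      (c * (q + 1) * M * C) * ((‖z‖ ^ 2)⁻¹ * |Real.log (‖z‖ / 2)|⁻¹)) (fun k => ?_)
      ((Lp.memLp f).norm.add (memLp_log _)) (fun k => ?_) ?_
    · exact ((coef 𝕜 (q + 1)).continuous.comp
        (contDiff_extDeriv (hs k)).continuous).aestronglyMeasurable.sub
        (Lp.aestronglyMeasurable f)
    · filter_upwards [hf, ae_restrict_mem measurableSet_hartogs] with z hz hzT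
      show ‖coef 𝕜 (q + 1) (extDeriv (fun y => kap k y • β y) z) - f z‖ ≤ _
      rw [hd k z hzT, map_add, hcs, ← hz, add_sub_right_comm]
      refine (norm_add_le _ _).trans (add_le_add ?_ ?_)
      · nth_rewrite 2 [← one_smul ℝ (f z)]
        rw [← sub_smul, norm_smul, Real.norm_eq_abs]
        refine mul_le_of_le_one_left (norm_nonneg _) (abs_le.2 ⟨?_, ?_⟩) <;>
          linarith [(kap_mem k z).1, (kap_mem k z).2]
      · refine (hc _).trans ?_
        have h1 := ContinuousAlternatingMap.norm_alternatizeUncurryFin_le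
          ((fderiv ℝ (kap k) z).smulRight (β z))
        rw [ContinuousLinearMap.norm_smulRight_apply] at h1
        have h2 := (hM z hzT).1 k
        have h3 := hC z hzT
        have h0 := snd_pos hzT
        rw [norm_of_mem hzT]
        calc _ ≤ c * ((q + 1) * ((M * (‖z.2‖⁻¹ * |Real.log (‖z.2‖ / 2)|⁻¹)) * (C * ‖z.2‖⁻¹))) := by
              gcongr
              refine h1.trans ?_
              gcongr
          _ = _ := by ring
    · filter_upwards [hf, ae_restrict_mem measurableSet_hartogs] with z hz hzT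
      refine tendsto_const_nhds.congr' ?_
      filter_upwards [(hM z hzT).2] with k hk
      show 0 = coef 𝕜 (q + 1) (extDeriv (fun y => kap k y • β y) z) - f z
      rw [hd k z hzT, hk.1, hk.2, one_smul, hz]
      have : (0 : (ℂ × ℂ) →L[ℝ] ℝ).smulRight (β z) = 0 := by
        refine ContinuousLinearMap.ext fun ξ => ?_
        ext v
        simp
      rw [this, ← ContinuousAlternatingMap.alternatizeUncurryFinCLM_apply, map_zero, add_zero,
        sub_self]

end Pool.Agent.H188Z
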