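import Mathlib

/-! Extension by density of integral operators; compactness of kernel operators. -/

set_option autoImplicit false

open scoped Topology ENNReal InnerProductSpace
open Set Metric MeasureTheory Filter

noncomputable section

namespace Pool.Agent.H188Z

variable {Z : Type*} [MeasurableSpace Z] {μ : Measure Z}

theorem eLpNorm_two_eq {Λ : Type*} [NormedAddCommGroup Λ] (f : Z → Λ) :
    eLpNorm f 2 μ = (∫⁻ z, ‖f z‖ₑ ^ (2 : ℝ) ∂μ) ^ (1 / (2 : ℝ)) := by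
  rw [eLpNorm_eq_lintegral_rpow_enorm_toReal (by norm_num) (by norm_num)]
  simp only [ENNReal.toReal_ofNat]

theorem eLpNorm_two_sq {Λ : Type*} [NormedAddCommGroup Λ] (f : Z → Λ) :
    eLpNorm f 2 μ ^ (2 : ℝ) = ∫⁻ z, ‖f z‖ₑ ^ (2 : ℝ) ∂μ := by
  rw [eLpNorm_two_eq, ← ENNReal.rpow_mul]
  norm_num

theorem eLpNorm_two_le {Λ : Type*} [NormedAddCommGroup Λ] {f : Z → Λ} {c : ℝ≥0∞}
    (h : ∫⁻ z, ‖f z‖ₑ ^ (2 : ℝ) ∂μ ≤ c ^ (2 : ℝ)) : eLpNorm f 2 μ ≤ c := by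
  rw [eLpNorm_two_eq]
  calc _ ≤ (c ^ (2 : ℝ)) ^ (1 / (2 : ℝ)) := ENNReal.rpow_le_rpow h (by norm_num)
    _ = c := by rw [← ENNReal.rpow_mul]; norm_num

theorem tendsto_eLpNorm_of_dom {Λ : Type*} [NormedAddCommGroup Λ] {g : ℕ → Z → Λ}
    (hm : ∀ n, AEStronglyMeasurable (g n) μ) {F : Z → ℝ} (hF : MemLp F 2 μ)
    (hb : ∀ n, ∀ᵐ z ∂μ, ‖g n z‖ ≤ F z) (hl : ∀ᵐ z ∂μ, Tendsto (fun n => g n z) atTop (𝓝 0)) :
    Tendsto (fun n => eLpNorm (g n) 2 μ) atTop (𝓝 0) := by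
  simp only [eLpNorm_two_eq]
  have h1 : Tendsto (fun n => ∫⁻ z, ‖g n z‖ₑ ^ (2 : ℝ) ∂μ) atTop (𝓝 (∫⁻ _ : Z, 0 ∂μ)) := by
    refine tendsto_lintegral_of_dominated_convergence' (fun z => ‖F z‖ₑ ^ (2 : ℝ))
      (fun n => (hm n).enorm.pow_const _) (fun n => ?_) ?_ ?_
    · filter_upwards [hb n] with z hz
      refine ENNReal.rpow_le_rpow ?_ (by norm_num)
      rw [← ofReal_norm_eq_enorm, ← ofReal_norm_eq_enorm]
      exact ENNReal.ofReal_le_ofReal (hz.trans (le_abs_self _))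
    · rw [← eLpNorm_two_sq]
      exact (ENNReal.rpow_lt_top_of_nonneg (by norm_num) hF.2.ne).ne
    · filter_upwards [hl] with z hz
      have h2 : Tendsto (fun n => ‖g n z‖ₑ) atTop (𝓝 0) := by
        simpa using hz.enorm
      have h3 := (ENNReal.continuous_rpow_const (y := (2 : ℝ))).tendsto 0
      rw [ENNReal.zero_rpow_of_pos (by norm_num)] at h3
      exact h3.comp h2
  rw [lintegral_zero] at h1
  have h3 := (ENNReal.continuous_rpow_const (y := (1 / (2 : ℝ)))).tendsto 0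
  rw [ENNReal.zero_rpow_of_pos (by norm_num)] at h3
  exact h3.comp h1

variable {𝕜 : Type*} [RCLike 𝕜] {S X : Type*} [AddCommGroup S] [Module 𝕜 S]
  [NormedAddCommGroup X]

theorem exists_extend {Λ : Type*} [NormedAddCommGroup Λ] [NormedSpace 𝕜 Λ] [CompleteSpace Λ]
    [NormedSpace 𝕜 X] (e : S →ₗ[𝕜] X) (he : DenseRange e) (k : S →ₗ[𝕜] (Z → Λ))
    (hm : ∀ u, AEStronglyMeasurable (k u) μ) {C : ℝ} (hC : 0 ≤ C)
    (hb : ∀ u, eLpNorm (k u) 2 μ ≤ ENNReal.ofReal (C * ‖e u‖)) :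
    ∃ A : X →L[𝕜] Lp Λ 2 μ, ‖A‖ ≤ C ∧ ∀ u, A (e u) =ᵐ[μ] k u := by
  have hmem : ∀ u, MemLp (k u) 2 μ := fun u => ⟨hm u, (hb u).trans_lt ENNReal.ofReal_lt_top⟩
  let f : S →ₗ[𝕜] Lp Λ 2 μ :=
    { toFun := fun u => (hmem u).toLp (k u)
      map_add' := fun u v => by
        rw [← MemLp.toLp_add]
        congr 1
        exact map_add k u v
      map_smul' := fun c u => by
        rw [RingHom.id_apply, ← MemLp.toLp_const_smul]
        congr 1
        exact map_smul k c u }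
  have hf : ∀ u, ‖f u‖ ≤ C * ‖e u‖ := by
    intro u
    show ‖(hmem u).toLp (k u)‖ ≤ _
    rw [Lp.norm_toLp]
    exact ENNReal.toReal_le_of_le_ofReal (by positivity) (hb u)
  refine ⟨f.extendOfNorm e, LinearMap.opNorm_extendOfNorm_le he hC hf, fun u => ?_⟩
  rw [LinearMap.extendOfNorm_eq he ⟨C, hf⟩]
  exact (hmem u).coeFn_toLp

theorem exists_weak_subseq [InnerProductSpace 𝕜 X] [CompleteSpace X]
    [TopologicalSpace.SeparableSpace X] (x : ℕ → X) (hx : ∀ n, ‖x n‖ ≤ 1) :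
    ∃ y : X, ‖y‖ ≤ 1 ∧ ∃ φ : ℕ → ℕ, StrictMono φ ∧
      ∀ v, Tendsto (fun n => ⟪v, x (φ n)⟫_𝕜) atTop (𝓝 ⟪v, y⟫_𝕜) := by
  have h := WeakDual.isSeqCompact_closedBall 𝕜 X (0 : StrongDual 𝕜 X) 1
  obtain ⟨a, ha, φ, hφ, hlim⟩ := h (x := fun n => StrongDual.toWeakDual
    (InnerProductSpace.toDual 𝕜 X (x n))) (fun n => by simpa using hx n)
  refine ⟨(InnerProductSpace.toDual 𝕜 X).symm (WeakDual.toStrongDual a), ?_, φ, hφ, fun v => ?_⟩
  · simpa using ha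
  · have h1 := ((WeakDual.eval_continuous v).tendsto a).comp hlim
    have h2 := (RCLike.continuous_conj.tendsto _).comp h1
    rw [← inner_conj_symm, InnerProductSpace.toDual_symm_apply]
    refine h2.congr fun n => ?_
    simp only [Function.comp]
    rw [← inner_conj_symm]
    rfl

theorem exists_compact_extend {ι : Type*} [Fintype ι] [InnerProductSpace 𝕜 X] [CompleteSpace X]
    [TopologicalSpace.SeparableSpace X] (e : S →ₗ[𝕜] X) (he : DenseRange e)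
    (k : S →ₗ[𝕜] (Z → EuclideanSpace 𝕜 ι))
    (hm : ∀ u, AEStronglyMeasurable (k u) μ) {F : Z → ℝ} (hF : MemLp F 2 μ)
    (hb : ∀ᵐ z ∂μ, ∀ u, ‖k u z‖ ≤ F z * ‖e u‖) :
    ∃ A : X →L[𝕜] Lp (EuclideanSpace 𝕜 ι) 2 μ, IsCompactOperator A ∧ ∀ u, A (e u) =ᵐ[μ] k u := by
  obtain ⟨A, -, hA⟩ := exists_extend e he k hm (C := (eLpNorm F 2 μ).toReal) ENNReal.toReal_nonneg
    (fun u => by
      rw [ENNReal.ofReal_mul ENNReal.toReal_nonneg, ENNReal.ofReal_toReal hF.2.ne]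
      calc eLpNorm (k u) 2 μ ≤ eLpNorm (‖e u‖ • F) 2 μ := by
            refine eLpNorm_mono_ae ?_
            filter_upwards [hb] with z hz
            refine (hz u).trans ?_
            rw [mul_comm]
            exact le_abs_self _
        _ = _ := by rw [eLpNorm_const_smul, mul_comm, ofReal_norm_eq_enorm, enorm_norm])
  refine ⟨A, ?_, hA⟩
  let ℓ : Z → X →L[𝕜] EuclideanSpace 𝕜 ι := fun z =>
    ((LinearMap.proj z).comp k).extendOfNorm e
  have hℓ : ∀ᵐ z ∂μ, (∀ u, ℓ z (e u) = k u z) ∧ ∀ x, ‖ℓ z x‖ ≤ F z * ‖x‖ := by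
    filter_upwards [hb] with z hz
    exact ⟨fun u => LinearMap.extendOfNorm_eq he ⟨F z, hz⟩ u,
      fun x => LinearMap.norm_extendOfNorm_apply_le he (F z) hz x⟩
  have hrep : ∀ x, A x =ᵐ[μ] fun z => ℓ z x := by
    intro x
    obtain ⟨y, hy1, hy2⟩ := mem_closure_iff_seq_limit.1 (he x)
    choose u hu using hy1
    have h1 : Tendsto (fun n => A (y n)) atTop (𝓝 (A x)) := (A.continuous.tendsto x).comp hy2
    obtain ⟨φ, hφ, h2⟩ := (tendstoInMeasure_of_tendsto_Lp h1).exists_seq_tendsto_ae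
    have h3 : ∀ᵐ z ∂μ, ∀ n, A (e (u n)) z = k (u n) z := ae_all_iff.2 fun n => hA (u n)
    filter_upwards [h2, h3, hℓ] with z hz2 hz3 hz4
    have h5 : Tendsto (fun n => ℓ z (y (φ n))) atTop (𝓝 (ℓ z x)) :=
      ((ℓ z).continuous.tendsto x).comp (hy2.comp hφ.tendsto_atTop)
    refine tendsto_nhds_unique hz2 (h5.congr fun n => ?_)
    rw [← hu, hz4.1, hz3]
  refine ⟨A '' closedBall 0 1, ?_, mem_of_superset (closedBall_mem_nhds 0 one_pos)
    (subset_preimage_image _ _)⟩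
  rw [isCompact_iff_isSeqCompact]
  intro g hg
  choose x hx1 hx2 using hg
  simp only [mem_closedBall_zero_iff] at hx1
  obtain ⟨y, hy, φ, hφ, hw⟩ := exists_weak_subseq (𝕜 := 𝕜) x hx1
  refine ⟨A y, ⟨y, mem_closedBall_zero_iff.2 hy, rfl⟩, φ, hφ, ?_⟩
  rw [Lp.tendsto_Lp_iff_tendsto_eLpNorm']
  have hall : ∀ᵐ z ∂μ, ∀ n, (g (φ n) : Z → _) z - A y z = ℓ z (x (φ n) - y) := by
    rw [ae_all_iff]
    intro n
    filter_upwards [hrep (x (φ n)), hrep y] with z h1 h2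
    rw [← hx2, h1, h2, map_sub]
  refine tendsto_eLpNorm_of_dom (F := fun z => 2 * ‖F z‖)
    (fun n => (Lp.aestronglyMeasurable _).sub (Lp.aestronglyMeasurable _))
    (hF.norm.const_mul 2) (fun n => ?_) ?_
  · filter_upwards [hall, hℓ] with z h1 h2
    show ‖(g (φ n) : Z → _) z - A y z‖ ≤ _
    rw [h1]
    refine (h2.2 _).trans ?_
    rw [mul_comm 2]
    exact mul_le_mul (le_abs_self _) ((norm_sub_le _ _).trans (by linarith [hx1 (φ n)]))
      (norm_nonneg _) (norm_nonneg _)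
  · filter_upwards [hall] with z h1
    have h2 : Tendsto (fun n => ℓ z (x (φ n) - y)) atTop (𝓝 0) := by
      have h3 : ∀ i, Tendsto (fun n => ℓ z (x (φ n) - y) i) atTop (𝓝 0) := by
        intro i
        let f : X →L[𝕜] 𝕜 := (EuclideanSpace.proj i).comp (ℓ z)
        have h4 := (hw ((InnerProductSpace.toDual 𝕜 X).symm f)).sub_const
          ⟪(InnerProductSpace.toDual 𝕜 X).symm f, y⟫_𝕜
        rw [sub_self] at h4
        refine h4.congr fun n => ?_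
        rw [← inner_sub_right, InnerProductSpace.toDual_symm_apply]
        rfl
      have h5 : Tendsto (fun n => WithLp.ofLp (ℓ z (x (φ n) - y))) atTop (𝓝 0) :=
        tendsto_pi_nhds.2 h3
      exact ((PiLp.continuous_toLp 2 _).tendsto 0).comp h5
    exact h2.congr fun n => (h1 n).symm

end Pool.Agent.H188Z
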