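import Pool.Agent.H188Z.Weak

/-! The two families of self-maps of the Hartogs triangle and their derivatives. -/

set_option autoImplicit false

open scoped Topology ENNReal ContDiff NNReal
open Set Metric MeasureTheory Filter Complex

noncomputable section

namespace Pool.Agent.H188Z

theorem lintegral_comp_tri (a b c : ℂ) (hab : a * b ≠ 0) (m : ℂ × ℂ) {h : ℂ × ℂ → ℝ≥0∞}
    (hh : Measurable h) :
    ∫⁻ z : ℂ × ℂ, h (m + (a * z.1 + c * z.2, b * z.2)) =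
      ENNReal.ofReal ((‖a * b‖ ^ 2)⁻¹) * ∫⁻ z, h z := by
  let L : (ℂ × ℂ) →ₗ[ℂ] (ℂ × ℂ) :=
    Matrix.toLin (Module.Basis.finTwoProd ℂ) (Module.Basis.finTwoProd ℂ) !![a, c; 0, b]
  have hL : ∀ z : ℂ × ℂ, L z = (a * z.1 + c * z.2, b * z.2) := by
    intro z
    simp [L, Matrix.toLin_finTwoProd_apply]
  have hdet : LinearMap.det (L.restrictScalars ℝ) = ‖a * b‖ ^ 2 := by
    rw [LinearMap.det_restrictScalars, LinearMap.det_toLin, Matrix.det_fin_two_of, mul_zero,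
      sub_zero, Algebra.norm_complex_apply, Complex.normSq_eq_norm_sq]
  have hne : LinearMap.det (L.restrictScalars ℝ) ≠ 0 := by
    rw [hdet]
    exact pow_ne_zero 2 (norm_ne_zero_iff.2 hab)
  have h1 := Measure.map_linearMap_addHaar_eq_smul_addHaar (volume : Measure (ℂ × ℂ)) hne
  have hm : Measurable (L.restrictScalars ℝ) :=
    (L.restrictScalars ℝ).continuous_of_finiteDimensional.measurable
  have h2 := lintegral_map (μ := volume) (f := fun y => h (m + y)) (hh.comp (measurable_const_add m)) hm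
  rw [h1, lintegral_smul_measure, lintegral_add_left_eq_self, hdet, abs_of_nonneg (by positivity),
    smul_eq_mul] at h2
  rw [h2]
  simp only [LinearMap.coe_restrictScalars, hL]

/-- The linear maps `y ↦ ((1-4t) y₁ + t v₁ y₂, (1-2t) y₂ + t v₂ y₂)`. -/
def gmap (t : ℝ) (v y : ℂ × ℂ) : ℂ × ℂ :=
  ((1 - 4 * t) • y.1, (1 - 2 * t) • y.2) + ((t : ℂ) * y.2) • v

def Lmap (t : ℝ) (v : ℂ × ℂ) : (ℂ × ℂ) →L[ℝ] (ℂ × ℂ) :=
  LinearMap.toContinuousLinearMap
    { toFun := gmap t v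
      map_add' := fun x y => by
        ext <;> simp [gmap] <;> ring
      map_smul' := fun c x => by
        ext <;> simp [gmap] <;> ring }

theorem Lmap_apply (t : ℝ) (v y : ℂ × ℂ) : Lmap t v y = gmap t v y := rfl

theorem gmap_fst (t : ℝ) (v y : ℂ × ℂ) :
    (gmap t v y).1 = ((1 - 4 * t : ℝ) : ℂ) * y.1 + (t : ℂ) * v.1 * y.2 := by
  simp [gmap]; ring

theorem gmap_snd (t : ℝ) (v y : ℂ × ℂ) :
    (gmap t v y).2 = (((1 - 2 * t : ℝ) : ℂ) + (t : ℂ) * v.2) * y.2 := by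
  simp [gmap]; ring

section bounds

variable {t : ℝ} {v : ℂ × ℂ}

theorem norm_coef_b (ht0 : 0 ≤ t) (ht : t ≤ 1 / 8) (hv : ‖v‖ ≤ 1) :
    1 - 3 * t ≤ ‖((1 - 2 * t : ℝ) : ℂ) + (t : ℂ) * v.2‖ ∧
      ‖((1 - 2 * t : ℝ) : ℂ) + (t : ℂ) * v.2‖ ≤ 1 - t := by
  have h1 : ‖((1 - 2 * t : ℝ) : ℂ)‖ = 1 - 2 * t := by
    rw [Complex.norm_real, Real.norm_of_nonneg (by linarith)]
  have h2 : ‖(t : ℂ) * v.2‖ ≤ t := by
    rw [norm_mul, Complex.norm_real, Real.norm_of_nonneg ht0]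
    exact mul_le_of_le_one_right ht0 ((norm_snd_le v).trans hv)
  constructor
  · have := norm_sub_le (((1 - 2 * t : ℝ) : ℂ) + (t : ℂ) * v.2) ((t : ℂ) * v.2)
    rw [add_sub_cancel_right, h1] at this
    linarith
  · have := norm_add_le ((1 - 2 * t : ℝ) : ℂ) ((t : ℂ) * v.2)
    linarith

theorem norm_gmap_fst (ht0 : 0 ≤ t) (ht : t ≤ 1 / 8) (hv : ‖v‖ ≤ 1) (y : ℂ × ℂ) :
    ‖(gmap t v y).1‖ ≤ (1 - 4 * t) * ‖y.1‖ + t * ‖y.2‖ := by
  rw [gmap_fst]
  refine (norm_add_le _ _).trans (add_le_add ?_ ?_)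
  · rw [norm_mul, Complex.norm_real, Real.norm_of_nonneg (by linarith)]
  · rw [norm_mul, norm_mul, Complex.norm_real, Real.norm_of_nonneg ht0]
    gcongr
    exact mul_le_of_le_one_right ht0 ((norm_fst_le v).trans hv)

theorem gmap_mem (ht0 : 0 ≤ t) (ht : t ≤ 1 / 8) (hv : ‖v‖ ≤ 1) {y : ℂ × ℂ} (hy : y ∈ hartogs) :
    gmap t v y ∈ hartogs := by
  obtain ⟨h1, h2⟩ := norm_coef_b ht0 ht hv
  have h3 := norm_gmap_fst ht0 ht hv y
  have h4 := hy.1
  have h5 := hy.2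
  have h6 := norm_nonneg y.1
  constructor
  · rw [gmap_snd, norm_mul]
    nlinarith
  · rw [gmap_snd, norm_mul]
    nlinarith

theorem norm_Lmap_le (ht0 : 0 ≤ t) (ht : t ≤ 1 / 8) (hv : ‖v‖ ≤ 1) : ‖Lmap t v‖ ≤ 1 := by
  refine ContinuousLinearMap.opNorm_le_bound _ zero_le_one fun y => ?_
  obtain ⟨h1, h2⟩ := norm_coef_b ht0 ht hv
  have h3 := norm_gmap_fst ht0 ht hv y
  have h4 := norm_fst_le y
  have h5 := norm_snd_le y
  have h6 := norm_nonneg y.1
  have h7 := norm_nonneg y.2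
  rw [one_mul, Lmap_apply, norm_prod_le_iff]
  constructor
  · nlinarith
  · rw [gmap_snd, norm_mul]
    nlinarith

end bounds

/-- The rotation factor. -/
def rot (τ : ℝ) : ℂ := Complex.exp (((2 * Real.pi * τ : ℝ) : ℂ) * I)

theorem norm_rot (τ : ℝ) : ‖rot τ‖ = 1 := Complex.norm_exp_ofReal_mul_I _

theorem rot_zero : rot 0 = 1 := by simp [rot]

theorem contDiff_rot : ContDiff ℝ ∞ rot :=
  (Complex.contDiff_exp (𝕜 := ℝ)).comp
    ((Complex.ofRealCLM.contDiff.comp (contDiff_const.mul contDiff_id)).mul contDiff_const)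

theorem hasDerivAt_rot (τ : ℝ) : HasDerivAt rot (rot τ * ((2 * Real.pi : ℝ) * I)) τ := by
  have h1 : HasDerivAt (fun τ : ℝ => (((2 * Real.pi * τ : ℝ) : ℂ)) * I)
      (((2 * Real.pi : ℝ) : ℂ) * I) τ := by
    have := ((hasDerivAt_id τ).const_mul (2 * Real.pi)).ofReal_comp.mul_const I
    simpa using this
  exact h1.cexp

/-- The unit vector in the direction of `y`. -/
def unit (y : ℂ) : ℂ := ‖y‖⁻¹ • y

theorem norm_unit {y : ℂ} (hy : y ≠ 0) : ‖unit y‖ = 1 := by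
  rw [unit, norm_smul, norm_inv, norm_norm, inv_mul_cancel₀ (norm_ne_zero_iff.2 hy)]

/-- The form `d arg z₂`. -/
def ang (z : ℂ × ℂ) : (ℂ × ℂ) →L[ℝ] ℝ :=
  (‖z.2‖ ^ 2)⁻¹ • (z.2.re • (imCLM.comp (ContinuousLinearMap.snd ℝ ℂ ℂ)) -
    z.2.im • (reCLM.comp (ContinuousLinearMap.snd ℝ ℂ ℂ)))

theorem ang_apply (z ξ : ℂ × ℂ) :
    ang z ξ = (‖z.2‖ ^ 2)⁻¹ * (z.2.re * ξ.2.im - z.2.im * ξ.2.re) := by
  simp [ang]

theorem norm_ang_le {z : ℂ × ℂ} (hz : z.2 ≠ 0) (ξ : ℂ × ℂ) : |ang z ξ| ≤ ‖z.2‖⁻¹ * ‖ξ‖ := by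
  have h0 : 0 < ‖z.2‖ := norm_pos_iff.2 hz
  have h1 : z.2.re * ξ.2.im - z.2.im * ξ.2.re = ((starRingEnd ℂ) z.2 * ξ.2).im := by
    simp; ring
  rw [ang_apply, h1, abs_mul, abs_of_pos (by positivity)]
  have h2 : |((starRingEnd ℂ) z.2 * ξ.2).im| ≤ ‖z.2‖ * ‖ξ‖ := by
    refine (Complex.abs_im_le_norm _).trans ?_
    rw [norm_mul, RCLike.norm_conj]
    gcongr
    exact norm_snd_le ξ
  calc (‖z.2‖ ^ 2)⁻¹ * |((starRingEnd ℂ) z.2 * ξ.2).im| ≤ (‖z.2‖ ^ 2)⁻¹ * (‖z.2‖ * ‖ξ‖) := by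
        gcongr
    _ = _ := by field_simp

theorem hasFDerivAt_unit {z : ℂ × ℂ} (hz : z.2 ≠ 0) :
    HasFDerivAt (fun y : ℂ × ℂ => unit y.2) ((ang z).smulRight (I * unit z.2)) z := by
  have h0 : 0 < ‖z.2‖ := norm_pos_iff.2 hz
  have h1 : HasFDerivAt (fun y : ℂ × ℂ => y.2) (ContinuousLinearMap.snd ℝ ℂ ℂ) z :=
    hasFDerivAt_snd
  have h2 := h1.norm_sq.sqrt (pow_ne_zero 2 h0.ne')
  simp only [Real.sqrt_sq (norm_nonneg _)] at h2
  have h3 := ((hasDerivAt_inv h0.ne').comp_hasFDerivAt z h2).smul h1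
  refine h3.congr_fderiv ?_
  refine ContinuousLinearMap.ext fun ξ => ?_
  have h4 : ‖z.2‖ ^ 2 = z.2.re * z.2.re + z.2.im * z.2.im := by
    rw [Complex.sq_norm, Complex.normSq_apply]
  simp only [ContinuousLinearMap.add_apply, ContinuousLinearMap.smul_apply,
    ContinuousLinearMap.smulRight_apply, ContinuousLinearMap.comp_apply,
    ContinuousLinearMap.coe_snd', innerSL_apply_apply, ang_apply, unit, Function.comp,
    Complex.inner, smul_eq_mul, nsmul_eq_mul]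
  apply Complex.ext
  · simp only [Complex.add_re, Complex.smul_re, Complex.mul_re, Complex.I_re, Complex.I_im,
      Complex.smul_im, Complex.conj_re, Complex.conj_im, smul_eq_mul]
    field_simp
    rw [h4]
    push_cast
    ring
  · simp only [Complex.add_im, Complex.smul_re, Complex.mul_re, Complex.mul_im, Complex.I_re,
      Complex.I_im, Complex.smul_im, Complex.conj_re, Complex.conj_im, smul_eq_mul]
    field_simp
    rw [h4]
    push_cast
    ring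

/-- The contraction onto the circle `{0} × {|z₂| = 1/2}` combined with a rotation. -/
def phi (s α : ℝ) (z : ℂ × ℂ) : ℂ × ℂ :=
  ((1 - s) • z.1, rot (s * α) * ((1 - s) • z.2 + (s / 2) • unit z.2))

theorem phi_zero (α : ℝ) (z : ℂ × ℂ) : phi 0 α z = z := by simp [phi, rot_zero]

theorem norm_phi_snd {s : ℝ} (hs : s ∈ Icc (0 : ℝ) 1) (α : ℝ) {z : ℂ × ℂ} (hz : z.2 ≠ 0) :
    ‖(phi s α z).2‖ = (1 - s) * ‖z.2‖ + s / 2 := by
  have h0 : 0 < ‖z.2‖ := norm_pos_iff.2 hz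
  have h1 := hs.1
  have h2 : 0 ≤ 1 - s := sub_nonneg.2 hs.2
  show ‖rot (s * α) * _‖ = _
  rw [norm_mul, norm_rot, one_mul, unit, smul_smul, ← add_smul, norm_smul,
    Real.norm_of_nonneg (by positivity)]
  field_simp

theorem phi_mem {s : ℝ} (hs : s ∈ Icc (0 : ℝ) 1) (α : ℝ) {z : ℂ × ℂ} (hz : z ∈ hartogs) :
    phi s α z ∈ hartogs := by
  have h1 := hs.1
  have h2 : 0 ≤ 1 - s := sub_nonneg.2 hs.2
  have h3 : ‖(phi s α z).1‖ = (1 - s) * ‖z.1‖ := by
    show ‖(1 - s) • z.1‖ = _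
    rw [norm_smul, Real.norm_of_nonneg h2]
  have h4 := hz.1
  have h5 := hz.2
  have h6 := norm_nonneg z.1
  constructor
  · rw [h3, norm_phi_snd hs α (snd_ne hz)]
    rcases h1.eq_or_lt with h | h
    · rw [← h]
      simpa using h4
    · nlinarith
  · rw [norm_phi_snd hs α (snd_ne hz)]
    nlinarith

/-- The parameter space of the averages. -/
abbrev Par : Type := ℝ × (ℂ × ℂ)

def G1 (ε : ℝ) (x : (ℝ × Par) × (ℂ × ℂ)) : ℂ × ℂ := gmap (x.1.1 * ε) x.1.2.2 x.2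

def G2 (ε : ℝ) (x : (ℝ × Par) × (ℂ × ℂ)) : ℂ × ℂ := gmap ε x.1.2.2 (phi x.1.1 x.1.2.1 x.2)

theorem contDiff_gmap : ContDiff ℝ ∞ (fun x : ℝ × (ℂ × ℂ) × (ℂ × ℂ) => gmap x.1 x.2.1 x.2.2) := by
  unfold gmap
  have h1 : ContDiff ℝ ∞ (fun x : ℝ × (ℂ × ℂ) × (ℂ × ℂ) => (x.1 : ℂ)) :=
    Complex.ofRealCLM.contDiff.comp contDiff_fst
  refine ContDiff.add (by fun_prop) (ContDiff.smul (h1.mul (by fun_prop)) (by fun_prop))

theorem contDiff_G1 (ε : ℝ) : ContDiff ℝ ∞ (G1 ε) :=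
  contDiff_gmap.comp (f := fun x : (ℝ × Par) × (ℂ × ℂ) => (x.1.1 * ε, x.1.2.2, x.2)) (by fun_prop)

theorem contDiffAt_unit {y : ℂ} (hy : y ≠ 0) : ContDiffAt ℝ ∞ unit y :=
  ((contDiffAt_norm ℝ hy).inv (norm_ne_zero_iff.2 hy)).smul contDiffAt_id

theorem contDiffAt_G2 (ε : ℝ) {x : (ℝ × Par) × (ℂ × ℂ)} (hx : x.2.2 ≠ 0) :
    ContDiffAt ℝ ∞ (G2 ε) x := by
  refine contDiff_gmap.contDiffAt.comp
    (f := fun x : (ℝ × Par) × (ℂ × ℂ) => (ε, x.1.2.2, phi x.1.1 x.1.2.1 x.2)) x ?_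
  refine contDiffAt_const.prodMk (ContDiffAt.prodMk (by fun_prop) ?_)
  unfold phi
  refine ContDiffAt.prodMk (by fun_prop) (ContDiffAt.mul ?_ (ContDiffAt.add (by fun_prop)
    (ContDiffAt.smul (f := fun x : (ℝ × Par) × (ℂ × ℂ) => x.1.1 / 2) (by fun_prop) ?_)))
  · exact contDiff_rot.contDiffAt.comp x
      (f := fun x : (ℝ × Par) × (ℂ × ℂ) => x.1.1 * x.1.2.1) (by fun_prop)
  · exact (contDiffAt_unit hx).comp x (f := fun x : (ℝ × Par) × (ℂ × ℂ) => x.2.2) (by fun_prop)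

section fd

variable {Q E E' : Type*} [NormedAddCommGroup Q] [NormedSpace ℝ Q]
  [NormedAddCommGroup E] [NormedSpace ℝ E] [NormedAddCommGroup E'] [NormedSpace ℝ E']

theorem fderiv_inr_eq {G : Q × E → E'} {p : Q} {z : E} (hG : DifferentiableAt ℝ G (p, z))
    {D : E →L[ℝ] E'} (h : HasFDerivAt (fun y => G (p, y)) D z) :
    (fderiv ℝ G (p, z)).comp (ContinuousLinearMap.inr ℝ Q E) = D :=
  (hG.hasFDerivAt.comp z (hasFDerivAt_prodMk_right p z)).unique h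

theorem fderiv_time_eq {G : (ℝ × Q) × E → E'} {s : ℝ} {p : Q} {z : E}
    (hG : DifferentiableAt ℝ G ((s, p), z)) {D : E'}
    (h : HasDerivAt (fun r => G ((r, p), z)) D s) :
    fderiv ℝ G ((s, p), z) ((1, 0), 0) = D := by
  have h1 : HasDerivAt (fun s : ℝ => ((s, p), z)) (((1 : ℝ), (0 : Q)), (0 : E)) s :=
    ((hasDerivAt_id s).prodMk (hasDerivAt_const s p)).prodMk (hasDerivAt_const s z)
  exact (hG.hasFDerivAt.comp_hasDerivAt s h1).unique h

end fd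

theorem fderiv_G1_space (ε s : ℝ) (p : Par) (z : ℂ × ℂ) :
    (fderiv ℝ (G1 ε) ((s, p), z)).comp (ContinuousLinearMap.inr ℝ _ _) = Lmap (s * ε) p.2 :=
  fderiv_inr_eq ((contDiff_G1 ε).differentiable (by simp) _) (Lmap (s * ε) p.2).hasFDerivAt

theorem norm_fderiv_G1_time {ε : ℝ} (hε : 0 ≤ ε) (s : ℝ) {p : Par} (hp : ‖p.2‖ ≤ 1) {z : ℂ × ℂ}
    (hz : ‖z‖ ≤ 1) : ‖fderiv ℝ (G1 ε) ((s, p), z) ((1, 0), 0)‖ ≤ 5 * ε := by
  have h1 : HasDerivAt (fun r => G1 ε ((r, p), z))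
      (ε • (((-4 : ℝ) • z.1, (-2 : ℝ) • z.2) + z.2 • p.2)) s := by
    have h2 : (fun r => G1 ε ((r, p), z)) =
        fun r => z + r • ε • (((-4 : ℝ) • z.1, (-2 : ℝ) • z.2) + z.2 • p.2) := by
      funext r
      ext <;> simp [G1, gmap] <;> ring
    rw [h2]
    simpa using ((hasDerivAt_id s).smul_const
      (ε • (((-4 : ℝ) • z.1, (-2 : ℝ) • z.2) + z.2 • p.2))).const_add z
  rw [fderiv_time_eq ((contDiff_G1 ε).differentiable (by simp) _) h1, norm_smul,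
    Real.norm_of_nonneg hε, mul_comm]
  gcongr
  have h3 := (norm_fst_le z).trans hz
  have h4 := (norm_snd_le z).trans hz
  have h5 : ‖z.2 • p.2‖ ≤ 1 := by
    rw [norm_smul]
    exact mul_le_one₀ h4 (norm_nonneg _) hp
  have h6 : ‖(((-4 : ℝ) • z.1, (-2 : ℝ) • z.2) : ℂ × ℂ)‖ ≤ 4 := by
    rw [norm_prod_le_iff]
    simp only [norm_smul, norm_neg, Real.norm_ofNat]
    constructor <;> linarith
  exact (norm_add_le _ _).trans (by linarith)

/-- The rotation of the second coordinate as a linear map. -/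
def rotL (τ : ℝ) : (ℂ × ℂ) →L[ℝ] (ℂ × ℂ) :=
  (ContinuousLinearMap.fst ℝ ℂ ℂ).prod (rot τ • ContinuousLinearMap.snd ℝ ℂ ℂ)

theorem rotL_apply (τ : ℝ) (ξ : ℂ × ℂ) : rotL τ ξ = (ξ.1, rot τ * ξ.2) := rfl

theorem norm_rotL_apply (τ : ℝ) (ξ : ℂ × ℂ) : ‖rotL τ ξ‖ = ‖ξ‖ := by
  rw [rotL_apply, Prod.norm_def, Prod.norm_def, norm_mul, norm_rot, one_mul]

/-- The direction of the rank one part of the derivative. -/
def nvec (ε s : ℝ) (p : Par) (z : ℂ × ℂ) : ℂ × ℂ :=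
  Lmap ε p.2 (0, rot (s * p.1) * (I * unit z.2))

theorem fderiv_G2_space (ε s : ℝ) (p : Par) {z : ℂ × ℂ} (hz : z.2 ≠ 0) :
    (fderiv ℝ (G2 ε) ((s, p), z)).comp (ContinuousLinearMap.inr ℝ _ _) =
      (1 - s) • (Lmap ε p.2).comp (rotL (s * p.1)) +
        ((s / 2) • ang z).smulRight (nvec ε s p z) := by
  refine fderiv_inr_eq ((contDiffAt_G2 ε hz).differentiableAt (by simp)) ?_
  have h1 : HasFDerivAt (fun y : ℂ × ℂ => y.1) (ContinuousLinearMap.fst ℝ ℂ ℂ) z := hasFDerivAt_fst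
  have h2 : HasFDerivAt (fun y : ℂ × ℂ => y.2) (ContinuousLinearMap.snd ℝ ℂ ℂ) z := hasFDerivAt_snd
  have h3 := (h1.const_smul (1 - s)).prodMk (((h2.const_smul (1 - s)).add
    ((hasFDerivAt_unit hz).const_smul (s / 2))).const_mul (rot (s * p.1)))
  refine ((Lmap ε p.2).hasFDerivAt.comp z h3).congr_fderiv ?_
  refine ContinuousLinearMap.ext fun ξ => ?_
  simp only [ContinuousLinearMap.add_apply, ContinuousLinearMap.smul_apply,
    ContinuousLinearMap.smulRight_apply, ContinuousLinearMap.comp_apply, nvec, ← map_smul,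
    ← map_add, rotL_apply, ContinuousLinearMap.prod_apply, ContinuousLinearMap.coe_fst',
    ContinuousLinearMap.coe_snd']
  congr 1
  ext
  · simp
  · simp only [Prod.snd_add, Prod.smul_snd, smul_eq_mul, Complex.real_smul, map_smul]
    push_cast
    ring

theorem norm_fderiv_G2_time {ε : ℝ} (hε0 : 0 ≤ ε) (hε : ε ≤ 1 / 8) {s : ℝ}
    (hs : s ∈ Icc (0 : ℝ) 1) {p : Par} (hp1 : p.1 ∈ Icc (0 : ℝ) 1) (hp : ‖p.2‖ ≤ 1) {z : ℂ × ℂ}
    (hz : z ∈ hartogs) : ‖fderiv ℝ (G2 ε) ((s, p), z) ((1, 0), 0)‖ ≤ 10 := by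
  have h1 : HasDerivAt (fun r : ℝ => 1 - r) (-1) s := by simpa using (hasDerivAt_id s).const_sub 1
  have h2 : HasDerivAt (fun r : ℝ => r / 2) (1 / 2) s := (hasDerivAt_id s).div_const 2
  have h3 : HasDerivAt (fun r : ℝ => rot (r * p.1)) (p.1 • (rot (s * p.1) *
      ((2 * Real.pi : ℝ) * I))) s := by
    have := (hasDerivAt_rot (s * p.1)).scomp s ((hasDerivAt_id s).mul_const p.1)
    rw [one_mul] at this
    exact this
  have h4 := (h1.smul_const z.1).prodMk (h3.mul ((h1.smul_const z.2).add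
    (h2.smul_const (unit z.2))))
  have h5 := (Lmap ε p.2).hasFDerivAt.comp_hasDerivAt s h4
  rw [fderiv_time_eq ((contDiffAt_G2 ε (snd_ne hz)).differentiableAt (by simp)) h5]
  refine ((Lmap ε p.2).le_opNorm _).trans ?_
  refine (mul_le_of_le_one_left (norm_nonneg _) (norm_Lmap_le hε0 hε hp)).trans ?_
  rw [norm_prod_le_iff]
  have h6 := hz.1
  have h7 := hz.2
  constructor
  · simp only [neg_smul, one_smul, norm_neg]
    linarith
  · have h8 : ‖(1 - s) • z.2 + (s / 2) • unit z.2‖ ≤ 1 := by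
      have := (phi_mem hs 0 hz).2.le
      rw [phi] at this
      simpa [rot_zero] using this
    have h9 : ‖p.1 • (rot (s * p.1) * ((2 * Real.pi : ℝ) * I))‖ ≤ 8 := by
      rw [norm_smul, norm_mul, norm_mul, norm_rot, Complex.norm_I, Complex.norm_real,
        Real.norm_of_nonneg hp1.1, Real.norm_of_nonneg (by positivity)]
      nlinarith [Real.pi_le_four, Real.pi_pos, hp1.1, hp1.2]
    have h10 : ‖(-1 : ℝ) • z.2 + (1 / 2 : ℝ) • unit z.2‖ ≤ 2 := by
      refine (norm_add_le _ _).trans ?_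
      rw [norm_smul, norm_smul, norm_unit (snd_ne hz)]
      norm_num
      linarith
    refine (norm_add_le _ _).trans ?_
    rw [norm_mul, norm_mul, norm_rot]
    have h11 := mul_le_mul h9 h8 (norm_nonneg _) (by norm_num)
    have h12 : ‖(fun r : ℝ => (1 - r) • z.2) s + (fun r : ℝ => (r / 2) • unit z.2) s‖ =
      ‖(1 - s) • z.2 + (s / 2) • unit z.2‖ := rfl
    simp only [Pi.add_apply]
    linarith

theorem norm_nvec_le {ε : ℝ} (hε0 : 0 ≤ ε) (hε : ε ≤ 1 / 8) (s : ℝ) {p : Par} (hp : ‖p.2‖ ≤ 1)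
    {z : ℂ × ℂ} (hz : z.2 ≠ 0) : ‖nvec ε s p z‖ ≤ 1 := by
  refine ((Lmap ε p.2).le_opNorm _).trans (mul_le_one₀ (norm_Lmap_le hε0 hε hp) (norm_nonneg _) ?_)
  rw [norm_prod_le_iff, norm_zero, norm_mul, norm_mul, norm_rot, Complex.norm_I, norm_unit hz]
  norm_num

section rankone

variable {E E' F : Type*} [NormedAddCommGroup E] [NormedSpace ℝ E]
  [NormedAddCommGroup E'] [NormedSpace ℝ E'] [NormedAddCommGroup F] [NormedSpace ℝ F] {n : ℕ}

theorem norm_comp_rank_one (η : E' [⋀^Fin n]→L[ℝ] F) (M : E →L[ℝ] E') (hM : ∀ ξ, ‖M ξ‖ ≤ ‖ξ‖)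
    (l : E →L[ℝ] ℝ) {β : ℝ} (hβ : 0 ≤ β) (hl : ∀ ξ, |l ξ| ≤ β * ‖ξ‖) (a : E') (ha : ‖a‖ ≤ 1) :
    ‖η.compContinuousLinearMap (M + l.smulRight a)‖ ≤ 2 ^ n * (1 + β) * ‖η‖ := by
  classical
  refine ContinuousAlternatingMap.opNorm_le_bound _ (by positivity) fun v => ?_
  have h1 : η.compContinuousLinearMap (M + l.smulRight a) v =
      η ((fun i => l (v i) • a) + fun i => M (v i)) := by
    rw [ContinuousAlternatingMap.compContinuousLinearMap_apply]
    congr 1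
    funext i
    simp [add_comm]
  rw [h1, ContinuousAlternatingMap.map_add_univ]
  refine (norm_sum_le _ _).trans ?_
  have h2 : ∀ s : Finset (Fin n), ‖η (s.piecewise (fun i => l (v i) • a) fun i => M (v i))‖ ≤
      (1 + β) * ‖η‖ * ∏ i, ‖v i‖ := by
    intro s
    by_cases hs : ∃ i ∈ s, ∃ j ∈ s, i ≠ j
    · obtain ⟨i, hi, j, hj, hij⟩ := hs
      have h3 := η.toAlternatingMap.map_linearDependent
        (s.piecewise (fun i => l (v i) • a) fun i => M (v i)) (by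
          intro hli
          have h4 := (hli.comp ![i, j] (by
            intro x y hxy
            fin_cases x <;> fin_cases y <;> simp_all))
          rw [show (s.piecewise (fun i => l (v i) • a) fun i => M (v i)) ∘ ![i, j] =
            ![l (v i) • a, l (v j) • a] by
              funext x
              fin_cases x <;> simp [Finset.piecewise, hi, hj]] at h4
          rw [LinearIndependent.pair_iff] at h4
          have h5 := h4 (l (v j)) (-l (v i)) (by simp [smul_smul, mul_comm])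
          have h6 := h4 1 0 (by simp [neg_eq_zero.1 h5.2])
          exact one_ne_zero h6.1)
      have h7 : η (s.piecewise (fun i => l (v i) • a) fun i => M (v i)) = 0 := h3
      rw [h7, norm_zero]
      positivity
    · push Not at hs
      have h3 : ∀ i, ‖s.piecewise (fun i => l (v i) • a) (fun i => M (v i)) i‖ ≤
          (if i ∈ s then β else 1) * ‖v i‖ := by
        intro i
        by_cases hi : i ∈ s
        · rw [Finset.piecewise_eq_of_mem _ _ _ hi, if_pos hi, norm_smul]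
          exact (mul_le_of_le_one_right (norm_nonneg _) ha).trans (hl _)
        · rw [Finset.piecewise_eq_of_notMem _ _ _ hi, if_neg hi, one_mul]
          exact hM _
      refine (η.le_opNorm_mul_prod_of_le h3).trans ?_
      rw [Finset.prod_mul_distrib, ← mul_assoc, mul_comm ‖η‖]
      gcongr
      rw [Finset.prod_ite_mem, Finset.univ_inter, Finset.prod_const]
      rcases s.eq_empty_or_nonempty with h | ⟨i, hi⟩
      · simp [h, hβ]
      · have : s = {i} := Finset.eq_singleton_iff_unique_mem.2 ⟨hi, fun j hj => hs j hj i hi⟩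
        simp [this]
  refine (Finset.sum_le_sum fun s _ => h2 s).trans (le_of_eq ?_)
  rw [Finset.sum_const, Finset.card_univ, Fintype.card_finset, Fintype.card_fin, nsmul_eq_mul]
  push_cast
  ring

end rankone

end Pool.Agent.H188Z
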