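import Pool.Agent.H188Z.OpDefs

/-!
The `L²` de Rham complex of the Hartogs triangle: forms, the weak and the strong maximal
extensions of the exterior derivative, and the two Laplacians.
-/

set_option autoImplicit false

open MeasureTheory Filter Topology
open scoped LinearPMap ContDiff

noncomputable section

namespace Pool.Agent.H188Z

/-- The Hartogs triangle `{(z₁, z₂) : |z₁| < |z₂| < 1}`. -/
def hartogs : Set (ℂ × ℂ) := {z | ‖z.1‖ < ‖z.2‖ ∧ ‖z.2‖ < 1}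

/-- The standard orthonormal basis of `ℂ² = ℝ⁴`; real coordinates `Re z₁, Im z₁, Re z₂, Im z₂`. -/
def ebasis : Fin 4 → ℂ × ℂ := ![(1, 0), (Complex.I, 0), (0, 1), (0, Complex.I)]

/-- Coefficients `(u_I)` of a `q`-covector `∑ u_I dx_I` on `ℝ⁴`, over strictly increasing
multi-indices `I`, with the Euclidean inner product. -/
abbrev Cov (𝕜 : Type) [RCLike 𝕜] (q : ℕ) : Type := EuclideanSpace 𝕜 (Fin q ↪o Fin 4)

/-- The multi-index `J` with its `i`-th entry deleted. -/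
def face {q : ℕ} (J : Fin (q + 1) ↪o Fin 4) (i : Fin (q + 1)) : Fin q ↪o Fin 4 :=
  (Fin.succAboveOrderEmb i).trans J

variable (𝕜 : Type) [RCLike 𝕜]

/-- The Hilbert space `L²_q` of square integrable `q`-forms on the Hartogs triangle. -/
abbrev L2 (q : ℕ) : Type := Lp (Cov 𝕜 q) 2 (volume.restrict hartogs)

variable {𝕜}

/-- The classical exterior derivative, `(du)_J = ∑ᵢ (-1)^i ∂_{J i} u_{J without i}`. -/
def dcl {q : ℕ} (u : ℂ × ℂ → Cov 𝕜 q) (x : ℂ × ℂ) : Cov 𝕜 (q + 1) :=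
  WithLp.toLp 2 fun J => ∑ i : Fin (q + 1),
    (-1 : 𝕜) ^ (i : ℕ) * fderiv ℝ (fun y => u y (face J i)) x (ebasis (J i))

/-- `du = f` in the sense of distributions on the Hartogs triangle. -/
def IsWeakD {q : ℕ} (u : L2 𝕜 q) (f : L2 𝕜 (q + 1)) : Prop :=
  ∀ φ : ℂ × ℂ → ℝ, ContDiff ℝ ∞ φ → HasCompactSupport φ → tsupport φ ⊆ hartogs →
    ∀ J : Fin (q + 1) ↪o Fin 4,
      ∫ x in hartogs, (φ x : 𝕜) * f x J =
        -∑ i : Fin (q + 1), (-1 : 𝕜) ^ (i : ℕ) *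
          ∫ x in hartogs, (fderiv ℝ φ x (ebasis (J i)) : 𝕜) * u x (face J i)

/-- `u` and `f` are `L²` limits of `uₙ` and `d uₙ`, the `uₙ` being forms smooth up to the
boundary (restrictions of smooth forms on `ℝ⁴`). -/
def IsStrongD {q : ℕ} (u : L2 𝕜 q) (f : L2 𝕜 (q + 1)) : Prop :=
  ∃ v : ℕ → ℂ × ℂ → Cov 𝕜 q, (∀ n, ContDiff ℝ ∞ (v n)) ∧
    Tendsto (fun n => eLpNorm (fun x => v n x - u x) 2 (volume.restrict hartogs)) atTop (𝓝 0) ∧
    Tendsto (fun n => eLpNorm (fun x => dcl (v n) x - f x) 2 (volume.restrict hartogs))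
      atTop (𝓝 0)

variable (𝕜)

/-- The weak maximal extension `d`: the operator whose graph is `{(u, f) : IsWeakD u f}`
(a linear subspace, so the span adds nothing). -/
def dWeak (q : ℕ) : L2 𝕜 q →ₗ.[𝕜] L2 𝕜 (q + 1) :=
  (Submodule.span 𝕜 {p : L2 𝕜 q × L2 𝕜 (q + 1) | IsWeakD p.1 p.2}).toLinearPMap

/-- The strong maximal extension `d_s`: the operator whose graph is `{(u, f) : IsStrongD u f}`. -/
def dStrong (q : ℕ) : L2 𝕜 q →ₗ.[𝕜] L2 𝕜 (q + 1) :=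
  (Submodule.span 𝕜 {p : L2 𝕜 q × L2 𝕜 (q + 1) | IsStrongD p.1 p.2}).toLinearPMap

variable {𝕜}

/-- The Laplacian `D D* + D* D` on `L²_q` of a family `D` of extensions of the exterior
derivative (on functions it is `D* D`). -/
def laplacian (D : (q : ℕ) → L2 𝕜 q →ₗ.[𝕜] L2 𝕜 (q + 1)) : (q : ℕ) → L2 𝕜 q →ₗ.[𝕜] L2 𝕜 q
  | 0 => pcomp (D 0)† (D 0)
  | q + 1 => lap (D q) (D (q + 1))

end Pool.Agent.H188Z
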