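import Pool.Agent.H188Z.Orth
import Pool.Agent.H188Z.Bridge

/-! The Hodge theorem on the Hartogs triangle. -/

set_option autoImplicit false

open scoped Topology ENNReal ContDiff NNReal InnerProductSpace LinearPMap
open Set Metric MeasureTheory Filter Complex

noncomputable section

namespace Pool.Agent.H188Z

variable {𝕜 : Type} [RCLike 𝕜] {q : ℕ}

/-- The properties shared by the weak and the strong extension. -/
structure Good (D : (q : ℕ) → L2 𝕜 q →ₗ.[𝕜] L2 𝕜 (q + 1)) : Prop where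
  cx : ∀ q, IsCx (D q) (D (q + 1))
  le_weak : ∀ q u f, (u, f) ∈ (D q).graph → IsWeakD u f
  strong_le : ∀ q u f, IsStrongD u f → (u, f) ∈ (D q).graph
  hom : ∀ (ε : ℝ) (O : Ops 𝕜 ε), 0 ≤ ε → ε ≤ 1 / 8 → ∀ q u f, (u, f) ∈ (D (q + 1)).graph →
    (O.A q u + O.K q u, u - O.P (q + 1) u - (O.A (q + 1) f + O.K (q + 1) f)) ∈ (D q).graph

theorem strong_weak {u : L2 𝕜 q} {f : L2 𝕜 (q + 1)} (h : IsStrongD u f) : IsWeakD u f :=
  strongGraph_le ((mem_strongGraph (p := (u, f))).2 h)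

theorem good_weak : Good (dWeak 𝕜) :=
  ⟨fun _ => isCx_weak, fun _ _ _ h => mem_graph_dWeak.1 h,
    fun _ _ _ h => mem_graph_dWeak.2 (strong_weak h),
    fun _ O h1 h2 _ _ _ h => mem_graph_dWeak.2 (O.weak_succ h1 h2 (mem_graph_dWeak.1 h))⟩

theorem good_strong : Good (dStrong 𝕜) :=
  ⟨fun _ => isCx_strong, fun _ _ _ h => strong_weak (mem_graph_dStrong.1 h),
    fun _ _ _ h => mem_graph_dStrong.2 h,
    fun _ O h1 h2 _ _ _ h => mem_graph_dStrong.2 (O.strong_succ h1 h2 (mem_graph_dStrong.1 h))⟩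

section zero

variable {H : Type} [NormedAddCommGroup H] [InnerProductSpace 𝕜 H]

theorem mem_graph_zero {x : 𝕜} {y : H} : (x, y) ∈ (0 : 𝕜 →ₗ.[𝕜] H).graph ↔ y = 0 := by
  constructor
  · intro h
    obtain ⟨hx, h1⟩ := graph_apply h
    exact h1.symm
  · rintro rfl
    exact (0 : 𝕜 →ₗ.[𝕜] H).mem_graph ⟨x, by simp⟩

theorem dense_zero : Dense (((0 : 𝕜 →ₗ.[𝕜] H).domain : Submodule 𝕜 𝕜) : Set 𝕜) := by
  rw [LinearPMap.zero_domain]
  exact dense_univ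

theorem closed_zero : (0 : 𝕜 →ₗ.[𝕜] H).IsClosed := by
  have : ((0 : 𝕜 →ₗ.[𝕜] H).graph : Set (𝕜 × H)) = {p | p.2 = 0} := by
    ext ⟨x, y⟩
    exact mem_graph_zero
  rw [LinearPMap.IsClosed, this]
  exact isClosed_eq continuous_snd continuous_const

end zero

variable {D : (q : ℕ) → L2 𝕜 q →ₗ.[𝕜] L2 𝕜 (q + 1)}

theorem Good.cx0 (hD : Good D) : IsCx (0 : 𝕜 →ₗ.[𝕜] L2 𝕜 0) (D 0) :=
  ⟨dense_zero, closed_zero, (hD.cx 0).dS, (hD.cx 0).cS, fun _ _ h => by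
    rw [mem_graph_zero.1 h]
    exact (D 0).graph.zero_mem⟩

theorem Good.closedRange (hD : Good D) (q : ℕ) : IsClosed (Set.range (laplacian D q)) := by
  cases q with
  | zero =>
    have h1 : HasHomotopy (0 : 𝕜 →ₗ.[𝕜] L2 𝕜 0) (D 0) := by
      intro η hη
      obtain ⟨ε, h1, h2, O, h3, -⟩ := exists_ops_le (𝕜 := 𝕜) hη 0
      exact ⟨0, 0, O.A 0, O.K 0, O.P 0, by simpa using hη.le, h3, isCompactOperator_zero, O.cK _,
        O.cP _, fun u f h => mem_graph_zero.2 (O.weak_zero h1.le h2 (hD.le_weak _ _ _ h))⟩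
    have h2 := (hD.cx0.main h1).2
    rw [lap_zero] at h2
    exact h2
  | succ q =>
    refine ((hD.cx q).main fun η hη => ?_).2
    obtain ⟨ε, h1, h2, O, h3, h4⟩ := exists_ops_le (𝕜 := 𝕜) hη q
    exact ⟨O.A q, O.K q, O.A (q + 1), O.K (q + 1), O.P (q + 1), h3, h4, O.cK _, O.cK _, O.cP _,
      hD.hom ε O h1.le h2 q⟩

theorem Good.ker_iff (hD : Good D) (q : ℕ) (h : L2 𝕜 q) :
    h ∈ eigenspaceP (laplacian D q) 0 ↔ ∃ γ : A1 𝕜 q, h = ThL γ := by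
  obtain ⟨ε, h1, h2, O, -, -⟩ := exists_ops_le (𝕜 := 𝕜) one_pos 0
  rw [mem_eigenspaceP, zero_smul]
  cases q with
  | zero =>
    have h3 : laplacian D 0 = lap (0 : 𝕜 →ₗ.[𝕜] L2 𝕜 0) (D 0) := lap_zero.symm
    rw [h3, hD.cx0.ker_iff]
    constructor
    · rintro ⟨h4, -⟩
      have h5 := O.weak_zero h1.le h2 (hD.le_weak _ _ _ h4)
      rw [map_zero, map_zero, add_zero, sub_zero, sub_eq_zero] at h5
      obtain ⟨γ, hγ⟩ := O.range_P h1.le h2 h
      exact ⟨γ, h5.trans hγ⟩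
    · rintro ⟨γ, rfl⟩
      refine ⟨hD.strong_le _ _ _ (strong_ThL γ), (mem_graph_adjoint dense_zero).2 fun x a hx => ?_⟩
      rw [mem_graph_zero.1 hx, inner_zero_left, inner_zero_right]
  | succ q =>
    have h3 : laplacian D (q + 1) = lap (D q) (D (q + 1)) := rfl
    rw [h3, (hD.cx q).ker_iff]
    constructor
    · rintro ⟨h4, h5⟩
      have h6 := hD.hom ε O h1.le h2 q _ _ h4
      obtain ⟨γ, hγ⟩ := O.range_P h1.le h2 h
      rw [map_zero, map_zero, add_zero, sub_zero, hγ] at h6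
      have h7 := (mem_graph_adjoint (hD.cx q).dS).1 h5 _ _ h6
      have h8 := orth_ThL γ (hD.le_weak _ _ _ h6)
      rw [inner_zero_left] at h7
      refine ⟨γ, sub_eq_zero.1 (inner_self_eq_zero (𝕜 := 𝕜).1 ?_)⟩
      rw [inner_sub_left, ← h7, h8, sub_zero]
    · rintro ⟨γ, rfl⟩
      refine ⟨hD.strong_le _ _ _ (strong_ThL γ),
        (mem_graph_adjoint (hD.cx q).dS).2 fun x a hx => ?_⟩
      rw [inner_zero_left, orth_ThL γ (hD.le_weak _ _ _ hx)]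

theorem diffAt_of {β : ℂ × ℂ → Alt 𝕜 q} (hβ : ContDiffOn ℝ ∞ β hartogs) {x : ℂ × ℂ}
    (hx : x ∈ hartogs) : DifferentiableAt ℝ β x :=
  (hβ.contDiffAt (isOpen_hartogs.mem_nhds hx)).differentiableAt (by simp)

theorem dcl_cf {β : ℂ × ℂ → Alt 𝕜 q} (hβ : ContDiffOn ℝ ∞ β hartogs) {x : ℂ × ℂ}
    (hx : x ∈ hartogs) : St.dcl (cf β) x = cf (extDeriv β) x := by
  have h1 := st_dcl (v := cf β) (x := x) (by rw [altOf_cf]; exact diffAt_of hβ hx)
  rw [altOf_cf] at h1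
  rw [cf, ← h1]

theorem closed_Th (γ : A1 𝕜 q) : St.IsClosedForm hartogs (cf (Th γ)) := by
  have h1 := (contDiffOn_Th γ).mono hartogs_subset_U0
  refine ⟨contDiffOn_cf h1, fun x hx => ?_⟩
  rw [dcl_cf h1 hx, cf, extDeriv_Th γ (snd_ne hx), map_zero]
  rfl

theorem fn_ThL (γ : A1 𝕜 q) :
    St.L2.fn (Ω := hartogs) (ThL γ) =ᵐ[volume.restrict hartogs] cf (Th γ) :=
  st_fn_ae.2 (ThL_ae γ)

theorem avgHom_zero {G : (ℝ × Par) × (ℂ × ℂ) → ℂ × ℂ} {v : ℂ × ℂ → Alt 𝕜 (q + 1)} {z : ℂ × ℂ}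
    (h : ∀ p ∈ Icc (0 : ℝ) 1 ×ˢ BP, v (G (p, z)) = 0) : avgHom piP BP G v z = 0 := by
  refine setIntegral_eq_zero_of_forall_eq_zero fun p hp => ?_
  ext ξ
  simp [hom, h p hp]

theorem Good.hodge (hD : Good D) (q : ℕ) : St.HodgeAt (Ω := hartogs) (laplacian D q) := by
  refine ⟨hD.closedRange q, fun h hh => ?_, fun h hh v hv1 hv2 hv3 => ?_, fun w hw => ?_⟩
  · obtain ⟨γ, rfl⟩ := (hD.ker_iff q h).1 hh
    exact ⟨_, closed_Th γ, fn_ThL γ⟩
  · obtain ⟨γ, rfl⟩ := (hD.ker_iff q h).1 hh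
    have h1 : EqOn (cf (Th γ)) v hartogs :=
      Measure.eqOn_open_of_ae_eq ((fn_ThL γ).symm.trans hv2) isOpen_hartogs
        (closed_Th γ).1.continuousOn hv1.1.continuousOn
    rcases q with _ | _ | q
    · refine Lp.ext ?_
      filter_upwards [st_fn_ae.1 hv2, Lp.coeFn_zero (Cov 𝕜 0) 2 (volume.restrict hartogs),
        ae_restrict_mem measurableSet_hartogs] with x h2 h3 hx
      rw [h2, hv3 x hx]
      exact h3.symm
    · obtain ⟨w, h2, h3⟩ := hv3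
      have h4 : γ = 0 := by
        refine not_exact (contDiffOn_altOf h2) fun z hz => (coef 𝕜 1).injective ?_
        rw [← st_dcl (diffAt_of (contDiffOn_altOf h2) hz), ← h3 z hz, ← h1 hz]
        rfl
      rw [h4]
      exact ThL_zero
    · rw [A1_two γ]
      exact ThL_zero
  · have hε0 : (0 : ℝ) ≤ 1 / 8 := by norm_num
    have h1 := contDiffOn_altOf hw.1
    have h2 : ∀ y ∈ hartogs, extDeriv (altOf w) y = 0 := fun y hy => by
      apply (coef 𝕜 (q + 1)).injective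
      rw [← st_dcl (diffAt_of h1 hy), hw.2 y hy, map_zero]
      rfl
    have h3 : ∀ z ∈ hartogs, -hA (1 / 8) (extDeriv (altOf w)) z +
        -hK (1 / 8) (extDeriv (altOf w)) z = 0 := fun z hz => by
      rw [hA, hK, avgHom_zero fun p hp => h2 _ (G1_mem hε0 le_rfl ⟨hp, hz⟩),
        avgHom_zero fun p hp => h2 _ (G2_mem hε0 le_rfl ⟨hp, hz⟩), neg_zero, add_zero]
    obtain ⟨γ, hγ⟩ := hP_eq hε0 le_rfl h1.continuousOn
    refine ⟨ThL γ, (hD.ker_iff q _).2 ⟨γ, rfl⟩, _, closed_Th γ, fn_ThL γ, ?_⟩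
    have h4 : ∀ z, (w - cf (Th γ)) z = WithLp.ofLp (coef 𝕜 q (altOf w z - Th γ z)) := fun z => by
      rw [map_sub, coef_altOf]
      rfl
    cases q with
    | zero =>
      intro z hz
      have h5 := identity_zero hε0 le_rfl h1 hz
      rw [h3 z hz, sub_zero, hγ z hz] at h5
      rw [h4, h5, map_zero]
      rfl
    | succ q =>
      have h5 := (contDiffOn_hA hε0 le_rfl h1).neg.add (contDiffOn_hK hε0 le_rfl h1).neg
      refine ⟨_, contDiffOn_cf h5, fun z hz => ?_⟩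
      rw [dcl_cf h5 hz, cf, identity_succ hε0 le_rfl h1 hz, h3 z hz, sub_zero, hγ z hz, h4]

theorem st_laplacian (D : (q : ℕ) → L2 𝕜 q →ₗ.[𝕜] L2 𝕜 (q + 1)) (q : ℕ) :
    St.laplacian (H := St.L2 𝕜 hartogs) D q = laplacian D q := by
  cases q <;> rfl

theorem hodge_weak (𝕜 : Type) [RCLike 𝕜] (q : ℕ) :
    St.HodgeAt (St.laplacian (St.dWeak 𝕜 St.hartogs) q) := by
  have h := good_weak.hodge (𝕜 := 𝕜) q
  rw [← st_laplacian] at h
  exact h

theorem hodge_strong (𝕜 : Type) [RCLike 𝕜] (q : ℕ) :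
    St.HodgeAt (St.laplacian (St.dStrong 𝕜 St.hartogs) q) := by
  have h1 : St.dStrong 𝕜 St.hartogs = dStrong 𝕜 := funext fun _ => st_dStrong
  have h := good_strong.hodge (𝕜 := 𝕜) q
  rw [← st_laplacian] at h
  rw [h1]
  exact h

end Pool.Agent.H188Z
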