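import Pool.Agent.H188Z.Cut
import Pool.Agent.H188Z.Abs2

/-! The homotopy formulas for the weak and the strong extension. -/

set_option autoImplicit false

open scoped Topology ENNReal ContDiff NNReal
open Set Metric MeasureTheory Filter Complex

noncomputable section

namespace Pool.Agent.H188Z

variable {𝕜 : Type} [RCLike 𝕜] {q : ℕ} {ε : ℝ}

theorem avgHom_congr {G : (ℝ × Par) × (ℂ × ℂ) → ℂ × ℂ} {v w : ℂ × ℂ → Alt 𝕜 (q + 1)} {z : ℂ × ℂ}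
    (h : ∀ p ∈ Icc (0 : ℝ) 1 ×ˢ BP, v (G (p, z)) = w (G (p, z))) :
    avgHom piP BP G v z = avgHom piP BP G w z :=
  setIntegral_congr_fun (isCompact_Icc.prod isCompact_BP).measurableSet fun p hp => by
    simp only [hom, h p hp]

theorem eventually_loc (hε0 : 0 ≤ ε) (hε : ε ≤ 1 / 8) {u : L2 𝕜 q} {f : L2 𝕜 (q + 1)}
    (h : IsWeakD u f) {K : Set (ℂ × ℂ)} (hK0 : IsCompact K) (hKT : K ⊆ hartogs) :
    ∀ᶠ n in atTop, ∀ x ∈ K, hA ε (extDeriv (mollSm n u).1) x = hA ε (mollSm n f).1 x ∧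
      hK ε (extDeriv (mollSm n u).1) x = hK ε (mollSm n f).1 x := by
  have hC : IsCompact ((Icc (0 : ℝ) 1 ×ˢ BP) ×ˢ K) := (isCompact_Icc.prod isCompact_BP).prod hK0
  have h1 : IsCompact (G1 ε '' ((Icc (0 : ℝ) 1 ×ˢ BP) ×ˢ K)) := hC.image (contDiff_G1 ε).continuous
  have h2 : IsCompact (G2 ε '' ((Icc (0 : ℝ) 1 ×ˢ BP) ×ˢ K)) :=
    hC.image_of_continuousOn ((contDiffOn_G2 ε).continuousOn.mono fun x hx => snd_ne (hKT hx.2))
  have h3 : ∀ n : ℕ, ∀ y : ℂ × ℂ, closedBall y (2 * (1 / ((n : ℝ) + 1))) ⊆ hartogs →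
      extDeriv (mollSm n u).1 y = (mollSm n f).1 y := fun n y hy =>
    extDeriv_mollSm h ((closedBall_subset_closedBall (by
      have : (0 : ℝ) < 1 / ((n : ℝ) + 1) := by positivity
      linarith)).trans hy)
  filter_upwards [eventually_ball h1 (by
      rintro _ ⟨x, hx, rfl⟩
      exact G1_mem hε0 hε ⟨hx.1, hKT hx.2⟩), eventually_ball h2 (by
      rintro _ ⟨x, hx, rfl⟩
      exact G2_mem hε0 hε ⟨hx.1, hKT hx.2⟩)] with n hn1 hn2 x hx
  exact ⟨avgHom_congr fun p hp => h3 n _ (hn1 _ ⟨(p, x), ⟨hp, hx⟩, rfl⟩),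
    avgHom_congr fun p hp => h3 n _ (hn2 _ ⟨(p, x), ⟨hp, hx⟩, rfl⟩)⟩

namespace Ops

variable (O : Ops 𝕜 ε)

theorem ae_left (w : Sm 𝕜 (q + 1)) :
    O.A q (emb 𝕜 (q + 1) w) + O.K q (emb 𝕜 (q + 1) w) =ᵐ[volume.restrict hartogs]
      fun z => coef 𝕜 q (-H188Z.hA ε w.1 z + -H188Z.hK ε w.1 z) := by
  filter_upwards [Lp.coeFn_add (O.A q (emb 𝕜 (q + 1) w)) (O.K q (emb 𝕜 (q + 1) w)), O.hA q w,
    O.hK q w] with z h1 h2 h3
  rw [h1, Pi.add_apply, h2, h3, map_add]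

theorem ae_right (w : Sm 𝕜 q) (g : Sm 𝕜 (q + 1)) :
    emb 𝕜 q w - O.P q (emb 𝕜 q w) - (O.A q (emb 𝕜 (q + 1) g) + O.K q (emb 𝕜 (q + 1) g))
      =ᵐ[volume.restrict hartogs] fun z => coef 𝕜 q (w.1 z - H188Z.hP ε w.1 z -
        (-H188Z.hA ε g.1 z + -H188Z.hK ε g.1 z)) := by
  filter_upwards [Lp.coeFn_sub (emb 𝕜 q w - O.P q (emb 𝕜 q w))
    (O.A q (emb 𝕜 (q + 1) g) + O.K q (emb 𝕜 (q + 1) g)), Lp.coeFn_sub (emb 𝕜 q w)
    (O.P q (emb 𝕜 q w)), O.ae_left g, O.hP q w, emb_ae w] with z h1 h2 h3 h4 h5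
  rw [h1, Pi.sub_apply, h2, Pi.sub_apply, h3, h4, h5, map_sub, map_sub]

theorem tendsto_left {a : ℕ → L2 𝕜 (q + 1)} {u : L2 𝕜 (q + 1)} (ha : Tendsto a atTop (𝓝 u)) :
    Tendsto (fun n => O.A q (a n) + O.K q (a n)) atTop (𝓝 (O.A q u + O.K q u)) :=
  (((O.A q).continuous.tendsto u).comp ha).add (((O.K q).continuous.tendsto u).comp ha)

theorem tendsto_right {a : ℕ → L2 𝕜 q} {u : L2 𝕜 q} (ha : Tendsto a atTop (𝓝 u))
    {b : ℕ → L2 𝕜 (q + 1)} {f : L2 𝕜 (q + 1)} (hb : Tendsto b atTop (𝓝 f)) :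
    Tendsto (fun n => a n - O.P q (a n) - (O.A q (b n) + O.K q (b n))) atTop
      (𝓝 (u - O.P q u - (O.A q f + O.K q f))) :=
  (ha.sub (((O.P q).continuous.tendsto u).comp ha)).sub (O.tendsto_left hb)

variable (hε0 : 0 ≤ ε) (hε : ε ≤ 1 / 8)
include hε0 hε

theorem weak_succ {u : L2 𝕜 (q + 1)} {f : L2 𝕜 (q + 2)} (h : IsWeakD u f) :
    IsWeakD (O.A q u + O.K q u) (u - O.P (q + 1) u - (O.A (q + 1) f + O.K (q + 1) f)) := by
  intro φ h1 h2 h3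
  refine weakAt_of_tendsto h1 (O.tendsto_left (tendsto_mollSm u))
    (O.tendsto_right (tendsto_mollSm u) (tendsto_mollSm f)) ?_
  filter_upwards [eventually_loc hε0 hε h h2 h3] with n hn
  refine weakAt_of_smooth h1 h2 h3 ((contDiffOn_hA hε0 hε (Sm.smooth _).contDiffOn).neg.add
    (contDiffOn_hK hε0 hε (Sm.smooth _).contDiffOn).neg) (O.ae_left _) (O.ae_right _ _)
    fun x hx => ?_
  rw [identity_succ hε0 hε (Sm.smooth _).contDiffOn (h3 hx), (hn x hx).1, (hn x hx).2]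

theorem weak_zero {u : L2 𝕜 0} {f : L2 𝕜 1} (h : IsWeakD u f) :
    u - O.P 0 u - (O.A 0 f + O.K 0 f) = 0 := by
  refine eq_zero_of_pair fun φ h1 h2 h3 J => ?_
  obtain ⟨L, hL⟩ := exists_pair (𝕜 := 𝕜) h1.continuous J
  rw [← hL]
  refine tendsto_nhds_unique ((L.continuous.tendsto _).comp
    (O.tendsto_right (tendsto_mollSm u) (tendsto_mollSm f))) (tendsto_const_nhds.congr' ?_)
  filter_upwards [eventually_loc hε0 hε h h2 h3] with n hn
  rw [Function.comp_apply, hL]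
  symm
  refine integral_eq_zero_of_ae ?_
  filter_upwards [O.ae_right (mollSm n u) (mollSm n f)] with x hx
  by_cases hφ : x ∈ tsupport φ
  · rw [hx, ← (hn x hφ).1, ← (hn x hφ).2, identity_zero hε0 hε (Sm.smooth _).contDiffOn (h3 hφ),
      map_zero]
    simp
  · simp [image_eq_zero_of_notMem_tsupport hφ]

theorem strong_succ {u : L2 𝕜 (q + 1)} {f : L2 𝕜 (q + 2)} (h : IsStrongD u f) :
    IsStrongD (O.A q u + O.K q u) (u - O.P (q + 1) u - (O.A (q + 1) f + O.K (q + 1) f)) := by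
  obtain ⟨w, h1, h2⟩ := isStrongD_iff.1 h
  refine (mem_strongGraph (p := (_, _))).1 ((Submodule.isClosed_topologicalClosure _).mem_of_tendsto
    ((O.tendsto_left h1).prodMk_nhds (O.tendsto_right h1 h2)) (Eventually.of_forall fun n => ?_))
  refine (mem_strongGraph (p := (_, _))).2 ?_
  obtain ⟨M, hM⟩ := (isCompact_closedBall (0 : ℂ × ℂ) 1).exists_bound_of_continuousOn
    (Sm.smooth (w n)).continuous.continuousOn
  refine strong_of_bound ((contDiff_hA (ε := ε) (Sm.smooth (w n))).contDiffOn.neg.add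
    (contDiffOn_hK_U0 (ε := ε) (Sm.smooth (w n))).neg)
    (fun z hz => sup_hAK hε0 hε (fun y hy => hM y (ball_subset_closedBall (hartogs_subset hy))) hz)
    (O.ae_left _) ?_
  filter_upwards [O.ae_right (w n) (dSm 𝕜 (q + 1) (w n)), ae_restrict_mem measurableSet_hartogs]
    with z hz hzT
  rw [hz, identity_succ hε0 hε (Sm.smooth _).contDiffOn hzT]
  rfl

end Ops

theorem exists_ops_le {η : ℝ} (hη : 0 < η) (q : ℕ) : ∃ ε : ℝ, 0 < ε ∧ ε ≤ 1 / 8 ∧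
    ∃ O : Ops 𝕜 ε, ‖O.A q‖ ≤ η ∧ ‖O.A (q + 1)‖ ≤ η := by
  obtain ⟨c, hc0, hc⟩ := exists_ops 𝕜
  have h1 := hc0 q
  have h2 := hc0 (q + 1)
  set ε := min (1 / 8) (η / (c q + c (q + 1))) with hε
  have hε0 : 0 < ε := lt_min (by norm_num) (by positivity)
  obtain ⟨O, hO⟩ := hc ε hε0 (min_le_left _ _)
  have h3 : (c q + c (q + 1)) * ε ≤ η := by
    rw [mul_comm, ← le_div_iff₀ (by positivity)]
    exact min_le_right _ _
  exact ⟨ε, hε0, min_le_left _ _, O, (hO q).trans (by nlinarith), (hO (q + 1)).trans (by nlinarith)⟩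

theorem homotopy_weak : HasHomotopy (dWeak 𝕜 q) (dWeak 𝕜 (q + 1)) := by
  intro η hη
  obtain ⟨ε, h1, h2, O, h3, h4⟩ := exists_ops_le (𝕜 := 𝕜) hη q
  exact ⟨O.A q, O.K q, O.A (q + 1), O.K (q + 1), O.P (q + 1), h3, h4, O.cK _, O.cK _, O.cP _,
    fun u f h => mem_graph_dWeak.2 (O.weak_succ h1.le h2 (mem_graph_dWeak.1 h))⟩

theorem homotopy_strong : HasHomotopy (dStrong 𝕜 q) (dStrong 𝕜 (q + 1)) := by
  intro η hη
  obtain ⟨ε, h1, h2, O, h3, h4⟩ := exists_ops_le (𝕜 := 𝕜) hη q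
  exact ⟨O.A q, O.K q, O.A (q + 1), O.K (q + 1), O.P (q + 1), h3, h4, O.cK _, O.cK _, O.cP _,
    fun u f h => mem_graph_dStrong.2 (O.strong_succ h1.le h2 (mem_graph_dStrong.1 h))⟩

theorem discrete_succ (𝕜 : Type) [RCLike 𝕜] (q : ℕ) :
    HasDiscreteSpectrum (laplacian (dWeak 𝕜) (q + 1)) ∧
      HasDiscreteSpectrum (laplacian (dStrong 𝕜) (q + 1)) :=
  ⟨(isCx_weak.main homotopy_weak).1, (isCx_strong.main homotopy_strong).1⟩

theorem discrete_main (𝕜 : Type) [RCLike 𝕜] (q : ℕ) (hq : q = 1 ∨ q = 2 ∨ q = 3) :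
    HasDiscreteSpectrum (laplacian (dWeak 𝕜) q) ∧ HasDiscreteSpectrum (laplacian (dStrong 𝕜) q) := by
  rcases hq with rfl | rfl | rfl
  · exact discrete_succ 𝕜 0
  · exact discrete_succ 𝕜 1
  · exact discrete_succ 𝕜 2

end Pool.Agent.H188Z
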