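import Pool.Agent.H188Z.Ext

/-! Mollification in `L²` on `ℂ × ℂ`. -/

set_option autoImplicit false

open scoped Topology ENNReal ContDiff Convolution
open Set Metric MeasureTheory Filter ContinuousLinearMap

noncomputable section

namespace Pool.Agent.H188Z

instance haarCC : (volume : Measure (ℂ × ℂ)).IsAddHaarMeasure :=
  Measure.prod.instIsAddHaarMeasure (volume : Measure ℂ) (volume : Measure ℂ)

theorem lint_sq_le {α : Type*} [MeasurableSpace α] (ν : Measure α)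
    {h : α → ℝ≥0∞} (hh : AEMeasurable h ν) :
    (∫⁻ a, h a ∂ν) ^ (2 : ℝ) ≤ ν univ * ∫⁻ a, h a ^ (2 : ℝ) ∂ν := by
  have hpq : (2 : ℝ).HolderConjugate 2 := Real.HolderConjugate.two_two
  have := ENNReal.lintegral_mul_le_Lp_mul_Lq ν hpq hh (g := fun _ => 1) aemeasurable_const
  simp only [Pi.mul_apply, mul_one, ENNReal.one_rpow, lintegral_const, one_mul] at this
  calc (∫⁻ a, h a ∂ν) ^ (2 : ℝ)
      ≤ ((∫⁻ a, h a ^ (2 : ℝ) ∂ν) ^ (1 / (2 : ℝ)) * ν univ ^ (1 / (2 : ℝ))) ^ (2 : ℝ) :=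
        ENNReal.rpow_le_rpow this (by norm_num)
    _ = _ := by
        rw [ENNReal.mul_rpow_of_nonneg _ _ (by norm_num), ← ENNReal.rpow_mul, ← ENNReal.rpow_mul,
          mul_comm]
        norm_num

variable {F : Type*} [NormedAddCommGroup F] [NormedSpace ℝ F] [CompleteSpace F]

theorem transl_cont (g : ℂ × ℂ → F) (hg : MemLp g 2 volume) (η : ℝ≥0∞) (hη : 0 < η) :
    ∃ ε : ℝ, 0 < ε ∧ ∀ t : ℂ × ℂ, ‖t‖ < ε →
      eLpNorm (fun z => g (z - t) - g z) 2 volume ≤ η := by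
  let G : ℂ × ℂ → C(ℂ × ℂ, ℂ × ℂ) := fun t => ⟨fun z => z - t, by fun_prop⟩
  have hG : Continuous G := ContinuousMap.continuous_of_continuous_uncurry _ (by
    show Continuous fun p : (ℂ × ℂ) × (ℂ × ℂ) => p.2 - p.1
    fun_prop)
  have hmp : ∀ t, MeasurePreserving (G t) volume volume := fun t =>
    measurePreserving_sub_right volume t
  have hc : Continuous fun t => Lp.compMeasurePreserving (G t) (hmp t) (hg.toLp g) :=
    Continuous.compMeasurePreservingLp continuous_const hG hmp (by norm_num)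
  have h0 := hc.tendsto 0
  rw [EMetric.tendsto_nhds] at h0
  have h1 := h0 η hη
  rw [Metric.eventually_nhds_iff] at h1
  obtain ⟨ε, hε, h2⟩ := h1
  refine ⟨ε, hε, fun t ht => ?_⟩
  have h3 := h2 (y := t) (by simpa [dist_eq_norm] using ht)
  rw [Lp.edist_def] at h3
  have hcoe : ∀ s : ℂ × ℂ, (Lp.compMeasurePreserving (G s) (hmp s) (hg.toLp g) : ℂ × ℂ → F)
      =ᵐ[volume] fun z => g (z - s) := by
    intro s
    have e1 := Lp.coeFn_compMeasurePreserving (hg.toLp g) (hmp s)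
    have e2 : (fun z => (hg.toLp g : ℂ × ℂ → F) (G s z)) =ᵐ[volume] fun z => g (G s z) :=
      (hmp s).quasiMeasurePreserving.ae_eq_comp hg.coeFn_toLp
    exact e1.trans e2
  have h4 : eLpNorm (fun z => g (z - t) - g z) 2 volume =
      eLpNorm ((Lp.compMeasurePreserving (G t) (hmp t) (hg.toLp g) : ℂ × ℂ → F) -
        (Lp.compMeasurePreserving (G 0) (hmp 0) (hg.toLp g) : ℂ × ℂ → F)) 2 volume := by
    apply eLpNorm_congr_ae
    filter_upwards [hcoe t, hcoe 0] with z h5 h6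
    rw [Pi.sub_apply, h5, h6, sub_zero]
  rw [h4]
  exact h3.le

theorem mollify_L2 (g : ℂ × ℂ → F) (hgm : StronglyMeasurable g) (hg : MemLp g 2 volume)
    (ρ : ℂ × ℂ → ℝ)
    (hρc : Continuous ρ) (hρs : HasCompactSupport ρ) (hρ0 : ∀ t, 0 ≤ ρ t) (hρ1 : ∫ t, ρ t = 1)
    (ε : ℝ) (hρε : ∀ t, ρ t ≠ 0 → ‖t‖ < ε) (η : ℝ≥0∞)
    (h : ∀ t : ℂ × ℂ, ‖t‖ < ε → eLpNorm (fun z => g (z - t) - g z) 2 volume ≤ η) :
    eLpNorm (fun z => (∫ t, ρ t • g (z - t)) - g z) 2 volume ≤ η := by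
  have hρint : Integrable ρ := hρc.integrable_of_hasCompactSupport hρs
  have hloc : LocallyIntegrable g volume := hg.locallyIntegrable (by norm_num)
  have hρm : Measurable fun t => ‖ρ t‖ₑ := hρc.measurable.enorm
  set ν : Measure (ℂ × ℂ) := volume.withDensity fun t => ‖ρ t‖ₑ with hν
  have hρ1' : ∫⁻ t, ‖ρ t‖ₑ = 1 := by
    rw [← ofReal_integral_norm_eq_lintegral_enorm hρint]
    have : ∫ x, ‖ρ x‖ = 1 := by
      rw [← hρ1]
      refine integral_congr_ae (Filter.Eventually.of_forall fun w => ?_)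
      exact Real.norm_of_nonneg (hρ0 w)
    rw [this, ENNReal.ofReal_one]
  have hν1 : ν univ = 1 := by
    rw [hν, withDensity_apply _ MeasurableSet.univ, Measure.restrict_univ, hρ1']
  have hpt : ∀ z, ‖(∫ t, ρ t • g (z - t)) - g z‖ₑ ^ (2 : ℝ) ≤
      ∫⁻ t, ‖ρ t‖ₑ * ‖g (z - t) - g z‖ₑ ^ (2 : ℝ) := by
    intro z
    have hi1 : Integrable fun t => ρ t • g (z - t) :=
      hρs.convolutionExists_left (lsmul ℝ ℝ) hρc hloc z
    have hi2 : Integrable fun t => ρ t • g z := hρint.smul_const _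
    have e1 : (∫ t, ρ t • g (z - t)) - g z = ∫ t, ρ t • (g (z - t) - g z) := by
      have : ∫ t, ρ t • g z = g z := by rw [integral_smul_const, hρ1, one_smul]
      calc (∫ t, ρ t • g (z - t)) - g z = (∫ t, ρ t • g (z - t)) - ∫ t, ρ t • g z := by rw [this]
        _ = ∫ t, (ρ t • g (z - t) - ρ t • g z) := (integral_sub hi1 hi2).symm
        _ = _ := by simp only [smul_sub]
    have hm1 : Measurable fun t => ‖g (z - t) - g z‖ₑ :=
      ((hgm.comp_measurable (measurable_const.sub measurable_id)).sub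
        stronglyMeasurable_const).enorm
    have h1 : ‖∫ t, ρ t • (g (z - t) - g z)‖ₑ ≤ ∫⁻ t, ‖g (z - t) - g z‖ₑ ∂ν := by
      refine (enorm_integral_le_lintegral_enorm _).trans (le_of_eq ?_)
      rw [hν, lintegral_withDensity_eq_lintegral_mul _ hρm hm1]
      refine lintegral_congr fun t => ?_
      rw [enorm_smul]
      rfl
    rw [e1]
    calc ‖∫ t, ρ t • (g (z - t) - g z)‖ₑ ^ (2 : ℝ) ≤ (∫⁻ t, ‖g (z - t) - g z‖ₑ ∂ν) ^ (2 : ℝ) :=
          ENNReal.rpow_le_rpow h1 (by norm_num)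
      _ ≤ ν univ * ∫⁻ t, ‖g (z - t) - g z‖ₑ ^ (2 : ℝ) ∂ν := lint_sq_le ν hm1.aemeasurable
      _ = _ := by
          rw [hν1, one_mul, hν, lintegral_withDensity_eq_lintegral_mul _ hρm (hm1.pow_const _)]
          rfl
  have hmm : Measurable fun q : (ℂ × ℂ) × (ℂ × ℂ) =>
      ‖ρ q.2‖ₑ * ‖g (q.1 - q.2) - g q.1‖ₑ ^ (2 : ℝ) :=
    (hρm.comp measurable_snd).mul ((((hgm.comp_measurable (measurable_fst.sub measurable_snd)).sub
      (hgm.comp_measurable measurable_fst)).enorm).pow_const _)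
  apply eLpNorm_two_le
  calc ∫⁻ z, ‖(∫ t, ρ t • g (z - t)) - g z‖ₑ ^ (2 : ℝ)
      ≤ ∫⁻ z, ∫⁻ t, ‖ρ t‖ₑ * ‖g (z - t) - g z‖ₑ ^ (2 : ℝ) := lintegral_mono hpt
    _ = ∫⁻ t, ∫⁻ z, ‖ρ t‖ₑ * ‖g (z - t) - g z‖ₑ ^ (2 : ℝ) :=
        lintegral_lintegral_swap hmm.aemeasurable
    _ ≤ ∫⁻ t, ‖ρ t‖ₑ * η ^ (2 : ℝ) := by
        refine lintegral_mono fun t => ?_
        have hmt : Measurable fun z => ‖g (z - t) - g z‖ₑ ^ (2 : ℝ) :=
          (((hgm.comp_measurable (measurable_id.sub_const t)).sub hgm).enorm).pow_const _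
        rw [lintegral_const_mul _ hmt]
        by_cases ht : ρ t = 0
        · rw [ht]; simp
        · gcongr
          rw [← eLpNorm_two_sq]
          exact ENNReal.rpow_le_rpow (h t (hρε t ht)) (by norm_num)
    _ = η ^ (2 : ℝ) := by rw [lintegral_mul_const _ hρm, hρ1', one_mul]

def bump (n : ℕ) : ContDiffBump (0 : ℂ × ℂ) :=
  ⟨1 / ((n : ℝ) + 1) / 2, 1 / ((n : ℝ) + 1), by positivity, half_lt_self (by positivity)⟩

def rho (n : ℕ) : ℂ × ℂ → ℝ := (bump n).normed volume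

def moll (n : ℕ) (g : ℂ × ℂ → F) (x : ℂ × ℂ) : F := ∫ t, rho n t • g (x - t)

theorem rho_smooth (n : ℕ) : ContDiff ℝ ∞ (rho n) := (bump n).contDiff_normed

theorem rho_supp (n : ℕ) : HasCompactSupport (rho n) := (bump n).hasCompactSupport_normed

theorem rho_ne (n : ℕ) {t : ℂ × ℂ} (ht : rho n t ≠ 0) : ‖t‖ < 1 / ((n : ℝ) + 1) := by
  have h := (bump n).support_normed_eq (μ := volume)
  have h1 : t ∈ Function.support ((bump n).normed volume) := ht
  rw [h, mem_ball_zero_iff] at h1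
  exact h1

theorem moll_smooth (n : ℕ) {g : ℂ × ℂ → F} (hg : LocallyIntegrable g volume) :
    ContDiff ℝ ∞ (moll n g) :=
  (rho_supp n).contDiff_convolution_left (lsmul ℝ ℝ) (rho_smooth n) hg

theorem moll_tendsto {g : ℂ × ℂ → F} (hgm : StronglyMeasurable g) (hg : MemLp g 2 volume) :
    Tendsto (fun n => eLpNorm (fun z => moll n g z - g z) 2 volume) atTop (𝓝 0) := by
  rw [ENNReal.tendsto_nhds_zero]
  intro η hη
  obtain ⟨ε, hε, h⟩ := transl_cont g hg η hη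
  filter_upwards [tendsto_one_div_add_atTop_nhds_zero_nat.eventually (gt_mem_nhds hε)] with n hn
  exact mollify_L2 g hgm hg (rho n) (rho_smooth n).continuous (rho_supp n)
    (fun t => (bump n).nonneg_normed t) (bump n).integral_normed ε
    (fun t ht => (rho_ne n ht).trans hn) η h

/-- The test function `y ↦ ρₙ(x - y)`. -/
def rhoAt (n : ℕ) (x y : ℂ × ℂ) : ℝ := rho n (x - y)

theorem rhoAt_smooth (n : ℕ) (x : ℂ × ℂ) : ContDiff ℝ ∞ (rhoAt n x) :=
  (rho_smooth n).comp (contDiff_const.sub contDiff_id)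

theorem rhoAt_tsupport (n : ℕ) (x : ℂ × ℂ) :
    tsupport (rhoAt n x) ⊆ closedBall x (1 / ((n : ℝ) + 1)) := by
  refine closure_minimal (fun y hy => ?_) isClosed_closedBall
  rw [mem_closedBall, dist_comm, dist_eq_norm]
  exact (rho_ne n hy).le

theorem rhoAt_supp (n : ℕ) (x : ℂ × ℂ) : HasCompactSupport (rhoAt n x) :=
  (isCompact_closedBall x _).of_isClosed_subset (isClosed_tsupport _) (rhoAt_tsupport n x)

theorem moll_eq (n : ℕ) (g : ℂ × ℂ → F) (x : ℂ × ℂ) : moll n g x = ∫ y, rhoAt n x y • g y := by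
  rw [moll, ← integral_sub_left_eq_self (fun t => rho n t • g (x - t)) volume x]
  simp only [sub_sub_cancel, rhoAt]

theorem fderiv_moll (n : ℕ) {g : ℂ × ℂ → F} (hg : LocallyIntegrable g volume) (x e : ℂ × ℂ) :
    fderiv ℝ (moll n g) x e = -∫ y, fderiv ℝ (rhoAt n x) y e • g y := by
  have hρs1 : ContDiff ℝ 1 (rho n) := (rho_smooth n).of_le (by norm_cast)
  have h1 := (rho_supp n).hasFDerivAt_convolution_left (lsmul ℝ ℝ) hρs1 hg x
  have h2 : fderiv ℝ (moll n g) x =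
      (fderiv ℝ (rho n) ⋆[(lsmul ℝ ℝ).precompL (ℂ × ℂ), volume] g) x := h1.fderiv
  rw [h2]
  have hex : ConvolutionExistsAt (fderiv ℝ (rho n)) g x
      ((lsmul ℝ ℝ : ℝ →L[ℝ] F →L[ℝ] F).precompL (ℂ × ℂ)) volume :=
    ((rho_supp n).fderiv ℝ).convolutionExists_left _ (hρs1.continuous_fderiv one_ne_zero) hg x
  have h3 : (fderiv ℝ (rho n) ⋆[(lsmul ℝ ℝ).precompL (ℂ × ℂ), volume] g) x e =
      ∫ t, fderiv ℝ (rho n) t e • g (x - t) := by
    rw [convolution_def, ContinuousLinearMap.integral_apply hex]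
    rfl
  rw [h3, ← integral_sub_left_eq_self (fun t => fderiv ℝ (rho n) t e • g (x - t)) volume x,
    ← integral_neg]
  refine integral_congr_ae (Eventually.of_forall fun y => ?_)
  have ha : HasFDerivAt (fun w : ℂ × ℂ => x - w) (-(ContinuousLinearMap.id ℝ (ℂ × ℂ))) y :=
    (hasFDerivAt_id y).const_sub x
  have hb : HasFDerivAt (rhoAt n x) ((fderiv ℝ (rho n) (x - y)).comp
      (-(ContinuousLinearMap.id ℝ (ℂ × ℂ)))) y :=
    ((hρs1.differentiable one_ne_zero (x - y)).hasFDerivAt).comp y ha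
  simp [hb.fderiv]

end Pool.Agent.H188Z
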