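import Mathlib

/-!
Unbounded operators on Hilbert spaces: natural composition, the Laplacian of a
three-term complex, resolvent set, spectrum, eigenspaces and discrete spectrum.
-/

set_option autoImplicit false

open Topology
open scoped LinearPMap

noncomputable section

namespace Pool.Agent.H188Z

section comp

variable {𝕜 : Type*} [RCLike 𝕜] {E F G : Type*} [AddCommGroup E] [Module 𝕜 E]
  [AddCommGroup F] [Module 𝕜 F] [AddCommGroup G] [Module 𝕜 G]

/-- The vectors `x` in the domain of `f` with `f x` in the domain of `g`. -/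
def compDomain (g : F →ₗ.[𝕜] G) (f : E →ₗ.[𝕜] F) : Submodule 𝕜 E :=
  (g.domain.comap f.toFun).map f.domain.subtype

theorem compDomain_prop (g : F →ₗ.[𝕜] G) (f : E →ₗ.[𝕜] F)
    (x : (f.domRestrict (compDomain g f)).domain) :
    f.domRestrict (compDomain g f) x ∈ g.domain := by
  obtain ⟨x, ⟨y, hy, rfl⟩, hx⟩ := x
  rw [LinearPMap.domRestrict_apply (y := y) rfl]
  exact hy

/-- The product `g f` of two unbounded operators with its natural domain
`{x ∈ Dom f : f x ∈ Dom g}`. -/
def pcomp (g : F →ₗ.[𝕜] G) (f : E →ₗ.[𝕜] F) : E →ₗ.[𝕜] G :=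
  g.comp (f.domRestrict (compDomain g f)) (compDomain_prop g f)

end comp

variable {𝕜 : Type*} [RCLike 𝕜]

section lap

variable {H₀ H₁ H₂ : Type*}
  [NormedAddCommGroup H₀] [InnerProductSpace 𝕜 H₀] [CompleteSpace H₀]
  [NormedAddCommGroup H₁] [InnerProductSpace 𝕜 H₁] [CompleteSpace H₁]
  [NormedAddCommGroup H₂] [InnerProductSpace 𝕜 H₂]

/-- The Laplacian `S S* + T* T` on the middle space of `H₀ → H₁ → H₂`, with its natural domain
(Hilbert space adjoints; the sum is defined on the intersection of the domains). -/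
def lap (S : H₀ →ₗ.[𝕜] H₁) (T : H₁ →ₗ.[𝕜] H₂) : H₁ →ₗ.[𝕜] H₁ :=
  pcomp S S† + pcomp T† T

end lap

section spec

variable {H : Type*} [NormedAddCommGroup H] [InnerProductSpace 𝕜 H] [CompleteSpace H]

/-- The resolvent set of an unbounded operator `L`: the scalars `z` such that `L - z` maps
`Dom L` bijectively onto `H` with a bounded inverse `R`. -/
def resolventSetP (L : H →ₗ.[𝕜] H) : Set 𝕜 :=
  {z | ∃ R : H →L[𝕜] H,
    (∀ f : H, ∃ h : R f ∈ L.domain, L ⟨R f, h⟩ - z • R f = f) ∧
    (∀ u : L.domain, R (L u - z • (u : H)) = u)}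

/-- The spectrum of an unbounded operator. -/
def spectrumP (L : H →ₗ.[𝕜] H) : Set 𝕜 := (resolventSetP L)ᶜ

/-- The eigenspace `{u ∈ Dom L : L u = z u}`. -/
def eigenspaceP (L : H →ₗ.[𝕜] H) (z : 𝕜) : Submodule 𝕜 H :=
  (LinearMap.ker (L.toFun - z • L.domain.subtype)).map L.domain.subtype

/-- `L` is self-adjoint and every point of its spectrum is an eigenvalue of finite multiplicity
and an isolated point of the spectrum. -/
def HasDiscreteSpectrum (L : H →ₗ.[𝕜] H) : Prop :=
  IsSelfAdjoint L ∧ ∀ z ∈ spectrumP L,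
    eigenspaceP L z ≠ ⊥ ∧ FiniteDimensional 𝕜 (eigenspaceP L z) ∧
      ∀ᶠ w in 𝓝[≠] z, w ∉ spectrumP L

end spec

end Pool.Agent.H188Z
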