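import Pool.Agent.H188Z.Geom

/-! The homotopy operators on smooth forms: identities and estimates. -/

set_option autoImplicit false

open scoped Topology ENNReal ContDiff NNReal
open Set Metric MeasureTheory Filter Complex

noncomputable section

namespace Pool.Agent.H188Z

def cB : ℝ≥0 := (volume (closedBall (0 : ℂ × ℂ) 1)).toNNReal⁻¹

def piV : Measure (ℂ × ℂ) := cB • (volume : Measure (ℂ × ℂ))

instance : IsLocallyFiniteMeasure piV := by unfold piV; infer_instance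

def piP : Measure Par := (volume : Measure ℝ).prod piV

instance : IsLocallyFiniteMeasure piP := by unfold piP; infer_instance

def BP : Set Par := Icc (0 : ℝ) 1 ×ˢ closedBall (0 : ℂ × ℂ) 1

theorem isCompact_BP : IsCompact BP := isCompact_Icc.prod (isCompact_closedBall _ _)

theorem piV_ball : piV (closedBall 0 1) = 1 := by
  have h1 : volume (closedBall (0 : ℂ × ℂ) 1) ≠ 0 := (measure_closedBall_pos _ _ one_pos).ne'
  have h2 : volume (closedBall (0 : ℂ × ℂ) 1) ≠ ⊤ := measure_closedBall_lt_top.ne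
  rw [piV, Measure.smul_apply, cB, ENNReal.smul_def, smul_eq_mul,
    ENNReal.coe_inv (ENNReal.toNNReal_ne_zero.2 ⟨h1, h2⟩), ENNReal.coe_toNNReal h2,
    ENNReal.inv_mul_cancel h1 h2]

theorem piP_BP : piP BP = 1 := by
  rw [piP, BP, Measure.prod_prod, piV_ball]
  simp

theorem nu_C : (volume.prod piP) (Icc (0 : ℝ) 1 ×ˢ BP) = 1 := by
  rw [Measure.prod_prod, piP_BP]
  simp

theorem mem_BP {p : Par} (hp : p ∈ BP) : p.1 ∈ Icc (0 : ℝ) 1 ∧ ‖p.2‖ ≤ 1 :=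
  ⟨hp.1, mem_closedBall_zero_iff.1 hp.2⟩

variable {𝕜 : Type} [RCLike 𝕜] {q : ℕ} {ε : ℝ}

theorem G1_mem (hε0 : 0 ≤ ε) (hε : ε ≤ 1 / 8) {x : (ℝ × Par) × (ℂ × ℂ)}
    (hx : x ∈ (Icc (0 : ℝ) 1 ×ˢ BP) ×ˢ hartogs) : G1 ε x ∈ hartogs :=
  gmap_mem (mul_nonneg hx.1.1.1 hε0) ((mul_le_of_le_one_left hε0 hx.1.1.2).trans hε)
    (mem_BP hx.1.2).2 hx.2

theorem G2_mem (hε0 : 0 ≤ ε) (hε : ε ≤ 1 / 8) {x : (ℝ × Par) × (ℂ × ℂ)}
    (hx : x ∈ (Icc (0 : ℝ) 1 ×ˢ BP) ×ˢ hartogs) : G2 ε x ∈ hartogs :=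
  gmap_mem hε0 hε (mem_BP hx.1.2).2 (phi_mem hx.1.1 _ hx.2)

/-- The set where `z₂ ≠ 0`. -/
def U0 : Set (ℂ × ℂ) := {z | z.2 ≠ 0}

theorem isOpen_U0 : IsOpen U0 := isOpen_ne.preimage continuous_snd

theorem hartogs_subset_U0 : hartogs ⊆ U0 := fun _ hz => snd_ne hz

def W0 : Set ((ℝ × Par) × (ℂ × ℂ)) := {x | x.2.2 ≠ 0}

theorem isOpen_W0 : IsOpen W0 := isOpen_ne.preimage (by fun_prop)

theorem contDiffOn_G2 (ε : ℝ) : ContDiffOn ℝ ∞ (G2 ε) W0 :=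
  fun _ hx => (contDiffAt_G2 ε hx).contDiffWithinAt

def hA (ε : ℝ) (w : ℂ × ℂ → Alt 𝕜 (q + 1)) : ℂ × ℂ → Alt 𝕜 q := avgHom piP BP (G1 ε) w

def hK (ε : ℝ) (w : ℂ × ℂ → Alt 𝕜 (q + 1)) : ℂ × ℂ → Alt 𝕜 q := avgHom piP BP (G2 ε) w

def hP (ε : ℝ) (w : ℂ × ℂ → Alt 𝕜 q) : ℂ × ℂ → Alt 𝕜 q := avgPull piP BP (G2 ε) 1 w

theorem avgPull_G1_zero (w : ℂ × ℂ → Alt 𝕜 q) (z : ℂ × ℂ) :
    avgPull piP BP (G1 ε) 0 w z = w z := by
  have h1 : ∀ p : Par, pull (G1 ε) w ((0, p), z) = w z := by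
    intro p
    rw [pull, fderiv_G1_space]
    have h2 : ∀ y, gmap (0 * ε) p.2 y = y := fun y => by simp [gmap]
    ext v
    rw [ContinuousAlternatingMap.compContinuousLinearMap_apply]
    simp only [G1, h2, Function.comp_def, Lmap_apply]
  simp only [avgPull, h1]
  rw [setIntegral_const, Measure.real, piP_BP]
  simp

theorem avgPull_G2_zero (w : ℂ × ℂ → Alt 𝕜 q) {z : ℂ × ℂ} (hz : z.2 ≠ 0) :
    avgPull piP BP (G2 ε) 0 w z = avgPull piP BP (G1 ε) 1 w z := by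
  have h1 : ∀ p : Par, pull (G2 ε) w ((0, p), z) = pull (G1 ε) w ((1, p), z) := by
    intro p
    rw [pull, pull, fderiv_G1_space, fderiv_G2_space _ _ _ hz]
    ext v
    simp only [ContinuousAlternatingMap.compContinuousLinearMap_apply, G1, G2, phi_zero, one_mul]
    congr 1
    funext i
    simp [rotL_apply, rot_zero]
  simp only [avgPull, h1]

section onT

variable (hε0 : 0 ≤ ε) (hε : ε ≤ 1 / 8)
include hε0 hε

theorem contDiffOn_hA {w : ℂ × ℂ → Alt 𝕜 (q + 1)} (hw : ContDiffOn ℝ ∞ w hartogs) :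
    ContDiffOn ℝ ∞ (hA ε w) hartogs :=
  contDiffOn_avgHom isCompact_BP isOpen_hartogs
    (isOpen_hartogs.preimage (contDiff_G1 ε).continuous) (fun _ hx => G1_mem hε0 hε hx)
    (contDiff_G1 ε).contDiffOn (fun _ hx => hx) hw

omit hε0 hε in
theorem isOpen_W2 : IsOpen (W0 ∩ G2 ε ⁻¹' hartogs) :=
  (contDiffOn_G2 ε).continuousOn.isOpen_inter_preimage isOpen_W0 isOpen_hartogs

theorem sub_W2 : (Icc (0 : ℝ) 1 ×ˢ BP) ×ˢ hartogs ⊆ W0 ∩ G2 ε ⁻¹' hartogs :=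
  fun _ hx => ⟨snd_ne hx.2, G2_mem hε0 hε hx⟩

theorem contDiffOn_hK {w : ℂ × ℂ → Alt 𝕜 (q + 1)} (hw : ContDiffOn ℝ ∞ w hartogs) :
    ContDiffOn ℝ ∞ (hK ε w) hartogs :=
  contDiffOn_avgHom isCompact_BP isOpen_hartogs isOpen_W2 (sub_W2 hε0 hε)
    ((contDiffOn_G2 ε).mono inter_subset_left) (fun _ hx => hx.2) hw

theorem contDiffOn_hP {w : ℂ × ℂ → Alt 𝕜 q} (hw : ContDiffOn ℝ ∞ w hartogs) :
    ContDiffOn ℝ ∞ (hP ε w) hartogs :=
  contDiffOn_avgPull isCompact_BP isOpen_hartogs isOpen_W2 (sub_W2 hε0 hε)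
    ((contDiffOn_G2 ε).mono inter_subset_left) (fun _ hx => hx.2) hw (by simp)

theorem identity_succ {w : ℂ × ℂ → Alt 𝕜 (q + 1)} (hw : ContDiffOn ℝ ∞ w hartogs) {z : ℂ × ℂ}
    (hz : z ∈ hartogs) :
    extDeriv (fun y => -hA ε w y + -hK ε w y) z =
      w z - hP ε w z - (-hA ε (extDeriv w) z + -hK ε (extDeriv w) z) := by
  have h1 := homotopy_succ (π := piP) isCompact_BP isOpen_hartogs
    (isOpen_hartogs.preimage (contDiff_G1 ε).continuous) isOpen_hartogs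
    (fun _ hx => G1_mem hε0 hε hx) (contDiff_G1 ε).contDiffOn (fun _ hx => hx) hw hz
  have h2 := homotopy_succ (π := piP) isCompact_BP isOpen_hartogs isOpen_W2 isOpen_hartogs
    (sub_W2 hε0 hε) ((contDiffOn_G2 ε).mono inter_subset_left) (fun _ hx => hx.2) hw hz
  rw [avgPull_G1_zero] at h1
  rw [avgPull_G2_zero _ (snd_ne hz)] at h2
  have h3 := ((contDiffOn_hA hε0 hε hw).contDiffAt (isOpen_hartogs.mem_nhds hz)).differentiableAt
    (by simp)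
  have h4 := ((contDiffOn_hK hε0 hε hw).contDiffAt (isOpen_hartogs.mem_nhds hz)).differentiableAt
    (by simp)
  have h5 : (fun y => -hA ε w y + -hK ε w y) = (-1 : ℝ) • (hA ε w + hK ε w) := by
    funext y
    simp [add_comm]
  rw [h5, extDeriv_smul, extDeriv_add h3 h4]
  have h6 : extDeriv (hA ε w) z = avgPull piP BP (G1 ε) 1 w z - w z - hA ε (extDeriv w) z :=
    eq_sub_of_add_eq h1.symm
  have h7 : extDeriv (hK ε w) z = hP ε w z - avgPull piP BP (G1 ε) 1 w z - hK ε (extDeriv w) z :=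
    eq_sub_of_add_eq h2.symm
  rw [h6, h7, neg_one_smul]
  abel

theorem identity_zero {w : ℂ × ℂ → Alt 𝕜 0} (hw : ContDiffOn ℝ ∞ w hartogs) {z : ℂ × ℂ}
    (hz : z ∈ hartogs) :
    w z - hP ε w z - (-hA ε (extDeriv w) z + -hK ε (extDeriv w) z) = 0 := by
  have h1 := homotopy_zero (π := piP) isCompact_BP
    (isOpen_hartogs.preimage (contDiff_G1 ε).continuous) isOpen_hartogs
    (fun _ hx => G1_mem hε0 hε hx) (contDiff_G1 ε).contDiffOn (fun _ hx => hx) hw hz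
  have h2 := homotopy_zero (π := piP) isCompact_BP isOpen_W2 isOpen_hartogs
    (sub_W2 hε0 hε) ((contDiffOn_G2 ε).mono inter_subset_left) (fun _ hx => hx.2) hw hz
  rw [avgPull_G1_zero] at h1
  rw [avgPull_G2_zero _ (snd_ne hz)] at h2
  rw [hA, hK, ← h1, ← h2, hP]
  abel

theorem norm_hom_G1 (w : ℂ × ℂ → Alt 𝕜 (q + 1)) {x : (ℝ × Par) × (ℂ × ℂ)}
    (hx : x ∈ (Icc (0 : ℝ) 1 ×ˢ BP) ×ˢ hartogs) :
    ‖hom (G1 ε) (1, 0) w x‖ ≤ 5 * ε * ‖w (G1 ε x)‖ := by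
  obtain ⟨⟨s, p⟩, z⟩ := x
  rw [hom, fderiv_G1_space]
  refine (ContinuousAlternatingMap.norm_compContinuousLinearMap_le _ _).trans ?_
  have h1 := norm_Lmap_le (mul_nonneg hx.1.1.1 hε0)
    ((mul_le_of_le_one_left hε0 hx.1.1.2).trans hε) (mem_BP hx.1.2).2
  refine (mul_le_of_le_one_right (norm_nonneg _) (pow_le_one₀ (norm_nonneg _) h1)).trans ?_
  refine (ContinuousLinearMap.le_opNorm _ _).trans ?_
  rw [ContinuousAlternatingMap.norm_curryLeft, mul_comm]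
  gcongr
  exact norm_fderiv_G1_time hε0 s (mem_BP hx.1.2).2
    (mem_ball_zero_iff.1 (hartogs_subset hx.2)).le

theorem norm_comp_G2 (η : Alt 𝕜 q) {x : (ℝ × Par) × (ℂ × ℂ)}
    (hx : x ∈ (Icc (0 : ℝ) 1 ×ˢ BP) ×ˢ hartogs) :
    ‖η.compContinuousLinearMap ((fderiv ℝ (G2 ε) x).comp (ContinuousLinearMap.inr ℝ _ _))‖ ≤
      2 ^ q * (1 + x.1.1 / 2 * ‖x.2.2‖⁻¹) * ‖η‖ := by
  obtain ⟨⟨s, p⟩, z⟩ := x
  have hz : z.2 ≠ 0 := snd_ne hx.2
  have hs0 : 0 ≤ s := hx.1.1.1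
  have hs1 : s ≤ 1 := hx.1.1.2
  rw [fderiv_G2_space _ _ _ hz]
  refine norm_comp_rank_one η _ (fun ξ => ?_) _ (by positivity) (fun ξ => ?_) _
    (norm_nvec_le hε0 hε s (mem_BP hx.1.2).2 hz)
  · rw [ContinuousLinearMap.smul_apply, norm_smul, Real.norm_of_nonneg (by linarith),
      ContinuousLinearMap.comp_apply]
    refine (mul_le_of_le_one_left (norm_nonneg _) (by linarith)).trans ?_
    refine ((Lmap ε p.2).le_opNorm _).trans ?_
    rw [norm_rotL_apply]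
    exact mul_le_of_le_one_left (norm_nonneg _) (norm_Lmap_le hε0 hε (mem_BP hx.1.2).2)
  · rw [ContinuousLinearMap.smul_apply, smul_eq_mul, abs_mul, abs_of_nonneg (by positivity),
      mul_assoc]
    gcongr
    exact norm_ang_le hz ξ

theorem norm_hom_G2 (w : ℂ × ℂ → Alt 𝕜 (q + 1)) {x : (ℝ × Par) × (ℂ × ℂ)}
    (hx : x ∈ (Icc (0 : ℝ) 1 ×ˢ BP) ×ˢ hartogs) :
    ‖hom (G2 ε) (1, 0) w x‖ ≤ 10 * 2 ^ q * (1 + x.1.1 / 2 * ‖x.2.2‖⁻¹) * ‖w (G2 ε x)‖ := by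
  rw [hom]
  refine (norm_comp_G2 hε0 hε _ hx).trans ?_
  have hs0 : 0 ≤ x.1.1 := hx.1.1.1
  have h1 : ‖(w (G2 ε x)).curryLeft (fderiv ℝ (G2 ε) x ((1, 0), 0))‖ ≤ ‖w (G2 ε x)‖ * 10 := by
    refine (ContinuousLinearMap.le_opNorm _ _).trans ?_
    rw [ContinuousAlternatingMap.norm_curryLeft]
    gcongr
    exact norm_fderiv_G2_time hε0 hε hx.1.1 (mem_BP hx.1.2).1 (mem_BP hx.1.2).2 hx.2
  calc _ ≤ 2 ^ q * (1 + x.1.1 / 2 * ‖x.2.2‖⁻¹) * (‖w (G2 ε x)‖ * 10) := by gcongr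
    _ = _ := by ring

theorem eLpNorm_hA {w : ℂ × ℂ → Alt 𝕜 (q + 1)} (hw : Continuous w) :
    eLpNorm (hA ε w) 2 (volume.restrict hartogs) ≤
      ENNReal.ofReal (20 * ε) * eLpNorm w 2 (volume.restrict hartogs) := by
  have hC : MeasurableSet (Icc (0 : ℝ) 1 ×ˢ BP) := (isCompact_Icc.prod isCompact_BP).measurableSet
  set ν := (volume.prod piP).restrict (Icc (0 : ℝ) 1 ×ˢ BP) with hν
  have hν1 : ν univ = 1 := by rw [hν, Measure.restrict_apply_univ, nu_C]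
  have hm : Measurable fun x : (ℝ × Par) × (ℂ × ℂ) => ‖w (G1 ε x)‖ₑ :=
    (hw.comp (contDiff_G1 ε).continuous).enorm.measurable
  have hpt : ∀ z ∈ hartogs, ‖hA ε w z‖ₑ ^ (2 : ℝ) ≤
      ENNReal.ofReal (5 * ε) ^ (2 : ℝ) * ∫⁻ p, ‖w (G1 ε (p, z))‖ₑ ^ (2 : ℝ) ∂ν := by
    intro z hz
    have hmz : Measurable fun p : ℝ × Par => ‖w (G1 ε (p, z))‖ₑ :=
      hm.comp (measurable_prodMk_right)
    have h1 : ‖hA ε w z‖ₑ ≤ ENNReal.ofReal (5 * ε) * ∫⁻ p, ‖w (G1 ε (p, z))‖ₑ ∂ν := by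
      refine (enorm_integral_le_lintegral_enorm _).trans ?_
      rw [← lintegral_const_mul _ hmz]
      refine setLIntegral_mono' hC fun p hp => ?_
      rw [← ofReal_norm_eq_enorm, ← ofReal_norm_eq_enorm, ← ENNReal.ofReal_mul (by positivity)]
      exact ENNReal.ofReal_le_ofReal (norm_hom_G1 hε0 hε w ⟨hp, hz⟩)
    refine (ENNReal.rpow_le_rpow h1 (by norm_num)).trans ?_
    rw [ENNReal.mul_rpow_of_nonneg _ _ (by norm_num)]
    gcongr
    have := lint_sq_le ν hmz.aemeasurable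
    rwa [hν1, one_mul] at this
  have hch : ∀ p ∈ Icc (0 : ℝ) 1 ×ˢ BP, ∫⁻ z in hartogs, ‖w (G1 ε (p, z))‖ₑ ^ (2 : ℝ) ≤
      ENNReal.ofReal 4 ^ (2 : ℝ) * ∫⁻ z in hartogs, ‖w z‖ₑ ^ (2 : ℝ) := by
    intro p hp
    have ht0 : 0 ≤ p.1 * ε := mul_nonneg hp.1.1 hε0
    have ht : p.1 * ε ≤ 1 / 8 := (mul_le_of_le_one_left hε0 hp.1.2).trans hε
    have hb := (norm_coef_b ht0 ht (mem_BP hp.2).2).1
    have ha : ‖((1 - 4 * (p.1 * ε) : ℝ) : ℂ)‖ = 1 - 4 * (p.1 * ε) := by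
      rw [Complex.norm_real, Real.norm_of_nonneg (by linarith)]
    set a : ℂ := ((1 - 4 * (p.1 * ε) : ℝ) : ℂ)
    set b : ℂ := ((1 - 2 * (p.1 * ε) : ℝ) : ℂ) + ((p.1 * ε : ℝ) : ℂ) * p.2.2.2
    have hab : 1 / 4 ≤ ‖a * b‖ := by
      rw [norm_mul, ha]
      nlinarith
    have h1 := lintegral_comp_tri a b (((p.1 * ε : ℝ) : ℂ) * p.2.2.1)
      (norm_pos_iff.1 (by linarith)) 0
      (h := hartogs.indicator fun z => ‖w z‖ₑ ^ (2 : ℝ))
      ((hw.enorm.measurable.pow_const _).indicator measurableSet_hartogs)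
    rw [lintegral_indicator measurableSet_hartogs] at h1
    calc ∫⁻ z in hartogs, ‖w (G1 ε (p, z))‖ₑ ^ (2 : ℝ)
        = ∫⁻ z in hartogs, (hartogs.indicator fun z => ‖w z‖ₑ ^ (2 : ℝ)) (G1 ε (p, z)) := by
          refine setLIntegral_congr_fun measurableSet_hartogs fun z hz => ?_
          rw [indicator_of_mem (G1_mem hε0 hε ⟨hp, hz⟩)]
      _ ≤ ∫⁻ z, (hartogs.indicator fun z => ‖w z‖ₑ ^ (2 : ℝ)) (G1 ε (p, z)) :=
          setLIntegral_le_lintegral _ _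
      _ = ENNReal.ofReal ((‖a * b‖ ^ 2)⁻¹) * ∫⁻ z in hartogs, ‖w z‖ₑ ^ (2 : ℝ) := by
          rw [← h1]
          refine lintegral_congr fun z => ?_
          congr 1
          rw [zero_add]
          exact Prod.ext (gmap_fst _ _ _) (gmap_snd _ _ _)
      _ ≤ _ := by
          gcongr
          rw [ENNReal.ofReal_rpow_of_nonneg (by norm_num) (by norm_num)]
          apply ENNReal.ofReal_le_ofReal
          rw [inv_le_comm₀ (by positivity) (by positivity)]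
          rw [norm_mul] at hab
          norm_num
          nlinarith
  apply eLpNorm_two_le
  have hm2 : Measurable fun x : (ℝ × Par) × (ℂ × ℂ) => ‖w (G1 ε x)‖ₑ ^ (2 : ℝ) := hm.pow_const _
  calc ∫⁻ z in hartogs, ‖hA ε w z‖ₑ ^ (2 : ℝ)
      ≤ ∫⁻ z in hartogs, ENNReal.ofReal (5 * ε) ^ (2 : ℝ) *
          ∫⁻ p, ‖w (G1 ε (p, z))‖ₑ ^ (2 : ℝ) ∂ν :=
        setLIntegral_mono' measurableSet_hartogs hpt
    _ = ENNReal.ofReal (5 * ε) ^ (2 : ℝ) *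
          ∫⁻ p, (∫⁻ z in hartogs, ‖w (G1 ε (p, z))‖ₑ ^ (2 : ℝ)) ∂ν := by
        rw [lintegral_const_mul' _ _ (ENNReal.rpow_ne_top_of_nonneg (by norm_num)
          ENNReal.ofReal_ne_top), lintegral_lintegral_swap (f := fun p z =>
            ‖w (G1 ε (p, z))‖ₑ ^ (2 : ℝ)) hm2.aemeasurable]
    _ ≤ ENNReal.ofReal (5 * ε) ^ (2 : ℝ) *
          ∫⁻ _p, (ENNReal.ofReal 4 ^ (2 : ℝ) * ∫⁻ z in hartogs, ‖w z‖ₑ ^ (2 : ℝ)) ∂ν := by
        gcongr 1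
        exact setLIntegral_mono' hC hch
    _ = _ := by
        rw [lintegral_const, hν1, mul_one, ← eLpNorm_two_sq, ← mul_assoc,
          ← ENNReal.mul_rpow_of_nonneg _ _ (by norm_num),
          ← ENNReal.mul_rpow_of_nonneg _ _ (by norm_num), ← ENNReal.ofReal_mul (by positivity)]
        congr 3
        ring

theorem lint_ball_le (hε1 : 0 < ε) {w : ℂ × ℂ → Alt 𝕜 q} (hw : Continuous w) {y : ℂ × ℂ}
    (hy : y ∈ hartogs) :
    ∫⁻ v in closedBall 0 1, ‖w (gmap ε v y)‖ₑ ∂piV ≤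
      ENNReal.ofReal (√cB * ((ε * ‖y.2‖) ^ 2)⁻¹) * eLpNorm w 2 (volume.restrict hartogs) := by
  have hy0 := snd_pos hy
  have hc : Continuous fun v => gmap ε v y :=
    contDiff_gmap.continuous.comp (f := fun v : ℂ × ℂ => (ε, v, y)) (by fun_prop)
  have hm : Measurable fun v => ‖w (gmap ε v y)‖ₑ := (hw.comp hc).enorm.measurable
  rw [← ENNReal.rpow_le_rpow_iff (z := 2) (by norm_num)]
  refine (lint_sq_le _ hm.aemeasurable).trans ?_
  rw [Measure.restrict_apply_univ, piV_ball, one_mul, ENNReal.mul_rpow_of_nonneg _ _ (by norm_num),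
    eLpNorm_two_sq]
  set ζ : ℂ := (ε : ℂ) * y.2 with hζ
  have hζn : ‖ζ‖ = ε * ‖y.2‖ := by
    rw [hζ, norm_mul, Complex.norm_real, Real.norm_of_nonneg hε0]
  have hζ0 : ζ ≠ 0 := norm_pos_iff.1 (by rw [hζn]; positivity)
  have h1 := lintegral_comp_tri ζ ζ 0 (mul_ne_zero hζ0 hζ0) ((1 - 4 * ε) • y.1, (1 - 2 * ε) • y.2)
    (h := hartogs.indicator fun z => ‖w z‖ₑ ^ (2 : ℝ))
    ((hw.enorm.measurable.pow_const _).indicator measurableSet_hartogs)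
  rw [lintegral_indicator measurableSet_hartogs] at h1
  calc ∫⁻ v in closedBall 0 1, ‖w (gmap ε v y)‖ₑ ^ (2 : ℝ) ∂piV
      = ∫⁻ v in closedBall 0 1, (hartogs.indicator fun z => ‖w z‖ₑ ^ (2 : ℝ)) (gmap ε v y) ∂piV := by
        refine setLIntegral_congr_fun measurableSet_closedBall fun v hv => ?_
        rw [indicator_of_mem (gmap_mem hε0 hε (mem_closedBall_zero_iff.1 hv) hy)]
    _ ≤ ∫⁻ v, (hartogs.indicator fun z => ‖w z‖ₑ ^ (2 : ℝ)) (gmap ε v y) ∂piV :=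
        setLIntegral_le_lintegral _ _
    _ = cB * (ENNReal.ofReal ((‖ζ * ζ‖ ^ 2)⁻¹) * ∫⁻ z in hartogs, ‖w z‖ₑ ^ (2 : ℝ)) := by
        rw [piV, lintegral_smul_measure, ← h1, ENNReal.smul_def, smul_eq_mul]
        congr 1
        refine lintegral_congr fun v => ?_
        congr 1
        simp only [gmap, zero_mul, add_zero]
        rfl
    _ = _ := by
        rw [← mul_assoc, ENNReal.ofReal_rpow_of_nonneg (by positivity) (by norm_num),
          ← ENNReal.ofReal_coe_nnreal, ← ENNReal.ofReal_mul (by positivity), norm_mul, hζn]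
        congr 2
        rw [Real.rpow_two, mul_pow (√cB), Real.sq_sqrt (by positivity)]
        field_simp

theorem lint_BP_le (hε1 : 0 < ε) {w : ℂ × ℂ → Alt 𝕜 q} (hw : Continuous w) {s : ℝ}
    (hs : s ∈ Icc (0 : ℝ) 1) {z : ℂ × ℂ} (hz : z ∈ hartogs) :
    ∫⁻ p in BP, ‖w (G2 ε ((s, p), z))‖ₑ ∂piP ≤
      ENNReal.ofReal (√cB * ((ε * ((1 - s) * ‖z.2‖ + s / 2)) ^ 2)⁻¹) *
        eLpNorm w 2 (volume.restrict hartogs) := by
  have hc : Continuous fun p : Par => G2 ε ((s, p), z) :=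
    (contDiffOn_G2 ε).continuousOn.comp_continuous (by fun_prop) (fun _ => snd_ne hz)
  have hm : Measurable fun p : Par => ‖w (G2 ε ((s, p), z))‖ₑ := (hw.comp hc).enorm.measurable
  rw [piP, BP, ← Measure.prod_restrict, lintegral_prod _ hm.aemeasurable]
  calc _ ≤ ∫⁻ _α in Icc (0 : ℝ) 1, ENNReal.ofReal (√cB * ((ε * ((1 - s) * ‖z.2‖ + s / 2)) ^ 2)⁻¹) *
        eLpNorm w 2 (volume.restrict hartogs) := by
        refine lintegral_mono fun α => ?_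
        have := lint_ball_le hε0 hε hε1 hw (phi_mem hs α hz)
        rw [norm_phi_snd hs α (snd_ne hz)] at this
        exact this
    _ = _ := by simp

end onT

end Pool.Agent.H188Z
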