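import Pool.Agent.H188Z.Ops

/-! Pointwise bounds and the homotopy operators on `L²`. -/

set_option autoImplicit false

open scoped Topology ENNReal ContDiff NNReal
open Set Metric MeasureTheory Filter Complex

noncomputable section

namespace Pool.Agent.H188Z

theorem key_bound {s t : ℝ} (hs0 : 0 < s) (hs1 : s ≤ 1) (ht0 : 0 < t) (ht1 : t < 1) :
    (1 + s / 2 * t⁻¹) * (((1 - s) * t + s / 2) ^ 2)⁻¹ ≤
      6 * t ^ (-(3 / 2 : ℝ)) * s ^ (-(1 / 2 : ℝ)) := by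
  obtain ⟨a, ha0, rfl⟩ : ∃ a : ℝ, 0 < a ∧ t = a ^ 2 :=
    ⟨√t, Real.sqrt_pos.2 ht0, (Real.sq_sqrt ht0.le).symm⟩
  obtain ⟨b, hb0, rfl⟩ : ∃ b : ℝ, 0 < b ∧ s = b ^ 2 :=
    ⟨√s, Real.sqrt_pos.2 hs0, (Real.sq_sqrt hs0.le).symm⟩
  have h1 : (a ^ 2) ^ (-(3 / 2 : ℝ)) = (a ^ 3)⁻¹ := by
    rw [← Real.rpow_natCast, ← Real.rpow_mul ha0.le, ← Real.rpow_natCast, ← Real.rpow_neg ha0.le]
    norm_num
  have h2 : (b ^ 2) ^ (-(1 / 2 : ℝ)) = b⁻¹ := by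
    rw [← Real.rpow_natCast, ← Real.rpow_mul hb0.le, ← Real.rpow_neg_one]
    norm_num
  rw [h1, h2]
  set r := (1 - b ^ 2) * a ^ 2 + b ^ 2 / 2 with hr
  have h3 : a ^ 2 / 2 ≤ r := by rw [hr]; nlinarith
  have h4 : b ^ 2 / 2 ≤ r := by rw [hr]; nlinarith
  have hr0 : 0 < r := lt_of_lt_of_le (by positivity) h4
  have h5 : a * b / 2 ≤ r := by nlinarith [sq_nonneg (a - b)]
  have h6 : 1 + b ^ 2 / 2 * (a ^ 2)⁻¹ ≤ 3 * r * (a ^ 2)⁻¹ := by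
    rw [← sub_nonneg]
    have : 3 * r * (a ^ 2)⁻¹ - (1 + b ^ 2 / 2 * (a ^ 2)⁻¹) =
        (3 * r - a ^ 2 - b ^ 2 / 2) * (a ^ 2)⁻¹ := by field_simp; ring
    rw [this]
    exact mul_nonneg (by linarith) (by positivity)
  calc _ ≤ 3 * r * (a ^ 2)⁻¹ * (r ^ 2)⁻¹ := by gcongr
    _ = 3 * (a ^ 2)⁻¹ * r⁻¹ := by field_simp
    _ ≤ 3 * (a ^ 2)⁻¹ * (a * b / 2)⁻¹ := by gcongr
    _ = _ := by field_simp; ring

theorem lint_rpow_ne_top :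
    ∫⁻ s in Icc (0 : ℝ) 1, ENNReal.ofReal (s ^ (-(1 / 2 : ℝ))) ≠ ⊤ := by
  have h := intervalIntegral.intervalIntegrable_rpow' (r := -(1 / 2 : ℝ)) (by norm_num)
    (a := 0) (b := 1)
  rw [intervalIntegrable_iff_integrableOn_Icc_of_le zero_le_one] at h
  exact h.lintegral_lt_top.ne

theorem memLp_F (C : ℝ) :
    MemLp (fun z : ℂ × ℂ => C * ‖z‖ ^ (-(3 / 2 : ℝ))) 2 (volume.restrict hartogs) := by
  refine MemLp.const_mul ?_ C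
  have hm : AEStronglyMeasurable (fun z : ℂ × ℂ => ‖z‖ ^ (-(3 / 2 : ℝ))) volume :=
    (measurable_norm.pow_const _).aestronglyMeasurable
  rw [memLp_two_iff_integrable_sq hm.restrict]
  have h1 : IntegrableOn (fun z : ℂ × ℂ => (‖z‖ ^ (-(3 / 2 : ℝ))) ^ 2) (ball 0 1) volume := by
    refine integrableOn_ball_of_norm_le_rpow (C := 1) (α := 3) ?_ ?_ ?_ ?_
    · simp [Module.finrank_prod]
    · simp [Module.finrank_prod]
      norm_num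
    · refine Eventually.of_forall fun z => le_of_eq ?_
      rw [Real.norm_of_nonneg (by positivity), ← Real.rpow_natCast,
        ← Real.rpow_mul (norm_nonneg _), one_mul]
      norm_num
    · exact hm.pow 2
  exact h1.mono_set hartogs_subset

section wrap

variable {Z : Type*} [MeasurableSpace Z] {μ : Measure Z} {𝕜 : Type*} [RCLike 𝕜] {S X : Type*}
  [AddCommMonoid S] [Module 𝕜 S] [NormedAddCommGroup X]

theorem exists_extend' {Λ : Type*} [NormedAddCommGroup Λ] [NormedSpace 𝕜 Λ] [CompleteSpace Λ]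
    [NormedSpace 𝕜 X] (e : S →ₗ[𝕜] X) (he : DenseRange e) (k : S →ₗ[𝕜] (Z → Λ))
    (hm : ∀ u, AEStronglyMeasurable (k u) μ) {C : ℝ} (hC : 0 ≤ C)
    (hb : ∀ u, eLpNorm (k u) 2 μ ≤ ENNReal.ofReal (C * ‖e u‖)) :
    ∃ A : X →L[𝕜] Lp Λ 2 μ, ‖A‖ ≤ C ∧ ∀ u, A (e u) =ᵐ[μ] k u := by
  letI : AddCommGroup S := Module.addCommMonoidToAddCommGroup 𝕜
  exact exists_extend e he k hm hC hb

theorem exists_compact_extend' {ι : Type*} [Fintype ι] [InnerProductSpace 𝕜 X] [CompleteSpace X]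
    [TopologicalSpace.SeparableSpace X] (e : S →ₗ[𝕜] X) (he : DenseRange e)
    (k : S →ₗ[𝕜] (Z → EuclideanSpace 𝕜 ι))
    (hm : ∀ u, AEStronglyMeasurable (k u) μ) {F : Z → ℝ} (hF : MemLp F 2 μ)
    (hb : ∀ᵐ z ∂μ, ∀ u, ‖k u z‖ ≤ F z * ‖e u‖) :
    ∃ A : X →L[𝕜] Lp (EuclideanSpace 𝕜 ι) 2 μ, IsCompactOperator A ∧ ∀ u, A (e u) =ᵐ[μ] k u := by
  letI : AddCommGroup S := Module.addCommMonoidToAddCommGroup 𝕜
  exact exists_compact_extend e he k hm hF hb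

end wrap

instance factTwoNeTop : Fact ((2 : ℝ≥0∞) ≠ ⊤) := ⟨by simp⟩

variable {𝕜 : Type} [RCLike 𝕜] {q : ℕ} {ε : ℝ}

section onT

variable (hε0 : 0 ≤ ε) (hε : ε ≤ 1 / 8)
include hε0 hε

theorem slice_bound (hε1 : 0 < ε) {w : ℂ × ℂ → Alt 𝕜 q} (hw : Continuous w) {s : ℝ}
    (hs0 : 0 < s) (hs1 : s ≤ 1) {z : ℂ × ℂ} (hz : z ∈ hartogs) {D : ℝ} (hD : 0 ≤ D) :
    ∫⁻ p in BP, ENNReal.ofReal (D * (1 + s / 2 * ‖z.2‖⁻¹)) * ‖w (G2 ε ((s, p), z))‖ₑ ∂piP ≤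
      ENNReal.ofReal (s ^ (-(1 / 2 : ℝ))) *
        (ENNReal.ofReal (D * (√cB * (ε ^ 2)⁻¹ * 6) * ‖z‖ ^ (-(3 / 2 : ℝ))) *
          eLpNorm w 2 (volume.restrict hartogs)) := by
  rw [lintegral_const_mul' _ _ ENNReal.ofReal_ne_top]
  refine (mul_le_mul_right (lint_BP_le hε0 hε hε1 hw ⟨hs0.le, hs1⟩ hz) _).trans ?_
  rw [← mul_assoc, ← mul_assoc]
  refine mul_le_mul_left ?_ _
  have h0 := snd_pos hz
  rw [← ENNReal.ofReal_mul (by positivity), ← ENNReal.ofReal_mul (by positivity)]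
  apply ENNReal.ofReal_le_ofReal
  have h1 := key_bound hs0 hs1 h0 hz.2
  rw [norm_of_mem hz, mul_pow, mul_inv]
  calc _ = D * (√cB * (ε ^ 2)⁻¹) *
        ((1 + s / 2 * ‖z.2‖⁻¹) * (((1 - s) * ‖z.2‖ + s / 2) ^ 2)⁻¹) := by ring
    _ ≤ D * (√cB * (ε ^ 2)⁻¹) * (6 * ‖z.2‖ ^ (-(3 / 2 : ℝ)) * s ^ (-(1 / 2 : ℝ))) := by gcongr
    _ = _ := by ring

theorem pt_hP (hε1 : 0 < ε) (q : ℕ) : ∃ C : ℝ, 0 ≤ C ∧ ∀ w : ℂ × ℂ → Alt 𝕜 q, Continuous w →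
    ∀ z ∈ hartogs, ‖hP ε w z‖ₑ ≤
      ENNReal.ofReal (C * ‖z‖ ^ (-(3 / 2 : ℝ))) * eLpNorm w 2 (volume.restrict hartogs) := by
  refine ⟨2 ^ q * (√cB * (ε ^ 2)⁻¹ * 6), by positivity, fun w hw z hz => ?_⟩
  have h1 := slice_bound hε0 hε hε1 hw one_pos le_rfl hz (D := 2 ^ q) (by positivity)
  rw [Real.one_rpow, ENNReal.ofReal_one, one_mul] at h1
  refine le_trans ?_ h1
  refine (enorm_integral_le_lintegral_enorm _).trans ?_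
  refine setLIntegral_mono' isCompact_BP.measurableSet fun p hp => ?_
  have h0 := snd_pos hz
  rw [← ofReal_norm_eq_enorm, ← ofReal_norm_eq_enorm, ← ENNReal.ofReal_mul (by positivity)]
  exact ENNReal.ofReal_le_ofReal (norm_comp_G2 hε0 hε _ (x := ((1, p), z)) ⟨⟨by simp, hp⟩, hz⟩)

theorem pt_hK (hε1 : 0 < ε) (q : ℕ) : ∃ C : ℝ, 0 ≤ C ∧ ∀ w : ℂ × ℂ → Alt 𝕜 (q + 1), Continuous w →
    ∀ z ∈ hartogs, ‖hK ε w z‖ₑ ≤
      ENNReal.ofReal (C * ‖z‖ ^ (-(3 / 2 : ℝ))) * eLpNorm w 2 (volume.restrict hartogs) := by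
  set M := ∫⁻ s in Icc (0 : ℝ) 1, ENNReal.ofReal (s ^ (-(1 / 2 : ℝ))) with hM
  refine ⟨M.toReal * (10 * 2 ^ q * (√cB * (ε ^ 2)⁻¹ * 6)), by positivity, fun w hw z hz => ?_⟩
  have h0 := snd_pos hz
  have hC : MeasurableSet (Icc (0 : ℝ) 1 ×ˢ BP) := (isCompact_Icc.prod isCompact_BP).measurableSet
  have hc : Continuous fun p : ℝ × Par => G2 ε (p, z) :=
    (contDiffOn_G2 ε).continuousOn.comp_continuous (by fun_prop) (fun _ => snd_ne hz)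
  have hm : Measurable fun p : ℝ × Par =>
      ENNReal.ofReal (10 * 2 ^ q * (1 + p.1 / 2 * ‖z.2‖⁻¹)) * ‖w (G2 ε (p, z))‖ₑ :=
    (ENNReal.measurable_ofReal.comp (by fun_prop)).mul (hw.comp hc).enorm.measurable
  calc ‖hK ε w z‖ₑ ≤ ∫⁻ p in Icc (0 : ℝ) 1 ×ˢ BP,
        ENNReal.ofReal (10 * 2 ^ q * (1 + p.1 / 2 * ‖z.2‖⁻¹)) * ‖w (G2 ε (p, z))‖ₑ
          ∂(volume.prod piP) := by
        refine (enorm_integral_le_lintegral_enorm _).trans ?_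
        refine setLIntegral_mono' hC fun p hp => ?_
        have h1 : 0 ≤ p.1 := hp.1.1
        rw [← ofReal_norm_eq_enorm, ← ofReal_norm_eq_enorm, ← ENNReal.ofReal_mul (by positivity)]
        exact ENNReal.ofReal_le_ofReal (norm_hom_G2 hε0 hε w (x := (p, z)) ⟨hp, hz⟩)
    _ = ∫⁻ s in Icc (0 : ℝ) 1, ∫⁻ p in BP,
        ENNReal.ofReal (10 * 2 ^ q * (1 + s / 2 * ‖z.2‖⁻¹)) * ‖w (G2 ε ((s, p), z))‖ₑ ∂piP := by
        rw [← Measure.prod_restrict, lintegral_prod _ hm.aemeasurable]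
    _ ≤ ∫⁻ s in Icc (0 : ℝ) 1, ENNReal.ofReal (s ^ (-(1 / 2 : ℝ))) *
        (ENNReal.ofReal (10 * 2 ^ q * (√cB * (ε ^ 2)⁻¹ * 6) * ‖z‖ ^ (-(3 / 2 : ℝ))) *
          eLpNorm w 2 (volume.restrict hartogs)) := by
        refine lintegral_mono_ae ?_
        have h1 : ∀ᵐ s ∂(volume.restrict (Icc (0 : ℝ) 1)), s ≠ 0 :=
          ae_restrict_of_ae (by simp [ae_iff])
        filter_upwards [h1, ae_restrict_mem measurableSet_Icc] with s hs hs'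
        exact slice_bound hε0 hε hε1 hw (lt_of_le_of_ne hs'.1 hs.symm) hs'.2 hz (by positivity)
    _ = _ := by
        rw [lintegral_mul_const _ (by fun_prop), ← hM, ← mul_assoc, mul_assoc M.toReal,
          ENNReal.ofReal_mul ENNReal.toReal_nonneg, ENNReal.ofReal_toReal lint_rpow_ne_top]

theorem sup_hAK {w : ℂ × ℂ → Alt 𝕜 (q + 1)} {M : ℝ} (hM : ∀ y ∈ hartogs, ‖w y‖ ≤ M)
    {z : ℂ × ℂ} (hz : z ∈ hartogs) :
    ‖-hA ε w z + -hK ε w z‖ ≤ (21 * 2 ^ q * M) * ‖z.2‖⁻¹ := by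
  have h0 := snd_pos hz
  have hM0 : 0 ≤ M := (norm_nonneg _).trans (hM z hz)
  have hfin : (volume.prod piP) (Icc (0 : ℝ) 1 ×ˢ BP) < ⊤ := by rw [nu_C]; simp
  have ht : 1 ≤ ‖z.2‖⁻¹ := (one_le_inv₀ h0).2 hz.2.le
  have hq : (1 : ℝ) ≤ 2 ^ q := one_le_pow₀ one_le_two
  have h1 : ‖hA ε w z‖ ≤ M := by
    have := norm_setIntegral_le_of_norm_le_const (f := fun p => hom (G1 ε) (1, 0) w (p, z))
      (C := M) hfin (fun p hp => (norm_hom_G1 hε0 hε w (x := (p, z)) ⟨hp, hz⟩).trans (by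
        have := hM _ (G1_mem hε0 hε (x := (p, z)) ⟨hp, hz⟩)
        nlinarith [norm_nonneg (w (G1 ε (p, z)))]))
    rwa [Measure.real, nu_C, ENNReal.toReal_one, mul_one] at this
  have h2 : ‖hK ε w z‖ ≤ 10 * 2 ^ q * (2 * ‖z.2‖⁻¹) * M := by
    have := norm_setIntegral_le_of_norm_le_const (f := fun p => hom (G2 ε) (1, 0) w (p, z))
      (C := 10 * 2 ^ q * (2 * ‖z.2‖⁻¹) * M) hfin
      (fun p hp => (norm_hom_G2 hε0 hε w (x := (p, z)) ⟨hp, hz⟩).trans (by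
        have h3 := hM _ (G2_mem hε0 hε (x := (p, z)) ⟨hp, hz⟩)
        have h4 : p.1 ≤ 1 := hp.1.2
        have h5 : 0 ≤ p.1 := hp.1.1
        gcongr
        show 1 + p.1 / 2 * ‖z.2‖⁻¹ ≤ 2 * ‖z.2‖⁻¹
        nlinarith))
    rwa [Measure.real, nu_C, ENNReal.toReal_one, mul_one] at this
  refine (norm_add_le _ _).trans ?_
  rw [norm_neg, norm_neg]
  have h3 : M ≤ 2 ^ q * M * ‖z.2‖⁻¹ := by
    calc M = 1 * M * 1 := by ring
      _ ≤ _ := by gcongr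
  linarith

end onT

section smoothU

theorem sub_W0 : (Icc (0 : ℝ) 1 ×ˢ BP) ×ˢ U0 ⊆ W0 := fun _ hx => hx.2

theorem contDiff_hA {w : ℂ × ℂ → Alt 𝕜 (q + 1)} (hw : ContDiff ℝ ∞ w) :
    ContDiff ℝ ∞ (hA ε w) :=
  contDiffOn_univ.1 (contDiffOn_avgHom isCompact_BP isOpen_univ isOpen_univ (subset_univ _)
    (contDiff_G1 ε).contDiffOn (mapsTo_univ _ _) hw.contDiffOn)

theorem contDiffOn_hK_U0 {w : ℂ × ℂ → Alt 𝕜 (q + 1)} (hw : ContDiff ℝ ∞ w) :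
    ContDiffOn ℝ ∞ (hK ε w) U0 :=
  contDiffOn_avgHom isCompact_BP isOpen_U0 isOpen_W0 sub_W0 (contDiffOn_G2 ε) (mapsTo_univ _ _)
    hw.contDiffOn

end smoothU

section linear

theorem hom_add {G : (ℝ × Par) × (ℂ × ℂ) → ℂ × ℂ} (v w : ℂ × ℂ → Alt 𝕜 (q + 1))
    (x : (ℝ × Par) × (ℂ × ℂ)) : hom G (1, 0) (v + w) x = hom G (1, 0) v x + hom G (1, 0) w x := by
  ext ξ
  simp [hom]

theorem hom_smul {G : (ℝ × Par) × (ℂ × ℂ) → ℂ × ℂ} (c : 𝕜) (w : ℂ × ℂ → Alt 𝕜 (q + 1))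
    (x : (ℝ × Par) × (ℂ × ℂ)) : hom G (1, 0) (c • w) x = c • hom G (1, 0) w x := by
  ext ξ
  simp [hom]

theorem pull_add {G : (ℝ × Par) × (ℂ × ℂ) → ℂ × ℂ} (v w : ℂ × ℂ → Alt 𝕜 q)
    (x : (ℝ × Par) × (ℂ × ℂ)) : pull G (v + w) x = pull G v x + pull G w x := by
  ext ξ
  simp [pull]

theorem pull_smul {G : (ℝ × Par) × (ℂ × ℂ) → ℂ × ℂ} (c : 𝕜) (w : ℂ × ℂ → Alt 𝕜 q)
    (x : (ℝ × Par) × (ℂ × ℂ)) : pull G (c • w) x = c • pull G w x := by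
  ext ξ
  simp [pull]

theorem avgHom_add {G : (ℝ × Par) × (ℂ × ℂ) → ℂ × ℂ} (hG : ContDiffOn ℝ ∞ G W0)
    (v w : Sm 𝕜 (q + 1)) {z : ℂ × ℂ} (hz : z ∈ hartogs) :
    avgHom piP BP G (v + w).1 z = avgHom piP BP G v.1 z + avgHom piP BP G w.1 z := by
  have h1 : ∀ u : Sm 𝕜 (q + 1), IntegrableOn (fun p => hom G (1, 0) u.1 (p, z))
      (Icc (0 : ℝ) 1 ×ˢ BP) (volume.prod piP) := fun u =>
    (cont_slice (contDiffOn_hom isOpen_W0 hG _ (Sm.smooth u).contDiffOn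
      (mapsTo_univ _ _)).continuousOn sub_W0 (snd_ne hz)).integrableOn_compact
      (isCompact_Icc.prod isCompact_BP)
  rw [avgHom, avgHom, avgHom, ← integral_add (h1 v) (h1 w)]
  simp only [Submodule.coe_add, hom_add]

theorem avgHom_smul {G : (ℝ × Par) × (ℂ × ℂ) → ℂ × ℂ} (c : 𝕜) (w : Sm 𝕜 (q + 1)) (z : ℂ × ℂ) :
    avgHom piP BP G (c • w).1 z = c • avgHom piP BP G w.1 z := by
  rw [avgHom, avgHom, ← integral_smul]
  simp only [Submodule.coe_smul, hom_smul]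

theorem hP_add (v w : Sm 𝕜 q) {z : ℂ × ℂ} (hz : z ∈ hartogs) :
    hP ε (v + w).1 z = hP ε v.1 z + hP ε w.1 z := by
  have h1 : ∀ u : Sm 𝕜 q, IntegrableOn (fun p => pull (G2 ε) u.1 ((1, p), z)) BP piP := fun u => by
    refine ContinuousOn.integrableOn_compact isCompact_BP ?_
    exact (contDiffOn_pull isOpen_W0 (contDiffOn_G2 ε) (Sm.smooth u).contDiffOn
      (mapsTo_univ _ _)).continuousOn.comp (by fun_prop) (fun p _ => snd_ne hz)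
  rw [hP, hP, hP, avgPull, avgPull, avgPull, ← integral_add (h1 v) (h1 w)]
  simp only [Submodule.coe_add, pull_add]

theorem hP_smul (c : 𝕜) (w : Sm 𝕜 q) (z : ℂ × ℂ) : hP ε (c • w).1 z = c • hP ε w.1 z := by
  rw [hP, hP, avgPull, avgPull, ← integral_smul]
  simp only [Submodule.coe_smul, pull_smul]

variable {a b : ℕ}

def mkOp (h : (ℂ × ℂ → Alt 𝕜 a) → ℂ × ℂ → Alt 𝕜 b)
    (hadd : ∀ v w : Sm 𝕜 a, ∀ z ∈ hartogs, h (v + w).1 z = h v.1 z + h w.1 z)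
    (hsmul : ∀ (c : 𝕜) (w : Sm 𝕜 a), ∀ z ∈ hartogs, h (c • w).1 z = c • h w.1 z) :
    Sm 𝕜 a →ₗ[𝕜] (ℂ × ℂ → Cov 𝕜 b) where
  toFun w := hartogs.indicator fun z => coef 𝕜 b (h w.1 z)
  map_add' v w := by
    funext z
    by_cases hz : z ∈ hartogs
    · simp only [Pi.add_apply, indicator_of_mem hz, hadd v w z hz, map_add]
    · simp only [Pi.add_apply, indicator_of_notMem hz, add_zero]
  map_smul' c w := by
    funext z
    by_cases hz : z ∈ hartogs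
    · simp only [Pi.smul_apply, indicator_of_mem hz, hsmul c w z hz, map_smul, RingHom.id_apply]
    · simp only [Pi.smul_apply, indicator_of_notMem hz, smul_zero]

theorem mkOp_ae (h : (ℂ × ℂ → Alt 𝕜 a) → ℂ × ℂ → Alt 𝕜 b) (hadd) (hsmul) (w : Sm 𝕜 a) :
    mkOp h hadd hsmul w =ᵐ[volume.restrict hartogs] fun z => coef 𝕜 b (h w.1 z) :=
  indicator_ae_eq_restrict measurableSet_hartogs

theorem aesm_of_contDiffOn {β : ℂ × ℂ → Alt 𝕜 b} (hβ : ContDiffOn ℝ ∞ β hartogs) :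
    AEStronglyMeasurable (fun z => coef 𝕜 b (β z)) (volume.restrict hartogs) :=
  ((coef 𝕜 b).continuous.comp_continuousOn hβ.continuousOn).aestronglyMeasurable
    measurableSet_hartogs

theorem eLpNorm_le_emb {c : ℝ} (hc0 : 0 ≤ c) (hc : ∀ w : Alt 𝕜 a, ‖w‖ ≤ c * ‖coef 𝕜 a w‖)
    (w : Sm 𝕜 a) :
    eLpNorm w.1 2 (volume.restrict hartogs) ≤ ENNReal.ofReal (c * ‖emb 𝕜 a w‖) := by
  rw [ENNReal.ofReal_mul hc0, Lp.norm_def, ENNReal.ofReal_toReal (Lp.eLpNorm_ne_top _),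
    eLpNorm_congr_ae (emb_ae w)]
  exact eLpNorm_le_mul_eLpNorm_of_ae_le_mul (Eventually.of_forall fun z => hc _) 2

theorem exists_small_op (h : (ℂ × ℂ → Alt 𝕜 a) → ℂ × ℂ → Alt 𝕜 b)
    (hadd : ∀ v w : Sm 𝕜 a, ∀ z ∈ hartogs, h (v + w).1 z = h v.1 z + h w.1 z)
    (hsmul : ∀ (c : 𝕜) (w : Sm 𝕜 a), ∀ z ∈ hartogs, h (c • w).1 z = c • h w.1 z)
    (hs : ∀ w : Sm 𝕜 a, ContDiffOn ℝ ∞ (h w.1) hartogs) {C c c' : ℝ} (hC : 0 ≤ C) (hc0 : 0 ≤ c)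
    (hc0' : 0 ≤ c') (hc : ∀ w : Alt 𝕜 a, ‖w‖ ≤ c * ‖coef 𝕜 a w‖)
    (hc' : ∀ w : Alt 𝕜 b, ‖coef 𝕜 b w‖ ≤ c' * ‖w‖)
    (hb : ∀ w : Sm 𝕜 a, eLpNorm (h w.1) 2 (volume.restrict hartogs) ≤
      ENNReal.ofReal C * eLpNorm w.1 2 (volume.restrict hartogs)) :
    ∃ A : L2 𝕜 a →L[𝕜] L2 𝕜 b, ‖A‖ ≤ c' * C * c ∧
      ∀ w, A (emb 𝕜 a w) =ᵐ[volume.restrict hartogs] fun z => coef 𝕜 b (h w.1 z) := by
  obtain ⟨A, h1, h2⟩ := exists_extend' (emb 𝕜 a) denseRange_emb (mkOp h hadd hsmul)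
    (fun w => (aesm_of_contDiffOn (hs w)).congr (mkOp_ae h hadd hsmul w).symm)
    (C := c' * C * c) (by positivity) (fun w => by
      rw [eLpNorm_congr_ae (mkOp_ae h hadd hsmul w)]
      refine (eLpNorm_le_mul_eLpNorm_of_ae_le_mul (Eventually.of_forall fun z => hc' _) 2).trans ?_
      rw [mul_assoc, mul_assoc, ENNReal.ofReal_mul hc0', ENNReal.ofReal_mul hC]
      gcongr
      refine (hb w).trans ?_
      gcongr
      exact eLpNorm_le_emb hc0 hc w)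
  exact ⟨A, h1, fun w => (h2 w).trans (mkOp_ae h hadd hsmul w)⟩

theorem exists_cpt_op (h : (ℂ × ℂ → Alt 𝕜 a) → ℂ × ℂ → Alt 𝕜 b)
    (hadd : ∀ v w : Sm 𝕜 a, ∀ z ∈ hartogs, h (v + w).1 z = h v.1 z + h w.1 z)
    (hsmul : ∀ (c : 𝕜) (w : Sm 𝕜 a), ∀ z ∈ hartogs, h (c • w).1 z = c • h w.1 z)
    (hs : ∀ w : Sm 𝕜 a, ContDiffOn ℝ ∞ (h w.1) hartogs) {C : ℝ} (hC : 0 ≤ C)
    (hb : ∀ w : Sm 𝕜 a, ∀ z ∈ hartogs, ‖h w.1 z‖ₑ ≤
      ENNReal.ofReal (C * ‖z‖ ^ (-(3 / 2 : ℝ))) * eLpNorm w.1 2 (volume.restrict hartogs)) :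
    ∃ A : L2 𝕜 a →L[𝕜] L2 𝕜 b, IsCompactOperator A ∧
      ∀ w, A (emb 𝕜 a w) =ᵐ[volume.restrict hartogs] fun z => coef 𝕜 b (h w.1 z) := by
  obtain ⟨c, hc0, -, hc⟩ := exists_coef_bound 𝕜 a
  obtain ⟨c', hc0', hc', -⟩ := exists_coef_bound 𝕜 b
  obtain ⟨A, h1, h2⟩ := exists_compact_extend' (emb 𝕜 a) denseRange_emb (mkOp h hadd hsmul)
    (fun w => (aesm_of_contDiffOn (hs w)).congr (mkOp_ae h hadd hsmul w).symm)
    (memLp_F (c' * C * c)) (by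
      filter_upwards [ae_restrict_mem measurableSet_hartogs] with z hz w
      show ‖hartogs.indicator (fun z => coef 𝕜 b (h w.1 z)) z‖ ≤ _
      rw [indicator_of_mem hz]
      refine (hc' _).trans ?_
      have h3 := (hb w z hz).trans (mul_le_mul_right (eLpNorm_le_emb hc0.le hc w) _)
      rw [← ENNReal.ofReal_mul (by positivity), ← ofReal_norm_eq_enorm,
        ENNReal.ofReal_le_ofReal_iff (by positivity)] at h3
      calc c' * ‖h w.1 z‖ ≤ c' * (C * ‖z‖ ^ (-(3 / 2 : ℝ)) * (c * ‖emb 𝕜 a w‖)) := by gcongr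
        _ = _ := by ring)
  exact ⟨A, h1, fun w => (h2 w).trans (mkOp_ae h hadd hsmul w)⟩

end linear

variable (𝕜) in
/-- The homotopy operators on `L²` at scale `ε`. -/
structure Ops (ε : ℝ) where
  A : (q : ℕ) → L2 𝕜 (q + 1) →L[𝕜] L2 𝕜 q
  K : (q : ℕ) → L2 𝕜 (q + 1) →L[𝕜] L2 𝕜 q
  P : (q : ℕ) → L2 𝕜 q →L[𝕜] L2 𝕜 q
  hA : ∀ q w, A q (emb 𝕜 (q + 1) w) =ᵐ[volume.restrict hartogs] fun z => coef 𝕜 q (-hA ε w.1 z)
  hK : ∀ q w, K q (emb 𝕜 (q + 1) w) =ᵐ[volume.restrict hartogs] fun z => coef 𝕜 q (-hK ε w.1 z)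
  hP : ∀ q w, P q (emb 𝕜 q w) =ᵐ[volume.restrict hartogs] fun z => coef 𝕜 q (hP ε w.1 z)
  cK : ∀ q, IsCompactOperator (K q)
  cP : ∀ q, IsCompactOperator (P q)

variable (𝕜) in
theorem exists_ops : ∃ c : ℕ → ℝ, (∀ q, 0 < c q) ∧ ∀ ε : ℝ, 0 < ε → ε ≤ 1 / 8 →
    ∃ O : Ops 𝕜 ε, ∀ q, ‖O.A q‖ ≤ c q * ε := by
  choose c hc0 hc1 hc2 using exists_coef_bound 𝕜
  refine ⟨fun q => c q * 20 * c (q + 1), fun q => by have := hc0 q; have := hc0 (q + 1); positivity,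
    fun ε hε1 hε => ?_⟩
  have hε0 := hε1.le
  choose A hA1 hA2 using fun q => exists_small_op (a := q + 1) (b := q)
    (fun w z => -hA (𝕜 := 𝕜) ε w z)
    (fun v w z hz => by
      simp only [hA, avgHom_add (contDiff_G1 ε).contDiffOn v w hz, neg_add])
    (fun c w z _ => by simp only [hA, avgHom_smul, smul_neg])
    (fun w => (contDiffOn_hA hε0 hε (Sm.smooth w).contDiffOn).neg) (C := 20 * ε) (by positivity)
    (hc0 _).le (hc0 _).le (hc2 _) (hc1 _)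
    (fun w => (eLpNorm_neg (hA ε w.1) _ _).trans_le (eLpNorm_hA hε0 hε (Sm.smooth w).continuous))
  choose CK hCK0 hCK using pt_hK (𝕜 := 𝕜) hε0 hε hε1
  choose CP hCP0 hCP using pt_hP (𝕜 := 𝕜) hε0 hε hε1
  choose K hK1 hK2 using fun q => exists_cpt_op (a := q + 1) (b := q)
    (fun w z => -hK (𝕜 := 𝕜) ε w z)
    (fun v w z hz => by
      simp only [hK, avgHom_add (contDiffOn_G2 ε) v w hz, neg_add])
    (fun c w z _ => by simp only [hK, avgHom_smul, smul_neg])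
    (fun w => (contDiffOn_hK hε0 hε (Sm.smooth w).contDiffOn).neg) (hCK0 q)
    (fun w z hz => by
      rw [enorm_neg]
      exact hCK q _ (Sm.smooth w).continuous z hz)
  choose P hP1 hP2 using fun q => exists_cpt_op (a := q) (b := q) (hP (𝕜 := 𝕜) ε)
    (fun v w z hz => hP_add v w hz) (fun c w z _ => hP_smul c w z)
    (fun w => contDiffOn_hP hε0 hε (Sm.smooth w).contDiffOn) (hCP0 q)
    (fun w z hz => hCP q _ (Sm.smooth w).continuous z hz)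
  exact ⟨⟨A, K, P, hA2, hK2, hP2, hK1, hP1⟩, fun q => (hA1 q).trans (le_of_eq (by ring))⟩

end Pool.Agent.H188Z
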