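import Pool.Agent.H188Z.Theta

/-! The angular form is orthogonal to all weak gradients. -/

set_option autoImplicit false

open scoped Topology ENNReal ContDiff NNReal InnerProductSpace
open Set Metric MeasureTheory Filter Complex

noncomputable section

namespace Pool.Agent.H188Z

/-- Rotation invariant cut-off functions exhausting the triangle. -/
def psi (k : ℕ) (z : ℂ × ℂ) : ℝ :=
  Real.smoothTransition (k * (‖z.2‖ ^ 2 - ‖z.1‖ ^ 2) - 1) *
    Real.smoothTransition (k * (1 - ‖z.2‖ ^ 2) - 1)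

theorem contDiff_psi (k : ℕ) : ContDiff ℝ ∞ (psi k) := by
  have h1 : ContDiff ℝ ∞ (fun z : ℂ × ℂ => ‖z.1‖ ^ 2) := (contDiff_norm_sq ℝ).comp contDiff_fst
  have h2 : ContDiff ℝ ∞ (fun z : ℂ × ℂ => ‖z.2‖ ^ 2) := (contDiff_norm_sq ℝ).comp contDiff_snd
  exact (Real.smoothTransition.contDiff.comp
    ((contDiff_const.mul (h2.sub h1)).sub contDiff_const)).mul
    (Real.smoothTransition.contDiff.comp
      ((contDiff_const.mul (contDiff_const.sub h2)).sub contDiff_const))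

def Kset (k : ℕ) : Set (ℂ × ℂ) :=
  {z | 1 ≤ k * (‖z.2‖ ^ 2 - ‖z.1‖ ^ 2)} ∩ {z | 1 ≤ k * (1 - ‖z.2‖ ^ 2)}

theorem isClosed_Kset (k : ℕ) : IsClosed (Kset k) :=
  (isClosed_le continuous_const (by fun_prop)).inter (isClosed_le continuous_const (by fun_prop))

theorem Kset_subset (k : ℕ) : Kset k ⊆ hartogs := by
  intro z hz
  have hk : (0 : ℝ) ≤ k := Nat.cast_nonneg k
  have h1 : 0 < ‖z.2‖ ^ 2 - ‖z.1‖ ^ 2 := pos_of_mul_pos_right (zero_lt_one.trans_le hz.1) hk
  have h2 : 0 < 1 - ‖z.2‖ ^ 2 := pos_of_mul_pos_right (zero_lt_one.trans_le hz.2) hk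
  constructor
  · exact lt_of_pow_lt_pow_left₀ 2 (norm_nonneg _) (by linarith)
  · exact lt_of_pow_lt_pow_left₀ 2 zero_le_one (by linarith)

theorem isCompact_Kset (k : ℕ) : IsCompact (Kset k) :=
  (isCompact_closedBall (0 : ℂ × ℂ) 1).of_isClosed_subset (isClosed_Kset k)
    ((Kset_subset k).trans (hartogs_subset.trans ball_subset_closedBall))

theorem psi_eq_zero {k : ℕ} {z : ℂ × ℂ} (hz : z ∉ Kset k) : psi k z = 0 := by
  rw [Kset, mem_inter_iff, not_and_or] at hz
  rcases hz with h | h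
  · rw [psi, Real.smoothTransition.zero_of_nonpos (by simp only [mem_setOf_eq] at h; linarith),
      zero_mul]
  · rw [psi, Real.smoothTransition.zero_of_nonpos (x := k * (1 - ‖z.2‖ ^ 2) - 1)
      (by simp only [mem_setOf_eq] at h; linarith), mul_zero]

theorem psi_mem (k : ℕ) (z : ℂ × ℂ) : 0 ≤ psi k z ∧ psi k z ≤ 1 :=
  ⟨mul_nonneg (Real.smoothTransition.nonneg _) (Real.smoothTransition.nonneg _),
    mul_le_one₀ (Real.smoothTransition.le_one _) (Real.smoothTransition.nonneg _)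
      (Real.smoothTransition.le_one _)⟩

theorem psi_eventually {z : ℂ × ℂ} (hz : z ∈ hartogs) : ∀ᶠ k in atTop, psi k z = 1 := by
  have h1 : 0 < ‖z.2‖ ^ 2 - ‖z.1‖ ^ 2 :=
    sub_pos.2 (pow_lt_pow_left₀ hz.1 (norm_nonneg _) two_ne_zero)
  have h2 : 0 < 1 - ‖z.2‖ ^ 2 := sub_pos.2 (pow_lt_one₀ (norm_nonneg _) hz.2 two_ne_zero)
  filter_upwards [(tendsto_natCast_atTop_atTop.atTop_mul_const h1).eventually_ge_atTop 2,
    (tendsto_natCast_atTop_atTop.atTop_mul_const h2).eventually_ge_atTop 2] with k h3 h4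
  rw [psi, Real.smoothTransition.one_of_one_le (by linarith),
    Real.smoothTransition.one_of_one_le (by linarith), one_mul]

def gk (k : ℕ) (z : ℂ × ℂ) : ℝ := psi k z * (‖z.2‖ ^ 2)⁻¹

theorem contDiff_gk (k : ℕ) : ContDiff ℝ ∞ (gk k) := by
  rw [contDiff_iff_contDiffAt]
  intro z
  by_cases hz : z ∈ Kset k
  · have h0 := snd_ne (Kset_subset k hz)
    exact (contDiff_psi k).contDiffAt.mul (((contDiffAt_normsnd h0).pow 2).inv
      (pow_ne_zero 2 (norm_ne_zero_iff.2 h0)))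
  · refine (contDiffAt_const (c := (0 : ℝ))).congr_of_eventuallyEq ?_
    filter_upwards [(isClosed_Kset k).isOpen_compl.mem_nhds hz] with y hy
    rw [gk, psi_eq_zero hy, zero_mul]

theorem fderiv_gk_rot (k : ℕ) (z : ℂ × ℂ) : fderiv ℝ (gk k) z (0, I * z.2) = 0 := by
  have h1 : HasDerivAt (fun τ : ℝ => ((z.1, rot τ * z.2) : ℂ × ℂ))
      ((2 * Real.pi : ℝ) • ((0, I * z.2) : ℂ × ℂ)) 0 := by
    refine ((hasDerivAt_const (0 : ℝ) z.1).prodMk ((hasDerivAt_rot 0).mul_const z.2)).congr_deriv ?_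
    ext
    · simp
    · simp [rot_zero]
      ring
  have h2 : HasFDerivAt (gk k) (fderiv ℝ (gk k) z) (z.1, rot 0 * z.2) := by
    rw [rot_zero, one_mul]
    exact ((contDiff_gk k).differentiable (by simp) z).hasFDerivAt
  have h3 := h2.comp_hasDerivAt 0 h1
  have h4 : (gk k ∘ fun τ : ℝ => ((z.1, rot τ * z.2) : ℂ × ℂ)) = fun _ => gk k z := by
    funext τ
    simp only [Function.comp, gk, psi, norm_mul, norm_rot, one_mul]
  rw [h4] at h3
  have h5 := h3.unique (hasDerivAt_const _ _)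
  rw [map_smul, smul_eq_zero] at h5
  refine h5.resolve_left ?_
  have := Real.pi_pos
  positivity

/-- The components of the rotation field. -/
def Xc (j : Fin 4) : (ℂ × ℂ) →L[ℝ] ℝ :=
  ![0, 0, -(imCLM.comp (ContinuousLinearMap.snd ℝ ℂ ℂ)), reCLM.comp (ContinuousLinearMap.snd ℝ ℂ ℂ)] j

theorem ang_ebasis (z : ℂ × ℂ) (j : Fin 4) : ang z (ebasis j) = (‖z.2‖ ^ 2)⁻¹ * Xc j z := by
  fin_cases j <;> simp [ang_apply, ebasis, Xc]

def tst (k : ℕ) (j : Fin 4) (z : ℂ × ℂ) : ℝ := gk k z * Xc j z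

theorem contDiff_tst (k : ℕ) (j : Fin 4) : ContDiff ℝ ∞ (tst k j) :=
  (contDiff_gk k).mul (Xc j).contDiff

theorem tsupport_tst (k : ℕ) (j : Fin 4) : tsupport (tst k j) ⊆ Kset k := by
  refine closure_minimal (fun z hz => ?_) (isClosed_Kset k)
  by_contra h
  exact hz (by rw [tst, gk, psi_eq_zero h, zero_mul, zero_mul])

theorem div_tst (k : ℕ) (z : ℂ × ℂ) : ∑ j, fderiv ℝ (tst k j) z (ebasis j) = 0 := by
  have h1 : ∀ j, fderiv ℝ (tst k j) z (ebasis j) =
      gk k z * Xc j (ebasis j) + fderiv ℝ (gk k) z (Xc j z • ebasis j) := by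
    intro j
    have := (((contDiff_gk k).differentiable (by simp) z).hasFDerivAt.mul (Xc j).hasFDerivAt).fderiv
    rw [show fderiv ℝ (tst k j) z = _ from this]
    simp
  simp only [h1, Finset.sum_add_distrib, ← map_sum, ← Finset.mul_sum]
  have h2 : ∑ j, Xc j (ebasis j) = 0 := by simp [Fin.sum_univ_four, Xc, ebasis]
  have h3 : ∑ j, Xc j z • ebasis j = (0, I * z.2) := by
    simp only [Fin.sum_univ_four, Xc, ebasis]
    ext <;> simp
    apply Complex.ext <;> simp
  rw [h2, h3, fderiv_gk_rot, mul_zero, add_zero]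

def idxOne : (Fin 1 ↪o Fin 4) ≃ Fin 4 where
  toFun J := J 0
  invFun j := OrderEmbedding.ofStrictMono (fun _ => j) (Subsingleton.strictMono _)
  left_inv J := by
    ext i
    rw [Subsingleton.elim i 0]
    rfl
  right_inv _ := rfl

variable {𝕜 : Type} [RCLike 𝕜] {q : ℕ}

theorem integrable_pair {ι : Type} [Fintype ι] {ψ : ℂ × ℂ → ℝ} (hψ : Continuous ψ)
    (u : Lp (EuclideanSpace 𝕜 ι) 2 (volume.restrict hartogs)) (I : ι) :
    Integrable (fun x => (ψ x : 𝕜) * u x I) (volume.restrict hartogs) :=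
  (memLp_of_continuous (RCLike.continuous_ofReal.comp hψ)).integrable_mul
    ((EuclideanSpace.proj I : EuclideanSpace 𝕜 ι →L[𝕜] 𝕜).comp_memLp u)

theorem weak_div {u : L2 𝕜 0} {f : L2 𝕜 1} (h : IsWeakD u f) (k : ℕ) :
    ∫ x in hartogs, ∑ J : Fin 1 ↪o Fin 4, (tst k (J 0) x : 𝕜) * f x J = 0 := by
  rw [integral_finset_sum _ fun J _ => integrable_pair (contDiff_tst k (J 0)).continuous f J]
  let I0 : Fin 0 ↪o Fin 4 := OrderEmbedding.ofIsEmpty
  have hc : ∀ j, Continuous fun x => fderiv ℝ (tst k j) x (ebasis j) := fun j =>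
    ((contDiff_tst k j).continuous_fderiv (by simp)).clm_apply continuous_const
  have h1 : ∀ J : Fin 1 ↪o Fin 4, ∫ x in hartogs, (tst k (J 0) x : 𝕜) * f x J =
      -∫ x in hartogs, (fderiv ℝ (tst k (J 0)) x (ebasis (J 0)) : 𝕜) * u x I0 := by
    intro J
    have h2 := h (tst k (J 0)) (contDiff_tst _ _)
      ((isCompact_Kset k).of_isClosed_subset (isClosed_tsupport _) (tsupport_tst _ _))
      ((tsupport_tst _ _).trans (Kset_subset k)) J
    have h3 : face J 0 = I0 := by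
      ext i
      exact i.elim0
    rw [Fin.sum_univ_one, h3] at h2
    simpa using h2
  simp only [h1]
  rw [Finset.sum_neg_distrib, neg_eq_zero,
    ← integral_finset_sum _ fun J _ => integrable_pair (hc (J 0)) u I0]
  refine integral_eq_zero_of_ae (Eventually.of_forall fun x => ?_)
  simp only [Pi.zero_apply]
  have h4 : ∑ J : Fin 1 ↪o Fin 4, fderiv ℝ (tst k (J 0)) x (ebasis (J 0)) = 0 :=
    (idxOne.sum_comp fun j => fderiv ℝ (tst k j) x (ebasis j)).trans (div_tst k x)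
  rw [← Finset.sum_mul, ← RCLike.ofReal_sum, h4]
  simp

theorem orth_one (γ : A1 𝕜 1) {u : L2 𝕜 0} {f : L2 𝕜 1} (h : IsWeakD u f) :
    ⟪ThL γ, f⟫_𝕜 = 0 := by
  have hint := L2.integrable_inner (𝕜 := 𝕜) (ThL γ) f
  have h1 : Tendsto (fun k => ∫ x in hartogs, psi k x • ⟪ThL γ x, f x⟫_𝕜) atTop
      (𝓝 (∫ x in hartogs, ⟪ThL γ x, f x⟫_𝕜)) := by
    refine tendsto_integral_of_dominated_convergence (fun x => ‖⟪ThL γ x, f x⟫_𝕜‖)
      (fun k => (contDiff_psi k).continuous.aestronglyMeasurable.smul hint.1) hint.norm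
      (fun k => Eventually.of_forall fun x => ?_) ?_
    · rw [norm_smul, Real.norm_of_nonneg (psi_mem k x).1]
      exact mul_le_of_le_one_left (norm_nonneg _) (psi_mem k x).2
    · filter_upwards [ae_restrict_mem measurableSet_hartogs] with x hx
      refine tendsto_const_nhds.congr' ?_
      filter_upwards [psi_eventually hx] with k hk
      rw [hk, one_smul]
  rw [L2.inner_def]
  refine tendsto_nhds_unique h1 (tendsto_const_nhds.congr fun k => ?_)
  rw [← mul_zero (starRingEnd 𝕜 (γ fun _ => 1)), ← weak_div h k, ← integral_const_mul]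
  refine integral_congr_ae ?_
  filter_upwards [ThL_ae γ] with x hx
  rw [hx, PiLp.inner_apply, Finset.smul_sum, Finset.mul_sum]
  refine Finset.sum_congr rfl fun J _ => ?_
  rw [coef_apply, Th, ContinuousAlternatingMap.compContinuousLinearMap_apply,
    A1_apply γ (_ ∘ _), Fin.prod_univ_one, Function.comp_apply, ang_ebasis, RCLike.inner_apply, tst, gk,
    RCLike.real_smul_eq_coe_mul, RCLike.real_smul_eq_coe_mul, map_mul, RCLike.conj_ofReal]
  push_cast
  ring

theorem orth_ThL (γ : A1 𝕜 (q + 1)) {u : L2 𝕜 q} {f : L2 𝕜 (q + 1)} (h : IsWeakD u f) :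
    ⟪ThL γ, f⟫_𝕜 = 0 := by
  cases q with
  | zero => exact orth_one γ h
  | succ q => rw [A1_two γ, ThL_zero, inner_zero_left]

end Pool.Agent.H188Z
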