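import Pool.Agent.H188Z.Homot

/-! The forms pulled back from the circle. -/

set_option autoImplicit false

open scoped Topology ENNReal ContDiff NNReal InnerProductSpace
open Set Metric MeasureTheory Filter Complex

noncomputable section

namespace Pool.Agent.H188Z

theorem rot_add (a b : ℝ) : rot (a + b) = rot a * rot b := by
  simp only [rot, ← Complex.exp_add]
  congr 1
  push_cast
  ring

theorem rot_one : rot 1 = 1 := by
  rw [rot]
  have := Complex.exp_two_pi_mul_I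
  convert this using 2
  push_cast
  ring

theorem exists_rot {ζ : ℂ} (hζ : ‖ζ‖ = 1) : ∃ τ, rot τ = ζ := by
  refine ⟨arg ζ / (2 * Real.pi), ?_⟩
  have h1 : 2 * Real.pi * (arg ζ / (2 * Real.pi)) = arg ζ := by
    have := Real.pi_pos
    field_simp
  have h2 := Complex.norm_mul_exp_arg_mul_I ζ
  rw [hζ, Complex.ofReal_one, one_mul] at h2
  rw [rot, h1, h2]

theorem avg_rot {F : Type*} [NormedAddCommGroup F] [NormedSpace ℝ F] (Φ : (ℂ × ℂ) × ℂ → F)
    (hΦ : ContinuousOn Φ (closedBall 0 1 ×ˢ sphere 0 1)) {ζ : ℂ} (hζ : ‖ζ‖ = 1) :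
    IntegrableOn (fun p : Par => Φ (p.2, rot p.1 * ζ)) BP piP ∧
    ∫ p in BP, Φ (p.2, rot p.1 * ζ) ∂piP =
      ∫ α in (0 : ℝ)..1, ∫ v in closedBall 0 1, Φ (v, rot α) ∂piV := by
  have hint : IntegrableOn (fun p : Par => Φ (p.2, rot p.1 * ζ)) BP piP := by
    refine ContinuousOn.integrableOn_compact isCompact_BP (hΦ.comp ?_ fun p hp => ⟨hp.2, ?_⟩)
    · exact (continuous_snd.prodMk ((contDiff_rot.continuous.comp continuous_fst).mul
        continuous_const)).continuousOn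
    · rw [mem_sphere_zero_iff_norm, norm_mul, norm_rot, hζ, one_mul]
  refine ⟨hint, ?_⟩
  obtain ⟨τ, rfl⟩ := exists_rot hζ
  rw [piP, BP, setIntegral_prod _ hint]
  have hp : Function.Periodic (fun α => ∫ v in closedBall 0 1, Φ (v, rot α) ∂piV) 1 := by
    intro α
    simp only [rot_add, rot_one, mul_one]
  have h1 := hp.intervalIntegral_add_eq τ 0
  rw [zero_add] at h1
  rw [← h1, integral_Icc_eq_integral_Ioc, ← intervalIntegral.integral_of_le zero_le_one]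
  simp only [← rot_add]
  rw [intervalIntegral.integral_comp_add_right
    (fun α => ∫ v in closedBall 0 1, Φ (v, rot α) ∂piV) τ, zero_add, add_comm]

variable {𝕜 : Type} [RCLike 𝕜] {q : ℕ} {ε : ℝ}

/-- Alternating forms on the line. -/
abbrev A1 (𝕜 : Type) [RCLike 𝕜] (q : ℕ) : Type := ℝ [⋀^Fin q]→L[ℝ] 𝕜

/-- The pullback of a constant form on the circle. -/
def Th (γ : A1 𝕜 q) (z : ℂ × ℂ) : Alt 𝕜 q := γ.compContinuousLinearMap (ang z)

theorem hP_eq (hε0 : 0 ≤ ε) (hε : ε ≤ 1 / 8) {w : ℂ × ℂ → Alt 𝕜 q}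
    (hw : ContinuousOn w hartogs) : ∃ γ : A1 𝕜 q, ∀ z ∈ hartogs, hP ε w z = Th γ z := by
  let N : (ℂ × ℂ) × ℂ → ℝ →L[ℝ] (ℂ × ℂ) := fun x =>
    ContinuousLinearMap.toSpanSingleton ℝ ((1 / 2 : ℝ) • gmap ε x.1 (0, I * x.2))
  let Φ : (ℂ × ℂ) × ℂ → A1 𝕜 q := fun x =>
    (w (gmap ε x.1 (0, (1 / 2 : ℝ) • x.2))).compContinuousLinearMap (N x)
  have hg : ∀ f : (ℂ × ℂ) × ℂ → ℂ × ℂ, Continuous f → Continuous fun x => gmap ε x.1 (f x) :=
    fun f hf => contDiff_gmap.continuous.comp (f := fun x : (ℂ × ℂ) × ℂ => (ε, x.1, f x))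
      (by fun_prop)
  have hN : Continuous N :=
    (ContinuousLinearMap.toSpanSingletonCLE (𝕜 := ℝ) (E := ℂ × ℂ)).continuous.comp
      ((hg (fun x => (0, I * x.2)) (by fun_prop)).const_smul (1 / 2 : ℝ))
  have hΦ : ContinuousOn Φ (closedBall 0 1 ×ˢ sphere 0 1) := by
    have hN2 : Continuous fun x => (ContinuousAlternatingMap.compContinuousLinearMapCLM (N x) :
        Alt 𝕜 q →L[ℝ] A1 𝕜 q) :=
      ContinuousAlternatingMap.continuous_compContinuousLinearMapCLM.comp hN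
    refine hN2.continuousOn.clm_apply ?_
    refine hw.comp (hg (fun x => (0, (1 / 2 : ℝ) • x.2)) (by fun_prop)).continuousOn
      fun x hx => gmap_mem hε0 hε (mem_closedBall_zero_iff.1 hx.1) ?_
    have h1 : ‖x.2‖ = 1 := mem_sphere_zero_iff_norm.1 hx.2
    constructor <;> simp [h1]
    norm_num
  refine ⟨∫ α in (0 : ℝ)..1, ∫ v in closedBall 0 1, Φ (v, rot α) ∂piV, fun z hz => ?_⟩
  obtain ⟨h1, h2⟩ := avg_rot Φ hΦ (norm_unit (snd_ne hz))
  have h3 : ∀ p : Par, pull (G2 ε) w ((1, p), z) =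
      ContinuousAlternatingMap.compContinuousLinearMapCLM (ang z)
        (Φ (p.2, rot p.1 * unit z.2)) := by
    intro p
    rw [pull, fderiv_G2_space _ _ _ (snd_ne hz)]
    have h4 : G2 ε ((1, p), z) = gmap ε p.2 (0, (1 / 2 : ℝ) • (rot p.1 * unit z.2)) := by
      simp [G2, phi]
      ring_nf
    rw [h4]
    ext ξ
    simp only [ContinuousAlternatingMap.compContinuousLinearMap_apply,
      ContinuousAlternatingMap.compContinuousLinearMapCLM_apply, Φ]
    congr 1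
    funext i
    simp only [Function.comp, N, ContinuousLinearMap.toSpanSingleton_apply, sub_self,
      ContinuousLinearMap.add_apply, ContinuousLinearMap.smulRight_apply,
      ContinuousLinearMap.smul_apply, zero_smul, zero_add, nvec,
      Lmap_apply, one_mul, smul_smul, smul_eq_mul]
    rw [mul_comm (ang z (ξ i)), mul_left_comm (rot p.1)]
  rw [Th, ← h2, hP, avgPull]
  simp only [h3]
  exact (ContinuousLinearMap.integral_comp_comm _ h1)

theorem A1_apply (γ : A1 𝕜 q) (v : Fin q → ℝ) : γ v = (∏ i, v i) • γ fun _ => 1 := by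
  have := γ.toContinuousMultilinearMap.map_smul_univ v (fun _ => 1)
  simpa using this

theorem A1_ext {γ : A1 𝕜 q} (h : γ (fun _ => 1) = 0) : γ = 0 := by
  refine ContinuousAlternatingMap.ext fun v => ?_
  rw [A1_apply, h]
  simp

theorem A1_two (γ : A1 𝕜 (q + 2)) : γ = 0 :=
  A1_ext (γ.map_eq_zero_of_eq _ (i := 0) (j := 1) rfl (by simp))

theorem exists_gen (𝕜 : Type) [RCLike 𝕜] (q : ℕ) :
    ∃ γ₀ : A1 𝕜 q, ∀ γ : A1 𝕜 q, ∃ c : 𝕜, γ = c • γ₀ := by
  by_cases h : ∀ γ : A1 𝕜 q, γ = 0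
  · exact ⟨0, fun γ => ⟨0, by rw [h γ, h ((0 : 𝕜) • 0)]⟩⟩
  · push Not at h
    obtain ⟨γ₀, h0⟩ := h
    have h1 : γ₀ (fun _ => 1) ≠ 0 := fun h2 => h0 (A1_ext h2)
    refine ⟨γ₀, fun γ => ⟨γ (fun _ => 1) / γ₀ (fun _ => 1), ?_⟩⟩
    refine ContinuousAlternatingMap.ext fun v => ?_
    rw [ContinuousAlternatingMap.smul_apply, A1_apply γ, A1_apply γ₀ v, smul_comm, smul_eq_mul,
      div_mul_cancel₀ _ h1]

theorem contDiffOn_ang : ContDiffOn ℝ ∞ ang U0 := by
  intro z hz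
  refine ContDiffAt.contDiffWithinAt ?_
  unfold ang
  have h1 : ContDiffAt ℝ ∞ (fun y : ℂ × ℂ => y.2.re) z :=
    reCLM.contDiff.contDiffAt.comp z contDiffAt_snd
  have h2 : ContDiffAt ℝ ∞ (fun y : ℂ × ℂ => y.2.im) z :=
    imCLM.contDiff.contDiffAt.comp z contDiffAt_snd
  exact (((contDiffAt_normsnd hz).pow 2).inv (pow_ne_zero 2 (norm_ne_zero_iff.2 hz))).smul
    ((h1.smul contDiffAt_const).sub (h2.smul contDiffAt_const))

theorem contDiffOn_Th (γ : A1 𝕜 q) : ContDiffOn ℝ ∞ (Th γ) U0 :=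
  contDiffOn_altComp contDiffOn_const contDiffOn_ang

theorem norm_Th_le (γ : A1 𝕜 q) {z : ℂ × ℂ} (hz : z ∈ hartogs) :
    ‖Th γ z‖ ≤ (2 ^ q * 2 * ‖γ‖) * ‖z.2‖⁻¹ := by
  have h0 := snd_pos hz
  have h1 := norm_comp_rank_one γ (0 : (ℂ × ℂ) →L[ℝ] ℝ) (fun ξ => by simp) (ang z)
    (β := ‖z.2‖⁻¹) (by positivity) (norm_ang_le (snd_ne hz)) 1 (by simp)
  have h2 : (0 : (ℂ × ℂ) →L[ℝ] ℝ) + (ang z).smulRight 1 = ang z := by
    refine ContinuousLinearMap.ext fun ξ => ?_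
    simp
  rw [h2] at h1
  have ht : 1 ≤ ‖z.2‖⁻¹ := (one_le_inv₀ h0).2 hz.2.le
  calc _ ≤ 2 ^ q * (1 + ‖z.2‖⁻¹) * ‖γ‖ := h1
    _ ≤ 2 ^ q * (2 * ‖z.2‖⁻¹) * ‖γ‖ := by gcongr; linarith
    _ = _ := by ring

theorem extDeriv_Th (γ : A1 𝕜 q) {z : ℂ × ℂ} (hz : z.2 ≠ 0) : extDeriv (Th γ) z = 0 := by
  let f : ℂ × ℂ → ℝ := fun y => imCLM (Complex.log (y.2 / z.2))
  have hs : ∀ᶠ y : ℂ × ℂ in 𝓝 z, y.2 / z.2 ∈ slitPlane := by
    refine (continuous_snd.div_const z.2).continuousAt.eventually_mem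
      (isOpen_slitPlane.mem_nhds ?_)
    show z.2 / z.2 ∈ slitPlane
    rw [div_self hz]
    exact one_mem_slitPlane
  have hf : ContDiffAt ℝ ∞ f z := by
    refine imCLM.contDiff.contDiffAt.comp z ?_
    exact ((Complex.contDiffAt_log hs.self_of_nhds).restrict_scalars ℝ).comp z
      (f := fun y : ℂ × ℂ => y.2 / z.2) (contDiffAt_snd.div_const _)
  have hd : ∀ᶠ y in 𝓝 z, Th γ y = γ.compContinuousLinearMap (fderiv ℝ f y) := by
    filter_upwards [hs, isOpen_U0.mem_nhds hz] with y hy hy0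
    have h1 : HasFDerivAt (fun x : ℂ × ℂ => x.2 / z.2)
        ((z.2⁻¹ : ℂ) • ContinuousLinearMap.snd ℝ ℂ ℂ) y := by
      have := (hasFDerivAt_snd (𝕜 := ℝ) (p := y)).const_smul (z.2⁻¹ : ℂ)
      refine this.congr_of_eventuallyEq (Eventually.of_forall fun x => ?_)
      simp [div_eq_inv_mul]
    have h2 := imCLM.hasFDerivAt.comp y
      (((Complex.hasDerivAt_log hy).hasFDerivAt.restrictScalars ℝ).comp y h1)
    rw [Th, (show HasFDerivAt f _ y from h2).fderiv]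
    congr 1
    refine ContinuousLinearMap.ext fun ξ => ?_
    have hy1 : y.2 ≠ 0 := hy0
    have h3 : z.2⁻¹ * ξ.2 * (y.2 / z.2)⁻¹ = ξ.2 / y.2 := by field_simp
    simp only [ang_apply, ContinuousLinearMap.comp_apply, ContinuousLinearMap.smul_apply,
      ContinuousLinearMap.coe_restrictScalars', ContinuousLinearMap.toSpanSingleton_apply,
      ContinuousLinearMap.coe_snd', smul_eq_mul, imCLM_apply, h3, Complex.div_im,
      Complex.normSq_eq_norm_sq]
    ring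
  rw [Filter.EventuallyEq.extDeriv_eq hd,
    extDeriv_pullback (differentiableAt_const γ) hf (by simpa using two_le_infty)]
  have h5 : extDeriv (fun _ : ℝ => γ) (f z) = 0 := by
    rw [extDeriv, fderiv_fun_const, Pi.zero_apply,
      ← ContinuousAlternatingMap.alternatizeUncurryFinCLM_apply, map_zero]
  rw [h5]
  ext v
  simp

theorem memLp_Th (γ : A1 𝕜 q) :
    MemLp (fun z => coef 𝕜 q (Th γ z)) 2 (volume.restrict hartogs) := by
  obtain ⟨c, hc0, hc, -⟩ := exists_coef_bound 𝕜 q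
  refine (memLp_inv (c * (2 ^ q * 2 * ‖γ‖))).of_le
    (aesm_of_contDiffOn ((contDiffOn_Th γ).mono hartogs_subset_U0)) ?_
  filter_upwards [ae_restrict_mem measurableSet_hartogs] with z hz
  refine (hc _).trans (le_trans ?_ (le_abs_self _))
  rw [norm_of_mem hz, mul_assoc]
  gcongr
  exact norm_Th_le γ hz

def ThL (γ : A1 𝕜 q) : L2 𝕜 q := (memLp_Th γ).toLp _

theorem ThL_ae (γ : A1 𝕜 q) :
    ThL γ =ᵐ[volume.restrict hartogs] fun z => coef 𝕜 q (Th γ z) := (memLp_Th γ).coeFn_toLp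

theorem Th_smul (c : 𝕜) (γ : A1 𝕜 q) (z : ℂ × ℂ) : Th (c • γ) z = c • Th γ z := rfl

theorem ThL_smul (c : 𝕜) (γ : A1 𝕜 q) : ThL (c • γ) = c • ThL γ := by
  refine Lp.ext ?_
  filter_upwards [ThL_ae (c • γ), Lp.coeFn_smul c (ThL γ), ThL_ae γ] with z h1 h2 h3
  rw [h1, h2, Pi.smul_apply, h3, Th_smul, map_smul]

theorem ThL_zero : ThL (0 : A1 𝕜 q) = 0 := by
  have h := ThL_smul (0 : 𝕜) (0 : A1 𝕜 q)
  rw [zero_smul 𝕜 (ThL (0 : A1 𝕜 q))] at h
  rw [← h]
  congr 1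
  refine ContinuousAlternatingMap.ext fun v => ?_
  simp

theorem strong_ThL (γ : A1 𝕜 q) : IsStrongD (ThL γ) (0 : L2 𝕜 (q + 1)) := by
  refine strong_of_bound (contDiffOn_Th γ) (fun z hz => norm_Th_le γ hz) (ThL_ae γ) ?_
  filter_upwards [Lp.coeFn_zero (Cov 𝕜 (q + 1)) 2 (volume.restrict hartogs),
    ae_restrict_mem measurableSet_hartogs] with z h1 hz
  rw [h1, extDeriv_Th γ (snd_ne hz), map_zero, Pi.zero_apply]

theorem Ops.range_P (O : Ops 𝕜 ε) (hε0 : 0 ≤ ε) (hε : ε ≤ 1 / 8) (u : L2 𝕜 q) :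
    ∃ γ : A1 𝕜 q, O.P q u = ThL γ := by
  obtain ⟨γ₀, h0⟩ := exists_gen 𝕜 q
  have h1 : O.P q u ∈ Submodule.span 𝕜 {ThL γ₀} := by
    refine DenseRange.induction_on (p := fun u => O.P q u ∈ Submodule.span 𝕜 {ThL γ₀})
      denseRange_emb u ((Submodule.closed_of_finiteDimensional _).preimage (O.P q).continuous)
      fun w => ?_
    obtain ⟨γ, hγ⟩ := hP_eq hε0 hε (Sm.smooth w).continuous.continuousOn
    obtain ⟨c, rfl⟩ := h0 γ
    refine Submodule.mem_span_singleton.2 ⟨c, ?_⟩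
    rw [← ThL_smul]
    refine Lp.ext ?_
    filter_upwards [ThL_ae (c • γ₀), O.hP q w, ae_restrict_mem measurableSet_hartogs]
      with z h2 h3 hz
    rw [h2, h3, hγ z hz]
  obtain ⟨c, hc⟩ := Submodule.mem_span_singleton.1 h1
  exact ⟨c • γ₀, by rw [ThL_smul, hc]⟩

theorem not_exact {γ : A1 𝕜 1} {w : ℂ × ℂ → Alt 𝕜 0} (hw : ContDiffOn ℝ ∞ w hartogs)
    (h : ∀ z ∈ hartogs, Th γ z = extDeriv w z) : γ = 0 := by
  let c : ℝ → ℂ × ℂ := fun τ => (0, (1 / 2 : ℝ) • rot τ)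
  have hn : ∀ τ, ‖(c τ).2‖ = 1 / 2 := fun τ => by
    show ‖(1 / 2 : ℝ) • rot τ‖ = _
    rw [norm_smul, norm_rot]
    norm_num
  have hc : ∀ τ, c τ ∈ hartogs := fun τ => by
    constructor
    · rw [hn]
      simp [c]
    · rw [hn]
      norm_num
  have hc' : ∀ τ, HasDerivAt c (0, (1 / 2 : ℝ) • (rot τ * ((2 * Real.pi : ℝ) * I))) τ := fun τ =>
    (hasDerivAt_const τ (0 : ℂ)).prodMk ((hasDerivAt_rot τ).const_smul (1 / 2 : ℝ))
  set a : 𝕜 := (2 * Real.pi : ℝ) • γ fun _ => 1 with ha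
  have hF : ∀ τ, HasDerivAt (fun τ : ℝ => w (c τ) ![] - τ • a) 0 τ := by
    intro τ
    have h1 : DifferentiableAt ℝ w (c τ) :=
      (hw.contDiffAt (isOpen_hartogs.mem_nhds (hc τ))).differentiableAt (by simp)
    have h2 : DifferentiableAt ℝ (fun y => w y ![]) (c τ) :=
      (ContinuousAlternatingMap.apply ℝ (ℂ × ℂ) 𝕜 ![]).differentiableAt.comp _ h1
    have h3 := (h2.hasFDerivAt.comp_hasDerivAt τ (hc' τ)).sub ((hasDerivAt_id τ).smul_const a)
    refine h3.congr_deriv ?_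
    have h4 := congrArg (fun η : Alt 𝕜 1 => η ![(0, (1 / 2 : ℝ) • (rot τ * ((2 * Real.pi : ℝ) * I)))])
      (h _ (hc τ))
    simp only [extDeriv_apply h1] at h4
    rw [Fin.sum_univ_one] at h4
    simp only [Fin.val_zero, pow_zero, one_smul, Matrix.cons_val_zero] at h4
    have h5 : (fun y => w y (Fin.removeNth (0 : Fin 1)
        ![((0, (1 / 2 : ℝ) • (rot τ * ((2 * Real.pi : ℝ) * I))) : ℂ × ℂ)])) = fun y => w y ![] := by
      funext y
      congr 1
    rw [h5] at h4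
    rw [← h4, Th, ContinuousAlternatingMap.compContinuousLinearMap_apply, A1_apply, one_smul, ha,
      sub_eq_zero]
    congr 1
    rw [Fin.prod_univ_one, Function.comp_apply, Matrix.cons_val_zero, ang_apply, hn]
    have h6 : (rot τ).re * (rot τ).re + (rot τ).im * (rot τ).im = 1 := by
      rw [← Complex.normSq_apply, Complex.normSq_eq_norm_sq, norm_rot]
      norm_num
    simp only [c, Complex.smul_re, Complex.smul_im, Complex.mul_re, Complex.mul_im,
      Complex.ofReal_re, Complex.ofReal_im, Complex.I_re, Complex.I_im, smul_eq_mul]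
    linear_combination (2 * Real.pi) * h6
  have h7 := is_const_of_deriv_eq_zero (fun τ => (hF τ).differentiableAt)
    (fun τ => (hF τ).deriv) 1 0
  have h8 : c 1 = c 0 := by simp only [c, rot_one, rot_zero]
  rw [h8, one_smul, zero_smul, sub_zero, sub_eq_self, ha, smul_eq_zero] at h7
  refine A1_ext (h7.resolve_left ?_)
  have := Real.pi_pos
  positivity

end Pool.Agent.H188Z
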