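import Pool.Agent.H188Z.Coef
import Pool.Agent.H188Z.Moll
import Pool.Agent.H188Z.Abs2

/-! Basic properties of the weak and strong extensions of `d`. -/

set_option autoImplicit false

open scoped Topology ENNReal ContDiff InnerProductSpace
open Set Metric MeasureTheory Filter

noncomputable section

namespace Pool.Agent.H188Z

theorem isOpen_hartogs : IsOpen hartogs :=
  (isOpen_lt (continuous_fst.norm) continuous_snd.norm).inter
    (isOpen_lt continuous_snd.norm continuous_const)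

theorem measurableSet_hartogs : MeasurableSet hartogs := isOpen_hartogs.measurableSet

theorem norm_of_mem {z : ℂ × ℂ} (hz : z ∈ hartogs) : ‖z‖ = ‖z.2‖ := by
  rw [Prod.norm_def, max_eq_right hz.1.le]

theorem hartogs_subset : hartogs ⊆ ball 0 1 := fun z hz => by
  rw [mem_ball_zero_iff, norm_of_mem hz]
  exact hz.2

theorem snd_pos {z : ℂ × ℂ} (hz : z ∈ hartogs) : 0 < ‖z.2‖ := (norm_nonneg _).trans_lt hz.1

theorem snd_ne {z : ℂ × ℂ} (hz : z ∈ hartogs) : z.2 ≠ 0 := norm_pos_iff.1 (snd_pos hz)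

instance finT : IsFiniteMeasure ((volume : Measure (ℂ × ℂ)).restrict hartogs) :=
  ⟨by
    rw [Measure.restrict_apply_univ]
    exact (measure_mono hartogs_subset).trans_lt measure_ball_lt_top⟩

theorem memLp_of_continuous {F : Type*} [NormedAddCommGroup F] {g : ℂ × ℂ → F}
    (hg : Continuous g) : MemLp g 2 (volume.restrict hartogs) := by
  obtain ⟨M, hM⟩ := (isCompact_closedBall (0 : ℂ × ℂ) 1).exists_bound_of_continuousOn
    hg.continuousOn
  refine MemLp.of_bound hg.aestronglyMeasurable M ?_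
  filter_upwards [ae_restrict_mem measurableSet_hartogs] with x hx
  exact hM x (ball_subset_closedBall (hartogs_subset hx))

variable {𝕜 : Type} [RCLike 𝕜]

theorem exists_pair {ι : Type} [Fintype ι] {ψ : ℂ × ℂ → ℝ} (hψ : Continuous ψ) (I : ι) :
    ∃ L : Lp (EuclideanSpace 𝕜 ι) 2 (volume.restrict hartogs) →L[𝕜] 𝕜,
      ∀ u, L u = ∫ x in hartogs, (ψ x : 𝕜) * u x I := by
  classical
  have h1 : Continuous fun x => (EuclideanSpace.single I (ψ x : 𝕜) : EuclideanSpace 𝕜 ι) := by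
    have : (fun x => (EuclideanSpace.single I (ψ x : 𝕜) : EuclideanSpace 𝕜 ι)) =
        fun x => (ψ x : 𝕜) • EuclideanSpace.single I (1 : 𝕜) := by
      funext x
      ext j
      simp only [PiLp.single_apply, PiLp.smul_apply, smul_eq_mul, mul_ite, mul_one, mul_zero]
    rw [this]
    exact Continuous.smul (f := fun x => (ψ x : 𝕜)) (RCLike.continuous_ofReal.comp hψ)
      continuous_const
  refine ⟨innerSL 𝕜 ((memLp_of_continuous h1).toLp _), fun u => ?_⟩
  rw [innerSL_apply_apply, L2.inner_def]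
  refine integral_congr_ae ?_
  filter_upwards [(memLp_of_continuous h1).coeFn_toLp] with x hx
  rw [hx, EuclideanSpace.inner_single_left, RCLike.conj_ofReal]

variable {q : ℕ}

/-- The weak identity tested against one function. -/
def WeakAt (φ : ℂ × ℂ → ℝ) (u : L2 𝕜 q) (f : L2 𝕜 (q + 1)) : Prop :=
  ∀ J : Fin (q + 1) ↪o Fin 4,
    ∫ x in hartogs, (φ x : 𝕜) * f x J =
      -∑ i : Fin (q + 1), (-1 : 𝕜) ^ (i : ℕ) *
        ∫ x in hartogs, (fderiv ℝ φ x (ebasis (J i)) : 𝕜) * u x (face J i)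

theorem exists_weakAt_ker {φ : ℂ × ℂ → ℝ} (hφ : ContDiff ℝ ∞ φ) :
    ∃ L : (Fin (q + 1) ↪o Fin 4) → (L2 𝕜 q × L2 𝕜 (q + 1) →L[𝕜] 𝕜),
      ∀ u f, WeakAt φ u f ↔ ∀ J, L J (u, f) = 0 := by
  choose L₁ hL₁ using fun J : Fin (q + 1) ↪o Fin 4 => exists_pair (𝕜 := 𝕜) hφ.continuous J
  choose L₂ hL₂ using fun (v : ℂ × ℂ) (I : Fin q ↪o Fin 4) => exists_pair (𝕜 := 𝕜)
    ((hφ.continuous_fderiv (by simp)).clm_apply (continuous_const (y := v))) I
  refine ⟨fun J => L₁ J ∘L .snd _ _ _ + ∑ i : Fin (q + 1),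
    ((-1 : 𝕜) ^ (i : ℕ)) • (L₂ (ebasis (J i)) (face J i) ∘L .fst _ _ _), fun u f => ?_⟩
  refine forall_congr' fun J => ?_
  simp only [ContinuousLinearMap.add_apply, ContinuousLinearMap.sum_apply,
    ContinuousLinearMap.smul_apply, ContinuousLinearMap.comp_apply, ContinuousLinearMap.coe_fst',
    ContinuousLinearMap.coe_snd', hL₁, hL₂, smul_eq_mul]
  exact eq_neg_iff_add_eq_zero

variable (𝕜 q) in
/-- The graph of the weak extension as a submodule. -/
def weakGraph : Submodule 𝕜 (L2 𝕜 q × L2 𝕜 (q + 1)) where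
  carrier := {p | IsWeakD p.1 p.2}
  add_mem' := by
    intro a b ha hb φ h1 h2 h3
    obtain ⟨L, hL⟩ := exists_weakAt_ker (𝕜 := 𝕜) (q := q) h1
    refine (hL _ _).2 fun J => ?_
    have h4 := (hL _ _).1 (ha φ h1 h2 h3) J
    have h5 := (hL _ _).1 (hb φ h1 h2 h3) J
    show L J (a + b) = 0
    rw [map_add, h4, h5, add_zero]
  zero_mem' := by
    intro φ h1 h2 h3
    obtain ⟨L, hL⟩ := exists_weakAt_ker (𝕜 := 𝕜) (q := q) h1
    exact (hL _ _).2 fun J => map_zero _
  smul_mem' := by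
    intro c a ha φ h1 h2 h3
    obtain ⟨L, hL⟩ := exists_weakAt_ker (𝕜 := 𝕜) (q := q) h1
    refine (hL _ _).2 fun J => ?_
    have h4 := (hL _ _).1 (ha φ h1 h2 h3) J
    show L J (c • a) = 0
    rw [map_smul, h4, smul_zero]

theorem weakAt_of_tendsto {φ : ℂ × ℂ → ℝ} (hφ : ContDiff ℝ ∞ φ) {a : ℕ → L2 𝕜 q}
    {b : ℕ → L2 𝕜 (q + 1)} {u : L2 𝕜 q} {f : L2 𝕜 (q + 1)} (ha : Tendsto a atTop (𝓝 u))
    (hb : Tendsto b atTop (𝓝 f)) (h : ∀ᶠ n in atTop, WeakAt φ (a n) (b n)) : WeakAt φ u f := by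
  obtain ⟨L, hL⟩ := exists_weakAt_ker (𝕜 := 𝕜) (q := q) hφ
  refine (hL _ _).2 fun J => ?_
  have h1 := ((L J).continuous.tendsto (u, f)).comp (ha.prodMk_nhds hb)
  refine tendsto_nhds_unique h1 (tendsto_const_nhds.congr' ?_)
  filter_upwards [h] with n hn
  exact ((hL _ _).1 hn J).symm

theorem isClosed_weakGraph : IsClosed (weakGraph 𝕜 q : Set (L2 𝕜 q × L2 𝕜 (q + 1))) := by
  refine isClosed_of_closure_subset fun p hp => ?_
  obtain ⟨x, hx1, hx2⟩ := mem_closure_iff_seq_limit.1 hp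
  intro φ h1 h2 h3
  exact weakAt_of_tendsto h1 (continuous_fst.tendsto p |>.comp hx2)
    (continuous_snd.tendsto p |>.comp hx2) (Eventually.of_forall fun n => hx1 n φ h1 h2 h3)

theorem eq_zero_of_pair {ι : Type} [Fintype ι]
    {f : Lp (EuclideanSpace 𝕜 ι) 2 (volume.restrict hartogs)}
    (h : ∀ φ : ℂ × ℂ → ℝ, ContDiff ℝ ∞ φ → HasCompactSupport φ → tsupport φ ⊆ hartogs →
      ∀ J, ∫ x in hartogs, (φ x : 𝕜) * f x J = 0) : f = 0 := by
  have hint : IntegrableOn f hartogs volume := (Lp.memLp f).integrable one_le_two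
  have h1 : ∀ J, ∀ᵐ x ∂volume, x ∈ hartogs → f x J = 0 := by
    intro J
    have h2 : IntegrableOn (fun x => f x J) hartogs volume :=
      (EuclideanSpace.proj J : EuclideanSpace 𝕜 ι →L[𝕜] 𝕜).integrable_comp hint
    refine isOpen_hartogs.ae_eq_zero_of_integral_contDiff_smul_eq_zero
      h2.locallyIntegrableOn fun φ h3 h4 h5 => ?_
    rw [← h φ h3 h4 h5 J, ← setIntegral_eq_integral_of_forall_compl_eq_zero (s := hartogs)]
    · simp only [RCLike.real_smul_eq_coe_mul]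
    · intro x hx
      rw [image_eq_zero_of_notMem_tsupport fun h6 => hx (h5 h6), zero_smul]
  rw [Lp.eq_zero_iff_ae_eq_zero]
  rw [← ae_all_iff] at h1
  filter_upwards [ae_restrict_of_ae h1, ae_restrict_mem measurableSet_hartogs] with x h2 h3
  ext J
  exact h2 J h3

theorem weak_unique {f : L2 𝕜 (q + 1)} (h : IsWeakD (0 : L2 𝕜 q) f) : f = 0 := by
  refine eq_zero_of_pair fun φ h1 h2 h3 J => ?_
  have h4 := h φ h1 h2 h3 J
  have h5 := (show IsWeakD (0 : L2 𝕜 q) (0 : L2 𝕜 (q + 1)) from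
    (weakGraph 𝕜 q).zero_mem) φ h1 h2 h3 J
  rw [h4, ← h5]
  refine integral_eq_zero_of_ae ?_
  filter_upwards [Lp.coeFn_zero (Cov 𝕜 (q + 1)) 2 (volume.restrict hartogs)] with x hx
  show (φ x : 𝕜) * (0 : L2 𝕜 (q + 1)) x J = 0
  rw [hx]
  simp

theorem graph_dWeak : (dWeak 𝕜 q).graph = weakGraph 𝕜 q := by
  have h1 : Submodule.span 𝕜 {p : L2 𝕜 q × L2 𝕜 (q + 1) | IsWeakD p.1 p.2} = weakGraph 𝕜 q :=
    Submodule.span_eq (weakGraph 𝕜 q)
  rw [dWeak, h1]
  refine Submodule.toLinearPMap_graph_eq _ fun x hx h2 => ?_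
  have h3 : IsWeakD x.1 x.2 := hx
  rw [h2] at h3
  exact weak_unique h3

theorem mem_graph_dWeak {u : L2 𝕜 q} {f : L2 𝕜 (q + 1)} :
    (u, f) ∈ (dWeak 𝕜 q).graph ↔ IsWeakD u f := by
  rw [graph_dWeak]
  rfl

theorem ibp {φ : ℂ × ℂ → ℝ} (h1 : ContDiff ℝ ∞ φ) (h2 : HasCompactSupport φ)
    (h3 : tsupport φ ⊆ hartogs) {g : ℂ × ℂ → 𝕜} (hg : ContDiffOn ℝ ∞ g hartogs) (v : ℂ × ℂ) :
    ∫ x in hartogs, (φ x : 𝕜) * fderiv ℝ g x v =
      -∫ x in hartogs, (fderiv ℝ φ x v : 𝕜) * g x ∧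
    IntegrableOn (fun x => (φ x : 𝕜) * fderiv ℝ g x v) hartogs := by
  have key : ∀ (ψ : ℂ × ℂ → ℝ) (k : ℂ × ℂ → 𝕜), Continuous ψ → tsupport ψ ⊆ tsupport φ →
      ContinuousOn k hartogs → Integrable (fun x => ψ x • k x) volume := by
    intro ψ k hψ hs hk
    have h4 : IntegrableOn (fun x => ψ x • k x) (tsupport φ) volume :=
      (hψ.continuousOn.smul (hk.mono h3)).integrableOn_compact h2
    refine (integrableOn_iff_integrable_of_support_subset ?_).1 h4
    intro x hx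
    apply hs
    apply subset_tsupport
    intro h5
    apply hx
    simp [h5]
  have hφ' : Continuous fun x => fderiv ℝ φ x v :=
    (h1.continuous_fderiv (by simp)).clm_apply continuous_const
  have hs' : tsupport (fun x => fderiv ℝ φ x v) ⊆ tsupport φ :=
    (tsupport_fderiv_apply_subset ℝ v)
  have hg' : ContinuousOn (fun x => fderiv ℝ g x v) hartogs :=
    (hg.continuousOn_fderiv_of_isOpen isOpen_hartogs (by simp)).clm_apply continuousOn_const
  have h5 := integral_bilinear_hasFDerivAt_right_eq_neg_left_of_integrable (μ := volume)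
    (f := φ) (f' := fderiv ℝ φ) (g := g) (g' := fderiv ℝ g) (v := v)
    (B := ContinuousLinearMap.lsmul ℝ ℝ) (key _ _ hφ' hs' hg.continuousOn)
    (key _ _ h1.continuous subset_rfl hg') (key _ _ h1.continuous subset_rfl hg.continuousOn)
    (fun x _ => (h1.differentiable (by simp) x).hasFDerivAt)
    (fun x hx => ((hg.contDiffAt (isOpen_hartogs.mem_nhds (h3 hx))).differentiableAt
      (by simp)).hasFDerivAt)
  simp only [ContinuousLinearMap.lsmul_apply, RCLike.real_smul_eq_coe_mul] at h5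
  constructor
  · rw [setIntegral_eq_integral_of_forall_compl_eq_zero,
      setIntegral_eq_integral_of_forall_compl_eq_zero, h5]
    · intro x hx
      rw [image_eq_zero_of_notMem_tsupport (f := fun x => fderiv ℝ φ x v)
        fun h6 => hx (h3 (hs' h6))]
      simp
    · intro x hx
      rw [image_eq_zero_of_notMem_tsupport fun h6 => hx (h3 h6)]
      simp
  · have := (key _ _ h1.continuous subset_rfl hg').integrableOn (s := hartogs)
    simpa only [RCLike.real_smul_eq_coe_mul] using this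

theorem weakAt_of_smooth {φ : ℂ × ℂ → ℝ} (h1 : ContDiff ℝ ∞ φ) (h2 : HasCompactSupport φ)
    (h3 : tsupport φ ⊆ hartogs) {u : L2 𝕜 q} {f : L2 𝕜 (q + 1)} {β : ℂ × ℂ → Alt 𝕜 q}
    {γ : ℂ × ℂ → Alt 𝕜 (q + 1)} (hβ : ContDiffOn ℝ ∞ β hartogs)
    (hu : u =ᵐ[volume.restrict hartogs] fun x => coef 𝕜 q (β x))
    (hf : f =ᵐ[volume.restrict hartogs] fun x => coef 𝕜 (q + 1) (γ x))
    (hγ : ∀ x ∈ tsupport φ, γ x = extDeriv β x) : WeakAt φ u f := by
  intro J
  have hc : ∀ I, ContDiffOn ℝ ∞ (fun y => coef 𝕜 q (β y) I) hartogs := fun I =>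
    (((EuclideanSpace.proj I : Cov 𝕜 q →L[𝕜] 𝕜).restrictScalars ℝ).contDiff.comp
      contDiff_coef).comp_contDiffOn hβ
  have h4 : ∫ x in hartogs, (φ x : 𝕜) * f x J = ∫ x in hartogs, ∑ i : Fin (q + 1),
      (-1 : 𝕜) ^ (i : ℕ) * ((φ x : 𝕜) * fderiv ℝ (fun y => coef 𝕜 q (β y) (face J i)) x
        (ebasis (J i))) := by
    refine integral_congr_ae ?_
    filter_upwards [hf, ae_restrict_mem measurableSet_hartogs] with x hx hxT
    by_cases hφ : x ∈ tsupport φ
    · rw [hx, hγ x hφ, ← dcl_coef ((hβ.contDiffAt (isOpen_hartogs.mem_nhds hxT)).differentiableAt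
        (by simp))]
      show _ * ∑ i : Fin (q + 1), _ = _
      rw [Finset.mul_sum]
      exact Finset.sum_congr rfl fun i _ => by ring
    · simp [image_eq_zero_of_notMem_tsupport hφ]
  rw [h4, integral_finset_sum _ fun i _ => ((ibp h1 h2 h3 (hc (face J i))
    (ebasis (J i))).2.const_mul ((-1 : 𝕜) ^ (i : ℕ))), ← Finset.sum_neg_distrib]
  refine Finset.sum_congr rfl fun i _ => ?_
  rw [integral_const_mul, (ibp h1 h2 h3 (hc _) _).1, mul_neg]
  congr 2
  refine integral_congr_ae ?_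
  filter_upwards [hu] with x hx
  rw [hx]

variable (𝕜 q) in
/-- Forms that are smooth on the whole space. -/
def Sm : Submodule 𝕜 (ℂ × ℂ → Alt 𝕜 q) where
  carrier := {w | ContDiff ℝ ∞ w}
  add_mem' := fun {a b} (ha : ContDiff ℝ ∞ a) (hb : ContDiff ℝ ∞ b) => ha.add hb
  zero_mem' := (contDiff_const : ContDiff ℝ ∞ fun _ : ℂ × ℂ => (0 : Alt 𝕜 q))
  smul_mem' := fun c a (ha : ContDiff ℝ ∞ a) => ha.const_smul c

theorem Sm.smooth (w : Sm 𝕜 q) : ContDiff ℝ ∞ w.1 := w.2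

theorem Sm.diff (w : Sm 𝕜 q) (x : ℂ × ℂ) : DifferentiableAt ℝ w.1 x :=
  (Sm.smooth w).differentiable (by simp) x

theorem memLp_Sm (w : Sm 𝕜 q) : MemLp (fun x => coef 𝕜 q (w.1 x)) 2 (volume.restrict hartogs) :=
  memLp_of_continuous ((coef 𝕜 q).continuous.comp (Sm.smooth w).continuous)

variable (𝕜 q) in
def emb : Sm 𝕜 q →ₗ[𝕜] L2 𝕜 q where
  toFun w := (memLp_Sm w).toLp _
  map_add' v w := by
    rw [← MemLp.toLp_add]
    exact MemLp.toLp_congr _ _ (Eventually.of_forall fun x => map_add (coef 𝕜 q) _ _)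
  map_smul' c w := by
    rw [RingHom.id_apply, ← MemLp.toLp_const_smul]
    exact MemLp.toLp_congr _ _ (Eventually.of_forall fun x => map_smul (coef 𝕜 q) _ _)

theorem emb_ae (w : Sm 𝕜 q) :
    emb 𝕜 q w =ᵐ[volume.restrict hartogs] fun x => coef 𝕜 q (w.1 x) := (memLp_Sm w).coeFn_toLp

variable (𝕜 q) in
def dSm : Sm 𝕜 q →ₗ[𝕜] Sm 𝕜 (q + 1) where
  toFun w := ⟨extDeriv w.1, contDiff_extDeriv w.2⟩
  map_add' v w := by
    ext1
    funext x
    exact extDeriv_add (Sm.diff v x) (Sm.diff w x)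
  map_smul' c w := by
    ext1
    funext x
    show extDeriv (c • w.1) x = c • extDeriv w.1 x
    rw [extDeriv, extDeriv, fderiv_const_smul (Sm.diff w x),
      ContinuousAlternatingMap.alternatizeUncurryFin_smul]

theorem dSm_dSm (w : Sm 𝕜 q) : dSm 𝕜 (q + 1) (dSm 𝕜 q w) = 0 := by
  ext1
  exact extDeriv_extDeriv (Sm.smooth w) (by simpa using two_le_infty)

theorem tendsto_emb_iff {w : ℕ → Sm 𝕜 q} {u : L2 𝕜 q} :
    Tendsto (fun n => emb 𝕜 q (w n)) atTop (𝓝 u) ↔
      Tendsto (fun n => eLpNorm (fun x => coef 𝕜 q ((w n).1 x) - u x) 2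
        (volume.restrict hartogs)) atTop (𝓝 0) := by
  rw [Lp.tendsto_Lp_iff_tendsto_eLpNorm']
  refine tendsto_congr fun n => eLpNorm_congr_ae ?_
  filter_upwards [emb_ae (w n)] with x hx
  rw [Pi.sub_apply, hx]

theorem isStrongD_iff {u : L2 𝕜 q} {f : L2 𝕜 (q + 1)} : IsStrongD u f ↔
    ∃ w : ℕ → Sm 𝕜 q, Tendsto (fun n => emb 𝕜 q (w n)) atTop (𝓝 u) ∧
      Tendsto (fun n => emb 𝕜 (q + 1) (dSm 𝕜 q (w n))) atTop (𝓝 f) := by
  simp only [tendsto_emb_iff]
  constructor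
  · rintro ⟨v, h1, h2, h3⟩
    refine ⟨fun n => ⟨fun x => (coef 𝕜 q).symm (v n x), contDiff_coef_symm.comp (h1 n)⟩, ?_, ?_⟩
    · simpa using h2
    · refine h3.congr fun n => ?_
      congr 1
      funext x
      rw [dcl_eq ((h1 n).differentiable (by simp) x)]
      rfl
  · rintro ⟨w, h2, h3⟩
    refine ⟨fun n x => coef 𝕜 q ((w n).1 x), fun n => contDiff_coef.comp (w n).2, h2, ?_⟩
    refine h3.congr fun n => ?_
    congr 1
    funext x
    rw [dcl_coef (Sm.diff (w n) x)]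
    rfl

variable (𝕜 q) in
def strongGraph : Submodule 𝕜 (L2 𝕜 q × L2 𝕜 (q + 1)) :=
  (LinearMap.range ((emb 𝕜 q).prod ((emb 𝕜 (q + 1)).comp (dSm 𝕜 q)))).topologicalClosure

theorem mem_strongGraph {p : L2 𝕜 q × L2 𝕜 (q + 1)} : p ∈ strongGraph 𝕜 q ↔ IsStrongD p.1 p.2 := by
  rw [isStrongD_iff]
  constructor
  · intro h
    obtain ⟨x, hx1, hx2⟩ := mem_closure_iff_seq_limit.1 h
    choose w hw using hx1
    refine ⟨w, ?_, ?_⟩
    · refine ((continuous_fst.tendsto p).comp hx2).congr fun n => ?_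
      simp [← hw]
    · refine ((continuous_snd.tendsto p).comp hx2).congr fun n => ?_
      simp [← hw]
  · rintro ⟨w, h1, h2⟩
    exact mem_closure_of_tendsto (h1.prodMk_nhds h2) (Eventually.of_forall fun n => ⟨w n, rfl⟩)

theorem weak_emb (w : Sm 𝕜 q) : IsWeakD (emb 𝕜 q w) (emb 𝕜 (q + 1) (dSm 𝕜 q w)) :=
  fun _ h1 h2 h3 => weakAt_of_smooth h1 h2 h3 (ContDiff.contDiffOn w.2) (emb_ae w)
    (emb_ae (dSm 𝕜 q w)) fun _ _ => rfl

theorem strongGraph_le : strongGraph 𝕜 q ≤ weakGraph 𝕜 q := by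
  refine Submodule.topologicalClosure_minimal _ ?_ isClosed_weakGraph
  rintro _ ⟨w, rfl⟩
  exact weak_emb w

theorem graph_dStrong : (dStrong 𝕜 q).graph = strongGraph 𝕜 q := by
  have h0 : {p : L2 𝕜 q × L2 𝕜 (q + 1) | IsStrongD p.1 p.2} = strongGraph 𝕜 q := by
    ext p
    exact mem_strongGraph.symm
  rw [dStrong, h0, Submodule.span_eq]
  refine Submodule.toLinearPMap_graph_eq _ fun x hx h2 => ?_
  have h3 : IsWeakD x.1 x.2 := strongGraph_le hx
  rw [h2] at h3
  exact weak_unique h3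

theorem mem_graph_dStrong {u : L2 𝕜 q} {f : L2 𝕜 (q + 1)} :
    (u, f) ∈ (dStrong 𝕜 q).graph ↔ IsStrongD u f := by
  rw [graph_dStrong, mem_strongGraph]

/-- Extension by zero of an `L²` function on the triangle. -/
def ext0 {F : Type*} [NormedAddCommGroup F] (u : Lp F 2 (volume.restrict hartogs)) :
    ℂ × ℂ → F := hartogs.indicator u

theorem ext0_meas {F : Type*} [NormedAddCommGroup F] (u : Lp F 2 (volume.restrict hartogs)) :
    StronglyMeasurable (ext0 u) := (Lp.stronglyMeasurable u).indicator measurableSet_hartogs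

theorem ext0_memLp {F : Type*} [NormedAddCommGroup F] (u : Lp F 2 (volume.restrict hartogs)) :
    MemLp (ext0 u) 2 volume := (memLp_indicator_iff_restrict measurableSet_hartogs).2 (Lp.memLp u)

theorem ext0_loc {F : Type*} [NormedAddCommGroup F] (u : Lp F 2 (volume.restrict hartogs)) :
    LocallyIntegrable (ext0 u) volume := (ext0_memLp u).locallyIntegrable one_le_two

theorem moll_ext0_tendsto {F : Type*} [NormedAddCommGroup F] [NormedSpace ℝ F] [CompleteSpace F]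
    (u : Lp F 2 (volume.restrict hartogs)) :
    Tendsto (fun n => eLpNorm (fun x => moll n (ext0 u) x - u x) 2 (volume.restrict hartogs))
      atTop (𝓝 0) := by
  refine tendsto_of_tendsto_of_tendsto_of_le_of_le tendsto_const_nhds
    (moll_tendsto (ext0_meas u) (ext0_memLp u)) (fun n => zero_le) fun n => ?_
  refine le_trans (le_of_eq (eLpNorm_congr_ae ?_)) (eLpNorm_mono_measure _ Measure.restrict_le_self)
  filter_upwards [ae_restrict_mem measurableSet_hartogs] with x hx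
  rw [ext0, indicator_of_mem hx]

theorem pair_ext0 {ι : Type} [Fintype ι]
    (u : Lp (EuclideanSpace 𝕜 ι) 2 (volume.restrict hartogs)) {ψ : ℂ × ℂ → ℝ}
    (hψ : Continuous ψ) (hψc : HasCompactSupport ψ) (I : ι) :
    (∫ y, ψ y • ext0 u y) I = ∫ y in hartogs, (ψ y : 𝕜) * u y I := by
  have hint : Integrable (fun y => ψ y • ext0 u y) volume :=
    (ext0_loc u).integrable_smul_left_of_hasCompactSupport hψ hψc
  have h1 := ((EuclideanSpace.proj I : EuclideanSpace 𝕜 ι →L[𝕜] 𝕜).integral_comp_comm hint).symm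
  refine h1.trans ?_
  rw [← integral_indicator measurableSet_hartogs]
  refine integral_congr_ae (Eventually.of_forall fun y => ?_)
  by_cases hy : y ∈ hartogs
  · simp [ext0, hy, RCLike.real_smul_eq_coe_mul]
  · simp [ext0, hy]

/-- Mollification as a smooth form. -/
def mollSm (n : ℕ) (u : L2 𝕜 q) : Sm 𝕜 q :=
  ⟨fun x => (coef 𝕜 q).symm (moll n (ext0 u) x),
    contDiff_coef_symm.comp (moll_smooth n (ext0_loc u))⟩

theorem tendsto_mollSm (u : L2 𝕜 q) : Tendsto (fun n => emb 𝕜 q (mollSm n u)) atTop (𝓝 u) := by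
  rw [tendsto_emb_iff]
  simpa [mollSm] using moll_ext0_tendsto u

theorem denseRange_emb : DenseRange (emb 𝕜 q) := fun u =>
  mem_closure_of_tendsto (tendsto_mollSm u) (Eventually.of_forall fun _ => ⟨_, rfl⟩)

theorem extDeriv_mollSm {u : L2 𝕜 q} {f : L2 𝕜 (q + 1)} (h : IsWeakD u f) {n : ℕ} {x : ℂ × ℂ}
    (hx : closedBall x (1 / ((n : ℝ) + 1)) ⊆ hartogs) :
    extDeriv (mollSm n u).1 x = (mollSm n f).1 x := by
  apply (coef 𝕜 (q + 1)).injective
  have hd := (moll_smooth n (ext0_loc u)).differentiable (by simp) x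
  rw [mollSm, mollSm]
  simp only
  rw [← dcl_eq hd, ContinuousLinearEquiv.apply_symm_apply]
  ext J
  rw [moll_eq, pair_ext0 f (rhoAt_smooth n x).continuous (rhoAt_supp n x),
    h _ (rhoAt_smooth n x) (rhoAt_supp n x) ((rhoAt_tsupport n x).trans hx) J,
    ← Finset.sum_neg_distrib]
  show ∑ i : Fin (q + 1), _ = _
  refine Finset.sum_congr rfl fun i _ => ?_
  rw [← mul_neg, ← pair_ext0 u (((rhoAt_smooth n x).continuous_fderiv (by simp)).clm_apply
    continuous_const) ((rhoAt_supp n x).fderiv_apply ℝ _)]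
  congr 1
  have h1 := ((EuclideanSpace.proj (face J i) : Cov 𝕜 q →L[𝕜] 𝕜).restrictScalars
    ℝ).hasFDerivAt.comp x hd.hasFDerivAt
  have h2 : fderiv ℝ (fun y => moll n (ext0 u) y (face J i)) x (ebasis (J i)) =
      fderiv ℝ (moll n (ext0 u)) x (ebasis (J i)) (face J i) := by
    erw [h1.fderiv]
    rfl
  rw [h2, fderiv_moll n (ext0_loc u)]
  rfl

theorem eventually_ball {K : Set (ℂ × ℂ)} (hK : IsCompact K) (hKT : K ⊆ hartogs) :
    ∀ᶠ n : ℕ in atTop, ∀ x ∈ K, closedBall x (2 * (1 / ((n : ℝ) + 1))) ⊆ hartogs := by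
  obtain ⟨δ, hδ, h⟩ := hK.exists_cthickening_subset_open isOpen_hartogs hKT
  filter_upwards [tendsto_one_div_add_atTop_nhds_zero_nat.eventually
    (gt_mem_nhds (half_pos hδ))] with n hn x hx
  exact ((closedBall_subset_closedBall (by linarith)).trans
    (closedBall_subset_cthickening hx δ)).trans h

theorem weak_sq {u : L2 𝕜 q} {f : L2 𝕜 (q + 1)} (h : IsWeakD u f) :
    IsWeakD f (0 : L2 𝕜 (q + 2)) := by
  intro φ h1 h2 h3
  refine weakAt_of_tendsto h1 (tendsto_mollSm f) tendsto_const_nhds ?_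
  filter_upwards [eventually_ball h2 h3] with n hn
  refine weakAt_of_smooth (γ := fun _ => 0) h1 h2 h3 (ContDiff.contDiffOn (mollSm n f).2)
    (emb_ae _) ?_ fun x hx => ?_
  · filter_upwards [Lp.coeFn_zero (Cov 𝕜 (q + 2)) 2 (volume.restrict hartogs)] with x hx
    rw [hx]
    simp
  · have h4 : (mollSm n f).1 =ᶠ[𝓝 x] extDeriv (mollSm n u).1 := by
      have hpos : 0 < 1 / ((n : ℝ) + 1) := by positivity
      filter_upwards [closedBall_mem_nhds x hpos] with y hy
      refine (extDeriv_mollSm h (Subset.trans ?_ (hn x hx))).symm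
      refine closedBall_subset_closedBall' ?_
      rw [mem_closedBall] at hy
      linarith
    rw [h4.extDeriv_eq]
    exact (extDeriv_extDeriv_apply (Sm.smooth (mollSm n u)).contDiffAt
      (by simpa using two_le_infty)).symm

theorem strong_sq {u : L2 𝕜 q} {f : L2 𝕜 (q + 1)} (h : IsStrongD u f) :
    IsStrongD f (0 : L2 𝕜 (q + 2)) := by
  rw [isStrongD_iff] at h ⊢
  obtain ⟨w, -, h2⟩ := h
  refine ⟨fun n => dSm 𝕜 q (w n), h2, ?_⟩
  simp only [dSm_dSm, map_zero]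
  exact tendsto_const_nhds

theorem strong_emb (w : Sm 𝕜 q) : IsStrongD (emb 𝕜 q w) (emb 𝕜 (q + 1) (dSm 𝕜 q w)) :=
  isStrongD_iff.2 ⟨fun _ => w, tendsto_const_nhds, tendsto_const_nhds⟩

theorem dense_dWeak : Dense ((dWeak 𝕜 q).domain : Set (L2 𝕜 q)) := by
  refine Dense.mono ?_ denseRange_emb
  rintro _ ⟨w, rfl⟩
  exact LinearPMap.mem_domain_of_mem_graph (mem_graph_dWeak.2 (weak_emb w))

theorem dense_dStrong : Dense ((dStrong 𝕜 q).domain : Set (L2 𝕜 q)) := by
  refine Dense.mono ?_ denseRange_emb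
  rintro _ ⟨w, rfl⟩
  exact LinearPMap.mem_domain_of_mem_graph (mem_graph_dStrong.2 (strong_emb w))

theorem closed_dWeak : (dWeak 𝕜 q).IsClosed := by
  rw [LinearPMap.IsClosed, graph_dWeak]
  exact isClosed_weakGraph

theorem closed_dStrong : (dStrong 𝕜 q).IsClosed := by
  rw [LinearPMap.IsClosed, graph_dStrong]
  exact Submodule.isClosed_topologicalClosure _

theorem isCx_weak : IsCx (dWeak 𝕜 q) (dWeak 𝕜 (q + 1)) :=
  ⟨dense_dWeak, closed_dWeak, dense_dWeak, closed_dWeak, fun _ _ h =>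
    mem_graph_dWeak.2 (weak_sq (mem_graph_dWeak.1 h))⟩

theorem isCx_strong : IsCx (dStrong 𝕜 q) (dStrong 𝕜 (q + 1)) :=
  ⟨dense_dStrong, closed_dStrong, dense_dStrong, closed_dStrong, fun _ _ h =>
    mem_graph_dStrong.2 (strong_sq (mem_graph_dStrong.1 h))⟩

end Pool.Agent.H188Z
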